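import Pool.Agent.Lib.MP_464db4_gt.TI.ParE

/-!
# TI-Com: the averages commute with the fields `∂/∂x_j` and `x_j ∂/∂x_j + y_j ∂/∂y_j`
-/

namespace TRed

open Complex Matrix MeasureTheory YT Set Filter Topology
open scoped ContDiff ComplexConjugate

variable {ι : Type} [Fintype ι] [DecidableEq ι] {G : Type} [Group G] {pr : ι → G →* Matrix.SpecialLinearGroup (Fin 2) ℝ}
omit [Fintype ι] in
theorem cvi_congr {n : ℂ → ℝ} (hn : KW.GKer n) (i : ι) {F F' : (ι → ℂ) → ℝ} (h : ∀ b ∈ Hr ι, F b = F' b) {b : ι → ℂ} (hb : b ∈ Hr ι) :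
    cvi n i F b = cvi n i F' b :=
  KW.cv_congr hn (fun _ hw => h _ (update_mem hb i hw)) (hb i)

theorem dxi_cvi {n : ℂ → ℝ} (hn : KW.GKer n) (i j : ι) {F : (ι → ℂ) → ℝ} (hF : ContDiffOn ℝ 1 F (Hr ι)) {b : ι → ℂ} (hb : b ∈ Hr ι) :
    dxi j (cvi n i F) b = cvi n i (dxi j F) b := by
  by_cases hij : j = i
  · subst hij
    show KW.dx (fun t => cvi n j F (Function.update b j t)) (b j) = KW.cv n (fun t => dxi j F (Function.update b j t)) (b j)
    rw [slice_cvi, slice_dxi]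
    exact KW.dx_cv hn (slice_contDiffOn hF hb j) (hb j)
  · exact ((hasPart_of_contDiffOn hF j).cvi hn hij hF.continuousOn |>.eq hb).1

theorem dyi_cvi {n : ℂ → ℝ} (hn : KW.GKer n) {i j : ι} (hij : j ≠ i) {F : (ι → ℂ) → ℝ} (hF : ContDiffOn ℝ 1 F (Hr ι)) {b : ι → ℂ} (hb : b ∈ Hr ι) :
    dyi j (cvi n i F) b = cvi n i (dyi j F) b :=
  ((hasPart_of_contDiffOn hF j).cvi hn hij hF.continuousOn |>.eq hb).2

theorem L0i_cvi {n : ℂ → ℝ} (hn : KW.GKer n) (i j : ι) {F : (ι → ℂ) → ℝ} (hF : ContDiffOn ℝ 1 F (Hr ι)) {b : ι → ℂ} (hb : b ∈ Hr ι) :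
    L0i j (cvi n i F) b = cvi n i (L0i j F) b := by
  by_cases hij : j = i
  · subst hij
    show KW.L0 (fun t => cvi n j F (Function.update b j t)) (b j) = KW.cv n (fun t => L0i j F (Function.update b j t)) (b j)
    rw [slice_cvi, slice_L0i]
    exact KW.L0_cv hn (slice_contDiffOn hF hb j) (hb j)
  · have hP := hasPart_of_contDiffOn hF j
    have h1 : L0i j (cvi n i F) b = (b j).re * dxi j (cvi n i F) b + (b j).im * dyi j (cvi n i F) b := rfl
    rw [h1, dxi_cvi hn i j hF hb, dyi_cvi hn hij hF hb]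
    have h2 : (fun t => L0i j F (Function.update b i t)) =
        fun t => (b j).re * dxi j F (Function.update b i t) + (b j).im * dyi j F (Function.update b i t) := by
      funext t
      have h3 : L0i j F (Function.update b i t) = ((Function.update b i t) j).re * dxi j F (Function.update b i t) +
          ((Function.update b i t) j).im * dyi j F (Function.update b i t) := rfl
      rw [h3, Function.update_of_ne hij]
    have h4 : cvi n i (L0i j F) b = KW.cv n (fun t => (b j).re * dxi j F (Function.update b i t) + (b j).im * dyi j F (Function.update b i t)) (b i) := by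
      rw [← h2]
      rfl
    have c1 := slice_contOn hP.1 hb i
    have c2 := slice_contOn hP.2.1 hb i
    have h5 := KW.cv_add hn (φ := fun t => (b j).re * dxi j F (Function.update b i t)) (ψ := fun t => (b j).im * dyi j F (Function.update b i t))
      (continuousOn_const.mul c1) (continuousOn_const.mul c2) (hb i)
    rw [h4, h5, KW.cv_const_mul, KW.cv_const_mul]
    rfl

omit [Fintype ι] in
private theorem com_dx_div (j : ι) (F : (ι → ℂ) → ℝ) (c : ℝ) (b : ι → ℂ)
    (hd : DifferentiableAt ℝ (fun t : ℂ => F (Function.update b j t)) (b j)) :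
    dxi j (fun b => F b / c) b = dxi j F b / c ∧ L0i j (fun b => F b / c) b = L0i j F b / c := by
  have h1 : fderiv ℝ (fun t : ℂ => F (Function.update b j t) / c) (b j) = c⁻¹ • fderiv ℝ (fun t : ℂ => F (Function.update b j t)) (b j) := by
    have h2 := (hd.hasFDerivAt.const_smul c⁻¹).fderiv
    rw [← h2]
    congr 1
    funext t
    show _ = c⁻¹ * _
    rw [div_eq_inv_mul]
  have hx : dxi j (fun b => F b / c) b = dxi j F b / c := by
    show fderiv ℝ (fun t : ℂ => F (Function.update b j t) / c) (b j) 1 = fderiv ℝ (fun t : ℂ => F (Function.update b j t)) (b j) 1 / c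
    rw [h1, div_eq_inv_mul]
    rfl
  have hy : dyi j (fun b => F b / c) b = dyi j F b / c := by
    show fderiv ℝ (fun t : ℂ => F (Function.update b j t) / c) (b j) I = fderiv ℝ (fun t : ℂ => F (Function.update b j t)) (b j) I / c
    rw [h1, div_eq_inv_mul]
    rfl
  refine ⟨hx, ?_⟩
  show (b j).re * dxi j (fun b => F b / c) b + (b j).im * dyi j (fun b => F b / c) b = ((b j).re * dxi j F b + (b j).im * dyi j F b) / c
  rw [hx, hy]
  ring

omit [DecidableEq ι] in
private theorem com_one {F : (ι → ℂ) → ℝ} (h : ContDiffOn ℝ (1 : ℕ) F (Hr ι)) : ContDiffOn ℝ 1 F (Hr ι) := by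
  exact_mod_cast h

private theorem com_avi {ν κ : ℝ → ℝ} {R C Λ : ℝ} (h : KW.KPair ν κ R C Λ) (i j : ι) {F : (ι → ℂ) → ℝ} (hF : ContDiffOn ℝ 1 F (Hr ι)) {b : ι → ℂ}
    (hb : b ∈ Hr ι) : dxi j (avi κ i F) b = avi κ i (dxi j F) b ∧ L0i j (avi κ i F) b = avi κ i (L0i j F) b := by
  have hk := KW.gker_kn h.profK
  have hF' : ContDiffOn ℝ (1 : ℕ) F (Hr ι) := by exact_mod_cast hF
  have hP := hasPart_of_contDiffOn (com_one (cvi_contDiffOn hk i 1 hF')) j
  have hd := (hP.2.2 b hb).differentiableAt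
  obtain ⟨h1, h2⟩ := com_dx_div j (cvi (KW.kn κ) i F) (∫ w, KW.kn κ w) b hd
  constructor
  · show dxi j (fun b => cvi (KW.kn κ) i F b / ∫ w, KW.kn κ w) b = cvi (KW.kn κ) i (dxi j F) b / ∫ w, KW.kn κ w
    rw [h1, dxi_cvi hk i j hF hb]
  · show L0i j (fun b => cvi (KW.kn κ) i F b / ∫ w, KW.kn κ w) b = cvi (KW.kn κ) i (L0i j F) b / ∫ w, KW.kn κ w
    rw [h2, L0i_cvi hk i j hF hb]

theorem dxi_avl {ν κ : ℝ → ℝ} {R C Λ : ℝ} (h : KW.KPair ν κ R C Λ) (l : List ι) (j : ι) {F : (ι → ℂ) → ℝ} (hF : ContDiffOn ℝ 1 F (Hr ι)) {b : ι → ℂ}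
    (hb : b ∈ Hr ι) : dxi j (avl κ l F) b = avl κ l (dxi j F) b := by
  have hF' : ContDiffOn ℝ (1 : ℕ) F (Hr ι) := by exact_mod_cast hF
  induction l generalizing b with
  | nil => rfl
  | cons i l ih =>
    rw [avl_cons, avl_cons, (com_avi h i j (com_one (avl_contDiffOn h l 1 hF')) hb).1]
    show cvi (KW.kn κ) i (dxi j (avl κ l F)) b / _ = cvi (KW.kn κ) i (avl κ l (dxi j F)) b / _
    rw [cvi_congr (KW.gker_kn h.profK) i (fun b hb => ih hb) hb]

theorem L0i_avl {ν κ : ℝ → ℝ} {R C Λ : ℝ} (h : KW.KPair ν κ R C Λ) (l : List ι) (j : ι) {F : (ι → ℂ) → ℝ} (hF : ContDiffOn ℝ 1 F (Hr ι)) {b : ι → ℂ}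
    (hb : b ∈ Hr ι) : L0i j (avl κ l F) b = avl κ l (L0i j F) b := by
  have hF' : ContDiffOn ℝ (1 : ℕ) F (Hr ι) := by exact_mod_cast hF
  induction l generalizing b with
  | nil => rfl
  | cons i l ih =>
    rw [avl_cons, avl_cons, (com_avi h i j (com_one (avl_contDiffOn h l 1 hF')) hb).2]
    show cvi (KW.kn κ) i (L0i j (avl κ l F)) b / _ = cvi (KW.kn κ) i (avl κ l (L0i j F)) b / _
    rw [cvi_congr (KW.gker_kn h.profK) i (fun b hb => ih hb) hb]

end TRed
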