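import Pool.Agent.Lib.MP_464db4_gt.TI.ParA

/-!
# TI-LipA: averages are Lipschitz in each coordinate, uniformly in the other coordinates

* `avi_lip`: `KW.PPf_lip h hz` (TH/PoB1.lean) is stated for the bounded continuous functions `φ : HP →ᵇ ℝ` with `‖φ‖ ≤ 1` and `exb φ`; apply it to the slice `t ↦ F (update b i t)` restricted to `HP` (`BoundedContinuousFunction.ofNormedAddCommGroup`,
  continuity from `slice_contOn`, norm `≤ 1`), and `KW.cv_congr` (`exb_of_mem`) to pass from `exb φ` to the slice; `slice_avi`.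
* `avl_lip`: induction on the list: `i` the head: `avi_lip` applied to `avl κ l F` (`avl_contOn`, `|avl κ l F| ≤ 1` by induction with `KW.PPf_abs_le`); otherwise the head is `k ≠ i`, `i ∈ l`: `avi κ k (avl κ l F) (update b i t) =
  PPf κ (fun s => avl κ l F (update (update b k s) i t)) (b k)` (`Function.update_comm`), so the difference of the values at `t`, `z₀` is the `PPf` of a function bounded by `L ‖t - z₀‖` (`KW.cv_sub`, `KW.PPf_abs_le`).
* `avl_equi`: `L = ∑ L_j`, `δ` the minimum over the coordinates (`Finset.univ.inf'`, or finite choice by induction); for `b` in the ball and `s : Finset ι` let `b_s = fun k => if k ∈ s then b k else b₀ k`; induction on `s`: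
  `|avl κ l F b_s - avl κ l F b₀| ≤ (∑ j ∈ s, L j) ‖b - b₀‖`, one coordinate at a time with `avl_lip`.
-/

namespace TRed

open Complex Matrix MeasureTheory YT Set Filter Topology
open scoped ContDiff ComplexConjugate

variable {ι : Type} [Fintype ι] [DecidableEq ι] {G : Type} [Group G] {pr : ι → G →* Matrix.SpecialLinearGroup (Fin 2) ℝ}

omit [Fintype ι] in
private theorem LipA_slice {F : (ι → ℂ) → ℝ} (h1 : ∀ b ∈ Hr ι, |F b| ≤ 1) {b : ι → ℂ} (hb : b ∈ Hr ι) (i : ι) :
    ∀ w ∈ KW.hp, |F (Function.update b i w)| ≤ 1 := fun w hw => h1 _ (update_mem hb i hw)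

theorem avi_lip {ν κ : ℝ → ℝ} {R C Λ : ℝ} (h : KW.KPair ν κ R C Λ) {z₀ : ℂ} (hz : z₀ ∈ KW.hp) :
    ∃ L : ℝ, 0 < L ∧ ∃ δ : ℝ, 0 < δ ∧ Metric.ball z₀ δ ⊆ KW.hp ∧ ∀ (i : ι) (F : (ι → ℂ) → ℝ), ContinuousOn F (Hr ι) → (∀ b ∈ Hr ι, |F b| ≤ 1) →
      ∀ b ∈ Hr ι, ∀ t ∈ Metric.ball z₀ δ, |avi κ i F (Function.update b i t) - avi κ i F (Function.update b i z₀)| ≤ L * ‖t - z₀‖ := by
  obtain ⟨L, hL, δ, hδ, hsub, hlip⟩ := KW.PPf_lip h hz
  refine ⟨L, hL, δ, hδ, hsub, fun i F hF h1 b hb t ht => ?_⟩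
  have hc := slice_contOn hF hb i
  have hm := LipA_slice h1 hb i
  let φ : BoundedContinuousFunction KW.HP ℝ := BoundedContinuousFunction.ofNormedAddCommGroup
    (fun z : KW.HP => F (Function.update b i z.1)) (continuousOn_iff_continuous_domRestrict.1 hc) 1
    (fun z => by rw [Real.norm_eq_abs]; exact hm z.1 z.2)
  have hφ : ‖φ‖ ≤ 1 := BoundedContinuousFunction.norm_ofNormedAddCommGroup_le _ zero_le_one _
  have hex : ∀ w ∈ KW.hp, KW.exb φ w = F (Function.update b i w) := fun w hw => KW.exb_of_mem _ hw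
  have hP : ∀ z ∈ KW.hp, avi κ i F (Function.update b i z) = KW.PPf κ (KW.exb φ) z := by
    intro z hz
    have h2 := congrFun (slice_avi κ i F b) z
    rw [h2]
    unfold KW.PPf
    rw [KW.cv_congr (KW.gker_kn h.profK) hex hz]
  rw [hP t (hsub ht), hP z₀ hz]
  exact hlip φ hφ t ht

private theorem LipA_abs {ν κ : ℝ → ℝ} {R C Λ : ℝ} (h : KW.KPair ν κ R C Λ) (l : List ι) {F : (ι → ℂ) → ℝ}
    (hF : ContinuousOn F (Hr ι)) (h1 : ∀ b ∈ Hr ι, |F b| ≤ 1) : ∀ b ∈ Hr ι, |avl κ l F b| ≤ 1 := by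
  induction l with
  | nil => exact h1
  | cons k l ih =>
    intro b hb
    rw [avl_cons, avi_eq]
    exact KW.PPf_abs_le h (slice_contOn (avl_contOn h l hF) hb k) (LipA_slice ih hb k) (hb k)

private theorem LipA_PPf_sub {ν κ : ℝ → ℝ} {R C Λ : ℝ} (h : KW.KPair ν κ R C Λ) {f g : ℂ → ℝ} (hf : ContinuousOn f KW.hp)
    (hg : ContinuousOn g KW.hp) {M : ℝ} (hM : ∀ w ∈ KW.hp, |f w - g w| ≤ M) {z : ℂ} (hz : z ∈ KW.hp) :
    |KW.PPf κ f z - KW.PPf κ g z| ≤ M := by
  have h1 : KW.PPf κ f z - KW.PPf κ g z = KW.PPf κ (fun w => f w - g w) z := by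
    unfold KW.PPf
    rw [← sub_div, KW.cv_sub (KW.gker_kn h.profK) hf hg hz]
  rw [h1]
  exact KW.PPf_abs_le h (hf.sub hg) hM hz

theorem avl_lip {ν κ : ℝ → ℝ} {R C Λ : ℝ} (h : KW.KPair ν κ R C Λ) {z₀ : ℂ} (hz : z₀ ∈ KW.hp) :
    ∃ L : ℝ, 0 < L ∧ ∃ δ : ℝ, 0 < δ ∧ Metric.ball z₀ δ ⊆ KW.hp ∧ ∀ (l : List ι) (i : ι), i ∈ l → ∀ F : (ι → ℂ) → ℝ, ContinuousOn F (Hr ι) →
      (∀ b ∈ Hr ι, |F b| ≤ 1) → ∀ b ∈ Hr ι, ∀ t ∈ Metric.ball z₀ δ,
        |avl κ l F (Function.update b i t) - avl κ l F (Function.update b i z₀)| ≤ L * ‖t - z₀‖ := by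
  obtain ⟨L, hL, δ, hδ, hsub, hlip⟩ := avi_lip (ι := ι) h hz
  refine ⟨L, hL, δ, hδ, hsub, fun l i hi F hF h1 => ?_⟩
  induction l with
  | nil => exact absurd hi List.not_mem_nil
  | cons k l ih =>
    intro b hb t ht
    have hc := avl_contOn h l hF
    rw [avl_cons]
    by_cases hk : k = i
    · rw [hk]
      exact hlip i (avl κ l F) hc (LipA_abs h l hF h1) b hb t ht
    · have hil : i ∈ l := by
        rcases List.mem_cons.1 hi with h2 | h2
        · exact absurd h2.symm hk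
        · exact h2
      have ih' := ih hil
      rw [avi_eq, avi_eq, Function.update_of_ne hk, Function.update_of_ne hk]
      refine LipA_PPf_sub h (slice_contOn hc (update_mem hb i (hsub ht)) k) (slice_contOn hc (update_mem hb i hz) k) ?_ (hb k)
      intro w hw
      rw [Function.update_comm (Ne.symm hk), Function.update_comm (Ne.symm hk)]
      exact ih' (Function.update b k w) (update_mem hb k hw) t ht

theorem avl_equi {ν κ : ℝ → ℝ} {R C Λ : ℝ} (h : KW.KPair ν κ R C Λ) {l : List ι} (hl : ∀ j, j ∈ l) {b₀ : ι → ℂ} (hb : b₀ ∈ Hr ι) :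
    ∃ L : ℝ, 0 < L ∧ ∃ δ : ℝ, 0 < δ ∧ Metric.ball b₀ δ ⊆ Hr ι ∧ ∀ F : (ι → ℂ) → ℝ, ContinuousOn F (Hr ι) → (∀ b ∈ Hr ι, |F b| ≤ 1) →
      ∀ b ∈ Metric.ball b₀ δ, |avl κ l F b - avl κ l F b₀| ≤ L * ‖b - b₀‖ := by
  have hz : ∀ j, b₀ j ∈ KW.hp := fun j => hb j
  choose Ls hLs δs hδs hsub hlip using fun j => avl_lip (ι := ι) h (hz j)
  have hmin : ∃ δ : ℝ, 0 < δ ∧ ∀ j, δ ≤ δs j := by
    rcases isEmpty_or_nonempty ι with he | hne
    · exact ⟨1, one_pos, fun j => he.elim j⟩
    · obtain ⟨i₀, hi₀⟩ := Finite.exists_min δs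
      exact ⟨δs i₀, hδs i₀, hi₀⟩
  obtain ⟨δ, hδ, hle⟩ := hmin
  have hcoord : ∀ b ∈ Metric.ball b₀ δ, ∀ j, b j ∈ Metric.ball (b₀ j) (δs j) := by
    intro b hbb j
    rw [Metric.mem_ball] at hbb ⊢
    exact lt_of_le_of_lt (dist_le_pi_dist b b₀ j) (lt_of_lt_of_le hbb (hle j))
  refine ⟨(∑ j, Ls j) + 1, add_pos_of_nonneg_of_pos (Finset.sum_nonneg fun j _ => (hLs j).le) one_pos, δ, hδ, ?_, ?_⟩
  · intro b hbb j
    exact hsub j (hcoord b hbb j)
  · intro F hF h1 b hbb
    have key : ∀ s : Finset ι, |avl κ l F (fun k => if k ∈ s then b k else b₀ k) - avl κ l F b₀| ≤ (∑ j ∈ s, Ls j) * ‖b - b₀‖ := by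
      intro s
      induction s using Finset.induction_on with
      | empty => simp
      | insert j s hj ih =>
        have hs : (fun k => if k ∈ s then b k else b₀ k) ∈ Hr ι := by
          intro k
          by_cases hk : k ∈ s
          · simp only [hk, if_true]
            exact hsub k (hcoord b hbb k)
          · simp only [hk, if_false]
            exact hb k
        have e1 : (fun k => if k ∈ insert j s then b k else b₀ k) =
            Function.update (fun k => if k ∈ s then b k else b₀ k) j (b j) := by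
          funext k
          by_cases hk : k = j
          · subst hk
            simp
          · rw [Function.update_of_ne hk]
            simp [Finset.mem_insert, hk]
        have e2 : (fun k => if k ∈ s then b k else b₀ k) =
            Function.update (fun k => if k ∈ s then b k else b₀ k) j (b₀ j) := by
          have h2 : (fun k => if k ∈ s then b k else b₀ k) j = b₀ j := by simp [hj]
          conv_rhs => rw [← h2]
          rw [Function.update_eq_self]
        have h3 := hlip j l j (hl j) F hF h1 _ hs (b j) (hcoord b hbb j)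
        rw [← e1, ← e2] at h3
        have h4 : ‖b j - b₀ j‖ ≤ ‖b - b₀‖ := norm_le_pi_norm (b - b₀) j
        have h5 : Ls j * ‖b j - b₀ j‖ ≤ Ls j * ‖b - b₀‖ := mul_le_mul_of_nonneg_left h4 (hLs j).le
        rw [Finset.sum_insert hj, add_mul]
        have h6 := abs_add_le (avl κ l F (fun k => if k ∈ insert j s then b k else b₀ k) - avl κ l F (fun k => if k ∈ s then b k else b₀ k))
          (avl κ l F (fun k => if k ∈ s then b k else b₀ k) - avl κ l F b₀)
        rw [sub_add_sub_cancel] at h6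
        linarith
    have h7 := key Finset.univ
    have h8 : (fun k => if k ∈ (Finset.univ : Finset ι) then b k else b₀ k) = b := by
      funext k
      simp
    rw [h8] at h7
    have h9 : 0 ≤ ‖b - b₀‖ := norm_nonneg _
    rw [add_mul, one_mul]
    linarith

end TRed
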