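import Pool.Agent.Lib.MP_464db4_gt.TI.Sp
import Pool.Agent.Lib.MP_464db4_gt.TI.LipA

/-!
# TI-Cpt: the operator `AY` is compact

Copy TH/PoB2.lean (`TX_compact`) line by line: `hB.cocompact` gives a compact `K ⊆ Hr ι` with `∀ b ∈ Hr ι, ∃ γ, mobr pr γ b ∈ K`; the restriction `YR pr → (K →ᵇ ℝ)` is an isometry (`YR.mem`), Arzela-Ascoli with `Metric.closedBall 0 2`
(`AY_apply`, `avl_abs_le`, `exr_abs_le`, `exr_contOn`) and equicontinuity from `avl_equi h hl` (TI/LipA.lean) instead of `PPf_lip`.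
-/

namespace TRed

open Complex Matrix MeasureTheory YT Set Filter Topology
open scoped ContDiff ComplexConjugate BoundedContinuousFunction

variable {ι : Type} [Fintype ι] [DecidableEq ι] {G : Type} [Group G] {pr : ι → G →* Matrix.SpecialLinearGroup (Fin 2) ℝ} {ν κ : ℝ → ℝ} {R C Λ : ℝ}
/-- the inclusion -/
private def Cpt_inc {K : Set (ι → ℂ)} (hKh : K ⊆ Hr ι) : C(K, HRt ι) :=
  ⟨fun x => ⟨x.1, hKh x.2⟩, Continuous.subtype_mk continuous_subtype_val _⟩

/-- the restriction -/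
private noncomputable def Cpt_res (pr : ι → G →* Matrix.SpecialLinearGroup (Fin 2) ℝ) {K : Set (ι → ℂ)} (hKh : K ⊆ Hr ι)
    (φ : YR pr) : K →ᵇ ℝ :=
  φ.val.compContinuous (Cpt_inc hKh)

private theorem Cpt_res_apply {K : Set (ι → ℂ)} (hKh : K ⊆ Hr ι) (φ : YR pr) (x : K) :
    Cpt_res pr hKh φ x = φ.val ⟨x.1, hKh x.2⟩ := rfl

private theorem Cpt_iso {K : Set (ι → ℂ)} (hKh : K ⊆ Hr ι) (hcov : ∀ b ∈ Hr ι, ∃ γ, mobr pr γ b ∈ K) :
    Isometry (Cpt_res pr hKh) := by
  refine Isometry.of_dist_eq fun φ ψ => le_antisymm ?_ ?_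
  · refine (BoundedContinuousFunction.dist_le (dist_nonneg (x := φ) (y := ψ))).2 fun x => ?_
    rw [← YR.dist_val φ ψ]
    exact BoundedContinuousFunction.dist_coe_le_dist (f := φ.val) (g := ψ.val) ⟨x.1, hKh x.2⟩
  · rw [← YR.dist_val φ ψ]
    refine (BoundedContinuousFunction.dist_le (dist_nonneg (x := Cpt_res pr hKh φ) (y := Cpt_res pr hKh ψ))).2 fun z => ?_
    obtain ⟨γ, hm⟩ := hcov z.1 z.2
    have h1 : φ.val z = Cpt_res pr hKh φ ⟨mobr pr γ z, hm⟩ := (φ.mem γ z).symm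
    have h2 : ψ.val z = Cpt_res pr hKh ψ ⟨mobr pr γ z, hm⟩ := (ψ.mem γ z).symm
    rw [h1, h2]
    exact BoundedContinuousFunction.dist_coe_le_dist _

theorem AY_compact (hB : CompactBase (Hr ι) (mobr pr)) (h : KW.KPair ν κ R C Λ) {l : List ι} (hl : ∀ j, j ∈ l) (p : HRt ι) :
    IsCompactOperator (AY h l pr p) := by
  obtain ⟨K, hKh, hK, hcov⟩ := hB.cocompact
  have : CompactSpace K := isCompact_iff_compactSpace.1 hK
  have hiso := Cpt_iso (pr := pr) hKh hcov
  have hcl := hiso.isClosedEmbedding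
  set A : Set (K →ᵇ ℝ) := (fun φ => Cpt_res pr hKh (AY h l pr p φ)) '' Metric.closedBall 0 1 with hA
  have hval : ∀ φ : YR pr, φ ∈ Metric.closedBall (0 : YR pr) 1 → ‖φ.val‖ ≤ 1 := by
    intro φ hφ
    rw [Metric.mem_closedBall, dist_zero_right] at hφ
    rw [YR.norm_val]
    exact hφ
  have hcomp : IsCompact (closure A) := by
    refine BoundedContinuousFunction.arzela_ascoli (Metric.closedBall (0 : ℝ) 2) (isCompact_closedBall _ _) A ?_ ?_
    · rintro f x ⟨φ, hφ, rfl⟩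
      have h1 := hval φ hφ
      show Cpt_res pr hKh (AY h l pr p φ) x ∈ Metric.closedBall (0 : ℝ) 2
      rw [Cpt_res_apply, AY_apply, Metric.mem_closedBall, dist_zero_right, Real.norm_eq_abs]
      have h2 : |avl κ l (exr φ.val) x.1| ≤ 1 :=
        avl_abs_le h l (exr_contOn φ.val) (fun w hw => (exr_abs_le φ.val w hw).trans h1) (hKh x.2)
      have h3 : |φ.val p| ≤ 1 := (φ.val.norm_coe_le_norm p).trans h1
      have h4 := abs_sub (avl κ l (exr φ.val) x.1) (φ.val p)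
      show |avl κ l (exr φ.val) x.1 - φ.val p| ≤ 2
      linarith
    · intro x0
      rw [Metric.equicontinuousAt_iff]
      intro ε hε
      obtain ⟨L, hL, δ, hδ, hball, hlip⟩ := avl_equi h hl (hKh x0.2)
      refine ⟨min δ (ε / L), lt_min hδ (by positivity), ?_⟩
      rintro x hx ⟨f, φ, hφ, rfl⟩
      have h1 := hval φ hφ
      have hx1 : dist x.1 x0.1 < δ := lt_of_lt_of_le hx (min_le_left _ _)
      have hx2 : dist x.1 x0.1 < ε / L := lt_of_lt_of_le hx (min_le_right _ _)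
      have h2 := hlip (exr φ.val) (exr_contOn φ.val) (fun w hw => (exr_abs_le φ.val w hw).trans h1) x.1 hx1
      show dist (Cpt_res pr hKh (AY h l pr p φ) x0) (Cpt_res pr hKh (AY h l pr p φ) x) < ε
      rw [Cpt_res_apply, Cpt_res_apply, AY_apply, AY_apply, dist_comm, Real.dist_eq]
      have h3 : avl κ l (exr φ.val) x.1 - φ.val p - (avl κ l (exr φ.val) x0.1 - φ.val p) =
          avl κ l (exr φ.val) x.1 - avl κ l (exr φ.val) x0.1 := by ring
      show |avl κ l (exr φ.val) x.1 - φ.val p - (avl κ l (exr φ.val) x0.1 - φ.val p)| < ε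
      rw [h3]
      refine lt_of_le_of_lt h2 ?_
      rw [← dist_eq_norm]
      rw [lt_div_iff₀ hL] at hx2
      linarith
  refine ⟨Cpt_res pr hKh ⁻¹' closure A, hcl.isCompact_preimage hcomp, ?_⟩
  refine Filter.mem_of_superset (Metric.closedBall_mem_nhds (0 : YR pr) one_pos) ?_
  intro φ hφ
  exact subset_closure ⟨φ, hφ, rfl⟩

end TRed
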