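import Pool.Agent.Lib.MP_464db4_gt.TH.FacB
import Pool.Agent.Lib.MP_464db4_gt.TH.PoB1
import Pool.Agent.Lib.MP_464db4_gt.TH.SmpC

/-!
# TI-Defs: averages of functions on a product of upper half planes in one of the coordinates
-/

namespace TRed

open Complex Matrix MeasureTheory YT Set
open scoped ContDiff ComplexConjugate

/-- Convolution with the kernel `n` in the coordinate `i`. -/
noncomputable def cvi {ι : Type} [DecidableEq ι] (n : ℂ → ℝ) (i : ι) (F : (ι → ℂ) → ℝ) (b : ι → ℂ) : ℝ :=
  KW.cv n (fun t => F (Function.update b i t)) (b i)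

/-- The average in the coordinate `i`. -/
noncomputable def avi {ι : Type} [DecidableEq ι] (κ : ℝ → ℝ) (i : ι) (F : (ι → ℂ) → ℝ) (b : ι → ℂ) : ℝ :=
  cvi (KW.kn κ) i F b / ∫ w, KW.kn κ w

/-- The operator `S_i`. -/
noncomputable def svi {ι : Type} [DecidableEq ι] (ν κ : ℝ → ℝ) (i : ι) (F : (ι → ℂ) → ℝ) (b : ι → ℂ) : ℝ :=
  cvi (KW.kn ν) i F b / ∫ w, KW.kn κ w

/-- The average in the coordinates of a list. -/
noncomputable def avl {ι : Type} [DecidableEq ι] (κ : ℝ → ℝ) : List ι → ((ι → ℂ) → ℝ) → ((ι → ℂ) → ℝ)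
  | [], F => F
  | i :: l, F => avi κ i (avl κ l F)

/-- The derivative `∂/∂x_i`. -/
noncomputable def dxi {ι : Type} [DecidableEq ι] (i : ι) (F : (ι → ℂ) → ℝ) (b : ι → ℂ) : ℝ :=
  KW.dx (fun t => F (Function.update b i t)) (b i)

/-- The derivative `∂/∂y_i`. -/
noncomputable def dyi {ι : Type} [DecidableEq ι] (i : ι) (F : (ι → ℂ) → ℝ) (b : ι → ℂ) : ℝ :=
  KW.dy (fun t => F (Function.update b i t)) (b i)

/-- The derivative `x_i ∂/∂x_i + y_i ∂/∂y_i`. -/
noncomputable def L0i {ι : Type} [DecidableEq ι] (i : ι) (F : (ι → ℂ) → ℝ) (b : ι → ℂ) : ℝ :=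
  KW.L0 (fun t => F (Function.update b i t)) (b i)

/-- The hyperbolic Laplacian in the coordinate `i`. -/
noncomputable def lapi {ι : Type} [DecidableEq ι] (i : ι) (F : (ι → ℂ) → ℝ) (b : ι → ℂ) : ℝ :=
  KW.lapH (fun t => F (Function.update b i t)) (b i)

/-- `F` has the derivatives `P`, `Q` (continuous functions) in the directions `x_i`, `y_i`. -/
def HasPart {ι : Type} [DecidableEq ι] (i : ι) (F P Q : (ι → ℂ) → ℝ) : Prop :=
  ContinuousOn P (Hr ι) ∧ ContinuousOn Q (Hr ι) ∧
    ∀ b ∈ Hr ι, HasFDerivAt (fun t : ℂ => F (Function.update b i t)) (P b • reCLM + Q b • imCLM) (b i)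

/-- `F` is invariant under the group. -/
def InvG {ι G : Type} [Group G] (pr : ι → G →* Matrix.SpecialLinearGroup (Fin 2) ℝ) (F : (ι → ℂ) → ℝ) : Prop :=
  ∀ γ : G, ∀ b ∈ Hr ι, F (mobr pr γ b) = F b

variable {ι : Type} [DecidableEq ι]

theorem avl_nil (κ : ℝ → ℝ) (F : (ι → ℂ) → ℝ) : avl κ [] F = F := rfl

theorem avl_cons (κ : ℝ → ℝ) (i : ι) (l : List ι) (F : (ι → ℂ) → ℝ) : avl κ (i :: l) F = avi κ i (avl κ l F) := rfl

theorem cvi_def (n : ℂ → ℝ) (i : ι) (F : (ι → ℂ) → ℝ) (b : ι → ℂ) :
    cvi n i F b = ∫ w, F (Function.update b i (KW.aff (b i) w)) * n w := rfl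

theorem avi_eq (κ : ℝ → ℝ) (i : ι) (F : (ι → ℂ) → ℝ) (b : ι → ℂ) :
    avi κ i F b = KW.PPf κ (fun t => F (Function.update b i t)) (b i) := rfl

/-- The slice of a function in the direction `i` at `update b i t` is the slice at `b`. -/
theorem slice_update (F : (ι → ℂ) → ℝ) (i : ι) (b : ι → ℂ) (t : ℂ) :
    (fun s => F (Function.update (Function.update b i t) i s)) = fun s => F (Function.update b i s) := by
  funext s
  rw [Function.update_idem]

theorem slice_cvi (n : ℂ → ℝ) (i : ι) (F : (ι → ℂ) → ℝ) (b : ι → ℂ) :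
    (fun t => cvi n i F (Function.update b i t)) = KW.cv n (fun t => F (Function.update b i t)) := by
  funext t
  unfold cvi
  rw [slice_update, Function.update_self]

theorem slice_avi (κ : ℝ → ℝ) (i : ι) (F : (ι → ℂ) → ℝ) (b : ι → ℂ) :
    (fun t => avi κ i F (Function.update b i t)) = KW.PPf κ (fun t => F (Function.update b i t)) := by
  funext t
  rw [avi_eq, slice_update, Function.update_self]

theorem slice_dxi (i : ι) (F : (ι → ℂ) → ℝ) (b : ι → ℂ) :
    (fun t => dxi i F (Function.update b i t)) = KW.dx (fun t => F (Function.update b i t)) := by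
  funext t
  unfold dxi
  rw [slice_update, Function.update_self]

theorem slice_dyi (i : ι) (F : (ι → ℂ) → ℝ) (b : ι → ℂ) :
    (fun t => dyi i F (Function.update b i t)) = KW.dy (fun t => F (Function.update b i t)) := by
  funext t
  unfold dyi
  rw [slice_update, Function.update_self]

theorem slice_L0i (i : ι) (F : (ι → ℂ) → ℝ) (b : ι → ℂ) :
    (fun t => L0i i F (Function.update b i t)) = KW.L0 (fun t => F (Function.update b i t)) := by
  funext t
  unfold L0i
  rw [slice_update, Function.update_self]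

theorem slice_lapi (i : ι) (F : (ι → ℂ) → ℝ) (b : ι → ℂ) :
    (fun t => lapi i F (Function.update b i t)) = KW.lapH (fun t => F (Function.update b i t)) := by
  funext t
  unfold lapi
  rw [slice_update, Function.update_self]

/-- Slices of continuous functions are continuous. -/
theorem slice_contOn {F : (ι → ℂ) → ℝ} (hF : ContinuousOn F (Hr ι)) {b : ι → ℂ} (hb : b ∈ Hr ι) (i : ι) :
    ContinuousOn (fun t => F (Function.update b i t)) KW.hp := by
  have h : Continuous fun t : ℂ => Function.update b i t := continuous_const.update i continuous_id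
  exact hF.comp h.continuousOn fun t ht => update_mem hb i ht

/-- Slices of `C^m` functions are `C^m`. -/
theorem slice_contDiffOn [Fintype ι] {m : WithTop ℕ∞} {F : (ι → ℂ) → ℝ} (hF : ContDiffOn ℝ m F (Hr ι)) {b : ι → ℂ} (hb : b ∈ Hr ι) (i : ι) :
    ContDiffOn ℝ m (fun t => F (Function.update b i t)) KW.hp := by
  have h : ContDiff ℝ m (fun t : ℂ => Function.update b i t) := contDiff_update m b i
  exact hF.comp h.contDiffOn fun t ht => update_mem hb i ht

end TRed
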