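import Pool.Agent.Lib.MP_464db4_gt.TH.FacB

/-!
# TI-Den: the density condition

`DensePairs pr`: for `i ≠ j` the closure of the set of the pairs `(pr_i γ, pr_j γ)` contains `SL(2,ℝ) × 1` or `1 × SL(2,ℝ)`.
A function `h` with `h (mobr pr γ b) * mj (pr i γ) (b i) * conj (mj (pr j γ) (b j)) = h b` which only depends on `b i` and `b j` vanishes: the identity holds for all
pairs in the closure, and the half turn around `b i` has derivative `-1` there.
-/

namespace TRed

open Complex Matrix MeasureTheory YT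
open scoped ContDiff ComplexConjugate ComplexOrder

/-- For `i ≠ j` the closure of `{(pr_i γ, pr_j γ)}` contains `SL(2,ℝ) × 1` or `1 × SL(2,ℝ)`. -/
def DensePairs {ι G : Type} [Group G] (pr : ι → G →* Matrix.SpecialLinearGroup (Fin 2) ℝ) : Prop :=
  ∀ i j, i ≠ j →
    (∀ δ : Matrix.SpecialLinearGroup (Fin 2) ℝ, ((δ, 1) : Matrix.SpecialLinearGroup (Fin 2) ℝ × Matrix.SpecialLinearGroup (Fin 2) ℝ) ∈
      closure (Set.range fun γ : G => (pr i γ, pr j γ))) ∨
    (∀ δ : Matrix.SpecialLinearGroup (Fin 2) ℝ, ((1, δ) : Matrix.SpecialLinearGroup (Fin 2) ℝ × Matrix.SpecialLinearGroup (Fin 2) ℝ) ∈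
      closure (Set.range fun γ : G => (pr i γ, pr j γ)))

variable {ι : Type} [Fintype ι] [DecidableEq ι] {G : Type} [Group G] {pr : ι → G →* Matrix.SpecialLinearGroup (Fin 2) ℝ} {b : ι → ℂ}

/-- The half turn around `z`. -/
private theorem Den_turn {z : ℂ} (hz : 0 < z.im) :
    ∃ s : Matrix.SpecialLinearGroup (Fin 2) ℝ, mob s (fun _ => z) = (fun _ => z) ∧ mj s (fun _ => z) = -1 := by
  have hy : z.im ≠ 0 := hz.ne'
  obtain ⟨s, hs⟩ : ∃ s : Matrix.SpecialLinearGroup (Fin 2) ℝ,
      (s : Matrix (Fin 2) (Fin 2) ℝ) = !![z.re / z.im, -(z.re ^ 2 + z.im ^ 2) / z.im; 1 / z.im, -z.re / z.im] := by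
    refine ⟨⟨!![z.re / z.im, -(z.re ^ 2 + z.im ^ 2) / z.im; 1 / z.im, -z.re / z.im], ?_⟩, rfl⟩
    rw [Matrix.det_fin_two_of]
    field_simp
    ring
  have h00 : s 0 0 = z.re / z.im := congrFun (congrFun hs 0) 0
  have h01 : s 0 1 = -(z.re ^ 2 + z.im ^ 2) / z.im := congrFun (congrFun hs 0) 1
  have h10 : s 1 0 = 1 / z.im := congrFun (congrFun hs 1) 0
  have h11 : s 1 1 = -z.re / z.im := congrFun (congrFun hs 1) 1
  have hyC : (z.im : ℂ) ≠ 0 := by exact_mod_cast hy
  have hzz : z = z.re + z.im * I := (Complex.re_add_im z).symm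
  have hden : ((s 1 0 : ℝ) : ℂ) * z + ((s 1 1 : ℝ) : ℂ) = I := by
    rw [h10, h11]
    push_cast
    field_simp
    linear_combination hzz
  refine ⟨s, ?_, ?_⟩
  · funext _
    show (((s 0 0 : ℝ) : ℂ) * z + ((s 0 1 : ℝ) : ℂ)) / (((s 1 0 : ℝ) : ℂ) * z + ((s 1 1 : ℝ) : ℂ)) = z
    rw [hden, div_eq_iff I_ne_zero, h00, h01]
    push_cast
    field_simp
    have h2 : (z.im : ℂ) ^ 2 * (I ^ 2 + 1) = 0 := by rw [Complex.I_sq]; ring
    linear_combination ((z.re : ℂ) - z.im * I) * hzz - h2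
  · show 1 / (((s 1 0 : ℝ) : ℂ) * z + ((s 1 1 : ℝ) : ℂ)) ^ 2 = -1
    rw [hden, Complex.I_sq]
    norm_num

/-- The point with the coordinates `i` and `j` moved by `s` and `t`. -/
private noncomputable def Den_pt (b : ι → ℂ) (i j : ι) (p : Matrix.SpecialLinearGroup (Fin 2) ℝ × Matrix.SpecialLinearGroup (Fin 2) ℝ) : ι → ℂ :=
  Function.update (Function.update b i (mob p.1 (cmp i b) ())) j (mob p.2 (cmp j b) ())

omit [Fintype ι] in
private theorem Den_mem (hb : b ∈ Hr ι) (i j : ι) (p : Matrix.SpecialLinearGroup (Fin 2) ℝ × Matrix.SpecialLinearGroup (Fin 2) ℝ) :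
    Den_pt b i j p ∈ Hr ι := by
  unfold Den_pt
  exact update_mem (update_mem hb i (mob_mem p.1 (cmp_mem hb i))) j (mob_mem p.2 (cmp_mem hb j))

private theorem Den_entry (k l : Fin 2) : Continuous fun s : Matrix.SpecialLinearGroup (Fin 2) ℝ => ((s k l : ℝ) : ℂ) := by
  have h : Continuous fun s : Matrix.SpecialLinearGroup (Fin 2) ℝ => (s : Matrix (Fin 2) (Fin 2) ℝ) := continuous_subtype_val
  exact Complex.continuous_ofReal.comp ((continuous_apply l).comp ((continuous_apply k).comp h))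

private theorem Den_mobc {x : Unit → ℂ} (hx : x ∈ halfPlane) : Continuous fun s : Matrix.SpecialLinearGroup (Fin 2) ℝ => mob s x () := by
  show Continuous fun s : Matrix.SpecialLinearGroup (Fin 2) ℝ =>
    (((s 0 0 : ℝ) : ℂ) * x () + ((s 0 1 : ℝ) : ℂ)) / (((s 1 0 : ℝ) : ℂ) * x () + ((s 1 1 : ℝ) : ℂ))
  exact (((Den_entry 0 0).mul continuous_const).add (Den_entry 0 1)).div (((Den_entry 1 0).mul continuous_const).add (Den_entry 1 1))
    fun s => denom_ne s hx

private theorem Den_mjc {x : Unit → ℂ} (hx : x ∈ halfPlane) : Continuous fun s : Matrix.SpecialLinearGroup (Fin 2) ℝ => mj s x := by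
  show Continuous fun s : Matrix.SpecialLinearGroup (Fin 2) ℝ => 1 / (((s 1 0 : ℝ) : ℂ) * x () + ((s 1 1 : ℝ) : ℂ)) ^ 2
  exact continuous_const.div ((((Den_entry 1 0).mul continuous_const).add (Den_entry 1 1)).pow 2)
    fun s => pow_ne_zero 2 (denom_ne s hx)

theorem den_zero (hD : DensePairs pr) {h : (ι → ℂ) → ℂ} {i j : ι} (hij : i ≠ j) (hc : ContinuousOn h (Hr ι))
    (hinv : ∀ γ : G, ∀ b ∈ Hr ι, h (mobr pr γ b) * mj (pr i γ) (cmp i b) * conj (mj (pr j γ) (cmp j b)) = h b)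
    (hdep : ∀ b ∈ Hr ι, ∀ b' ∈ Hr ι, b i = b' i → b j = b' j → h b = h b') (hb : b ∈ Hr ι) : h b = 0 := by
  obtain ⟨Φ, hΦ⟩ : ∃ Φ : Matrix.SpecialLinearGroup (Fin 2) ℝ × Matrix.SpecialLinearGroup (Fin 2) ℝ → ℂ,
      Φ = fun p => h (Den_pt b i j p) * mj p.1 (cmp i b) * conj (mj p.2 (cmp j b)) := ⟨_, rfl⟩
  have hptc : Continuous fun p => Den_pt b i j p := by
    unfold Den_pt
    exact (continuous_const.update i ((Den_mobc (cmp_mem hb i)).comp continuous_fst)).update j
      ((Den_mobc (cmp_mem hb j)).comp continuous_snd)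
  have hΦc : Continuous Φ := by
    rw [hΦ]
    refine (Continuous.mul ?_ ((Den_mjc (cmp_mem hb i)).comp continuous_fst)).mul
      (Complex.continuous_conj.comp ((Den_mjc (cmp_mem hb j)).comp continuous_snd))
    rw [← continuousOn_univ]
    exact hc.comp hptc.continuousOn fun p _ => Den_mem hb i j p
  have hcl : IsClosed {p | Φ p = h b} := isClosed_eq hΦc continuous_const
  have hsub : closure (Set.range fun γ : G => (pr i γ, pr j γ)) ⊆ {p | Φ p = h b} := by
    apply hcl.closure_subset_iff.2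
    rintro _ ⟨γ, rfl⟩
    show Φ (pr i γ, pr j γ) = h b
    rw [hΦ, ← hinv γ b hb]
    show h (Den_pt b i j (pr i γ, pr j γ)) * _ * _ = _
    have h1 : h (Den_pt b i j (pr i γ, pr j γ)) = h (mobr pr γ b) := by
      refine hdep _ (Den_mem hb i j _) _ (mobr_mem γ hb) ?_ ?_
      · show Function.update (Function.update b i (mob (pr i γ) (cmp i b) ())) j (mob (pr j γ) (cmp j b) ()) i = mobr pr γ b i
        rw [Function.update_of_ne hij, Function.update_self]
        rfl
      · show Function.update (Function.update b i (mob (pr i γ) (cmp i b) ())) j (mob (pr j γ) (cmp j b) ()) j = mobr pr γ b j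
        rw [Function.update_self]
        rfl
    rw [h1]
  have hcmp : ∀ k : ι, cmp k b = fun _ => b k := fun k => rfl
  rcases hD i j hij with h1 | h1
  · obtain ⟨s, hs1, hs2⟩ := Den_turn (hb i)
    have h2 : Φ (s, 1) = h b := hsub (h1 s)
    rw [hΦ] at h2
    have h3 : h (Den_pt b i j (s, 1)) * mj s (cmp i b) * conj (mj 1 (cmp j b)) = h b := h2
    have h4 : Den_pt b i j (s, 1) = b := by
      show Function.update (Function.update b i (mob s (cmp i b) ())) j (mob 1 (cmp j b) ()) = b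
      rw [hcmp i, hs1, mob_one, hcmp j, Function.update_eq_self, Function.update_eq_self]
    rw [h4, hcmp i, hs2, mj_one, map_one] at h3
    linear_combination (-1 / 2 : ℂ) * h3
  · obtain ⟨s, hs1, hs2⟩ := Den_turn (hb j)
    have h2 : Φ (1, s) = h b := hsub (h1 s)
    rw [hΦ] at h2
    have h3 : h (Den_pt b i j (1, s)) * mj 1 (cmp i b) * conj (mj s (cmp j b)) = h b := h2
    have h4 : Den_pt b i j (1, s) = b := by
      show Function.update (Function.update b i (mob 1 (cmp i b) ())) j (mob s (cmp j b) ()) = b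
      rw [hcmp j, hs1, mob_one, hcmp i, Function.update_eq_self, Function.update_eq_self]
    rw [h4, hcmp j, hs2, mj_one, map_neg, map_one] at h3
    linear_combination (-1 / 2 : ℂ) * h3

end TRed
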