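import Pool.Agent.Lib.MP_464db4_gt.TI.Com

/-!
# TI-Gain: the averages in all coordinates gain a derivative; regularity

PROOF of `avl_gain` by induction on `m` (for all `F`).
`m = 0`: for each `j ∈ l` the function `avl κ l F` has continuous derivatives in the direction `j`: `∃ P Q, HasPart j (avl κ l F) P Q`, by induction on the list: `j = i` (head): `hasPart_cvi_w (KW.wker h.profK) i (avl_contOn …)` divided by the
constant (`HasPart` of `F / c`: `HasFDerivAt.div_const`; a private lemma `HasPart j F P Q → HasPart j (fun b => F b / c) (fun b => P b / c) (fun b => Q b / c)`); `j ≠ i`: `HasPart.cvi` and division.  `choose`, `contDiffOn_one_of_hasPart`.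
Step `m → m + 1`, `F` of class `C^(m+1)`: `dxi j (avl κ l F) = avl κ l (dxi j F)` and `L0i j (avl κ l F) = avl κ l (L0i j F)` on `Hr ι` (`dxi_avl`, `L0i_avl`) are `C^(m+1)` by the induction hypothesis (`dxi_contDiffOn`, `L0i_contDiffOn`), so
`dyi j (avl κ l F) b = (b j).im⁻¹ * (L0i j (avl κ l F) b - (b j).re * dxi j (avl κ l F) b)` is `C^(m+1)` too; `contDiffOn_succ_of_part` with `hasPart_of_contDiffOn` (`avl_contDiffOn h l 1`).
`fixed_smooth_r`: `contDiffOn_infty`, induction on `k`: `U = avl κ l U + (g - m)` on `Hr ι`.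
-/

namespace TRed

open Complex Matrix MeasureTheory YT Set Filter Topology
open scoped ContDiff ComplexConjugate

variable {ι : Type} [Fintype ι] [DecidableEq ι] {G : Type} [Group G] {pr : ι → G →* Matrix.SpecialLinearGroup (Fin 2) ℝ}
omit [Fintype ι] in
private theorem Gain_div {j : ι} {F P Q : (ι → ℂ) → ℝ} (h : HasPart j F P Q) (c : ℝ) :
    HasPart j (fun b => F b / c) (fun b => P b / c) (fun b => Q b / c) := by
  refine ⟨h.1.div_const c, h.2.1.div_const c, fun b hb => ?_⟩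
  have h1 := (h.2.2 b hb).const_mul c⁻¹
  have e1 : (fun t : ℂ => F (Function.update b j t) / c) = fun t => c⁻¹ * F (Function.update b j t) := by
    funext t
    rw [div_eq_inv_mul]
  have e2 : (P b / c) • reCLM + (Q b / c) • imCLM = c⁻¹ • (P b • reCLM + Q b • imCLM) := by
    rw [smul_add, smul_smul, smul_smul, div_eq_inv_mul, div_eq_inv_mul]
  rw [e1, e2]
  exact h1

private theorem Gain_part {ν κ : ℝ → ℝ} {R C Λ : ℝ} (h : KW.KPair ν κ R C Λ) {F : (ι → ℂ) → ℝ} (hF : ContinuousOn F (Hr ι)) :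
    ∀ (l : List ι) (j : ι), j ∈ l → ∃ P Q : (ι → ℂ) → ℝ, HasPart j (avl κ l F) P Q
  | [], j, hj => absurd hj (List.not_mem_nil)
  | i :: l, j, hj => by
    by_cases hji : j = i
    · rw [hji]
      exact ⟨_, _, Gain_div (hasPart_cvi_w (KW.wker h.profK) i (avl_contOn h l hF)) (∫ w, KW.kn κ w)⟩
    · have hjl : j ∈ l := by
        rcases List.mem_cons.1 hj with h1 | h1
        · exact absurd h1 hji
        · exact h1
      obtain ⟨P, Q, hPQ⟩ := Gain_part h hF l j hjl
      exact ⟨_, _, Gain_div (HasPart.cvi (KW.gker_kn h.profK) hji (avl_contOn h l hF) hPQ) (∫ w, KW.kn κ w)⟩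

omit [DecidableEq ι] in
private theorem Gain_re {k : ℕ∞ω} (j : ι) : ContDiffOn ℝ k (fun b : ι → ℂ => (b j).re) (Hr ι) :=
  (reCLM.comp (ContinuousLinearMap.proj (R := ℝ) (φ := fun _ : ι => ℂ) j)).contDiff.contDiffOn

omit [DecidableEq ι] in
private theorem Gain_im {k : ℕ∞ω} (j : ι) : ContDiffOn ℝ k (fun b : ι → ℂ => (b j).im) (Hr ι) :=
  (imCLM.comp (ContinuousLinearMap.proj (R := ℝ) (φ := fun _ : ι => ℂ) j)).contDiff.contDiffOn

theorem avl_gain {ν κ : ℝ → ℝ} {R C Λ : ℝ} (h : KW.KPair ν κ R C Λ) {l : List ι} (hl : ∀ j, j ∈ l) (m : ℕ) {F : (ι → ℂ) → ℝ}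
    (hF : ContDiffOn ℝ (m : ℕ) F (Hr ι)) : ContDiffOn ℝ (m + 1 : ℕ) (avl κ l F) (Hr ι) := by
  induction m generalizing F with
  | zero =>
    have h1 := Gain_part h hF.continuousOn l
    choose! P Q hPQ using h1
    have e : ((0 + 1 : ℕ) : ℕ∞ω) = 1 := by simp
    rw [e]
    exact contDiffOn_one_of_hasPart fun j => hPQ j (hl j)
  | succ m ih =>
    have hF1 : ContDiffOn ℝ 1 F (Hr ι) := hF.of_le (by exact_mod_cast Nat.succ_le_succ (Nat.zero_le m))
    have hA1 : ContDiffOn ℝ 1 (avl κ l F) (Hr ι) := by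
      have h1 : ContDiffOn ℝ (1 : ℕ) F (Hr ι) := by exact_mod_cast hF1
      have h2 := avl_contDiffOn h l 1 h1
      exact_mod_cast h2
    have hx : ∀ j, ContDiffOn ℝ (m + 1 : ℕ) (dxi j (avl κ l F)) (Hr ι) := fun j =>
      (ih (dxi_contDiffOn hF j)).congr fun b hb => dxi_avl h l j hF1 hb
    have hL : ∀ j, ContDiffOn ℝ (m + 1 : ℕ) (L0i j (avl κ l F)) (Hr ι) := fun j =>
      (ih (L0i_contDiffOn hF j)).congr fun b hb => L0i_avl h l j hF1 hb
    have hy : ∀ j, ContDiffOn ℝ (m + 1 : ℕ) (dyi j (avl κ l F)) (Hr ι) := by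
      intro j
      have h1 : ContDiffOn ℝ (m + 1 : ℕ) (fun b : ι → ℂ => (b j).im⁻¹ *
          (L0i j (avl κ l F) b - (b j).re * dxi j (avl κ l F) b)) (Hr ι) :=
        ((Gain_im j).inv fun b hb => (hb j).ne').mul ((hL j).sub ((Gain_re j).mul (hx j)))
      refine h1.congr fun b hb => ?_
      have h2 : L0i j (avl κ l F) b = (b j).re * dxi j (avl κ l F) b + (b j).im * dyi j (avl κ l F) b := rfl
      have h3 : (b j).im ≠ 0 := (hb j).ne'
      rw [h2, add_sub_cancel_left, inv_mul_cancel_left₀ h3]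
    exact contDiffOn_succ_of_part (fun j => hasPart_of_contDiffOn hA1 j) (m + 1) hx hy

theorem fixed_smooth_r {ν κ : ℝ → ℝ} {R C Λ : ℝ} (h : KW.KPair ν κ R C Λ) {l : List ι} (hl : ∀ j, j ∈ l) {U g : (ι → ℂ) → ℝ} {m : ℝ}
    (hU : ContinuousOn U (Hr ι)) (hg : ContDiffOn ℝ ∞ g (Hr ι)) (hfix : ∀ b ∈ Hr ι, U b - avl κ l U b = g b - m) : ContDiffOn ℝ ∞ U (Hr ι) := by
  rw [contDiffOn_infty]
  intro k
  induction k with
  | zero =>
    have h0 : ContDiffOn ℝ 0 U (Hr ι) := contDiffOn_zero.2 hU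
    exact_mod_cast h0
  | succ k ih =>
    have h1 := avl_gain h hl k ih
    have h2 : ContDiffOn ℝ (k + 1 : ℕ) (fun b => avl κ l U b + (g b - m)) (Hr ι) :=
      h1.add ((contDiffOn_infty.1 hg (k + 1)).sub contDiffOn_const)
    refine h2.congr fun b hb => ?_
    have h3 := hfix b hb
    show U b = avl κ l U b + (g b - m)
    linarith

end TRed
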