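import Pool.Agent.Lib.MP_464db4_gt.TI.Com

/-!
# TI-Inv: the averages and the Laplacians of invariant functions are invariant; linearity of the averages
-/

namespace TRed

open Complex Matrix MeasureTheory YT Set Filter Topology
open scoped ContDiff ComplexConjugate

variable {ι : Type} [Fintype ι] [DecidableEq ι] {G : Type} [Group G] {pr : ι → G →* Matrix.SpecialLinearGroup (Fin 2) ℝ}

omit [Fintype ι] in
private theorem Inv_upd (i : ι) (γ : G) (b : ι → ℂ) (t : ℂ) :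
    Function.update (mobr pr γ b) i (KW.mo (pr i γ) t) = mobr pr γ (Function.update b i t) := by
  funext k
  rcases eq_or_ne k i with rfl | h
  · rw [Function.update_self, mobr_apply, KW.mob_eq]
    show KW.mo (pr k γ) t = KW.mo (pr k γ) (Function.update b k t k)
    rw [Function.update_self]
  · rw [Function.update_of_ne h, mobr_apply, mobr_apply, KW.mob_eq, KW.mob_eq]
    show KW.mo (pr k γ) (b k) = KW.mo (pr k γ) (Function.update b i t k)
    rw [Function.update_of_ne h]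

theorem cvi_inv {ν : ℝ → ℝ} {R C : ℝ} (hν : KW.Prof ν R C) (i : ι) {F : (ι → ℂ) → ℝ} (hF : InvG pr F) : InvG pr (cvi (KW.kn ν) i F) := by
  intro γ b hb
  have h1 : mobr pr γ b i = KW.mo (pr i γ) (b i) := rfl
  unfold cvi
  rw [h1, ← KW.cv_mo (pr i γ) ν _ (hb i)]
  refine KW.cv_congr (KW.gker_kn hν) (fun t ht => ?_) (hb i)
  rw [Inv_upd]
  exact hF γ _ (update_mem hb i ht)

theorem avi_inv {ν κ : ℝ → ℝ} {R C Λ : ℝ} (h : KW.KPair ν κ R C Λ) (i : ι) {F : (ι → ℂ) → ℝ} (hF : InvG pr F) : InvG pr (avi κ i F) := by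
  intro γ b hb
  unfold avi
  rw [cvi_inv h.profK i hF γ b hb]

theorem svi_inv {ν κ : ℝ → ℝ} {R C Λ : ℝ} (h : KW.KPair ν κ R C Λ) (i : ι) {F : (ι → ℂ) → ℝ} (hF : InvG pr F) : InvG pr (svi ν κ i F) := by
  intro γ b hb
  unfold svi
  rw [cvi_inv h.profN i hF γ b hb]

theorem avl_inv {ν κ : ℝ → ℝ} {R C Λ : ℝ} (h : KW.KPair ν κ R C Λ) (l : List ι) {F : (ι → ℂ) → ℝ} (hF : InvG pr F) : InvG pr (avl κ l F) := by
  induction l with
  | nil => exact hF
  | cons i l ih => exact avi_inv h i ih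

theorem lapi_inv (i : ι) {F : (ι → ℂ) → ℝ} (hs : ContDiffOn ℝ ∞ F (Hr ι)) (hF : InvG pr F) : InvG pr (lapi i F) := by
  intro γ b hb
  have h1 : mobr pr γ b i = KW.mo (pr i γ) (b i) := rfl
  unfold lapi
  rw [h1, ← KW.lapH_mo (pr i γ) (slice_contDiffOn hs (mobr_mem γ hb) i) (hb i)]
  refine KW.lapH_congr_hp (fun t ht => ?_) (hb i)
  rw [Inv_upd]
  exact hF γ _ (update_mem hb i ht)

omit [Fintype ι] in
private theorem Inv_avi_congr {ν κ : ℝ → ℝ} {R C Λ : ℝ} (h : KW.KPair ν κ R C Λ) (i : ι) {F F' : (ι → ℂ) → ℝ} (hF : ∀ b ∈ Hr ι, F b = F' b) {b : ι → ℂ}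
    (hb : b ∈ Hr ι) : avi κ i F b = avi κ i F' b := by
  unfold avi
  rw [cvi_congr (KW.gker_kn h.profK) i hF hb]

theorem avi_add {ν κ : ℝ → ℝ} {R C Λ : ℝ} (h : KW.KPair ν κ R C Λ) (i : ι) {F F' : (ι → ℂ) → ℝ} (hF : ContinuousOn F (Hr ι)) (hF' : ContinuousOn F' (Hr ι))
    {b : ι → ℂ} (hb : b ∈ Hr ι) : avi κ i (fun y => F y + F' y) b = avi κ i F b + avi κ i F' b := by
  unfold avi cvi
  rw [KW.cv_add (KW.gker_kn h.profK) (slice_contOn hF hb i) (slice_contOn hF' hb i) (hb i), add_div]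

theorem avl_add {ν κ : ℝ → ℝ} {R C Λ : ℝ} (h : KW.KPair ν κ R C Λ) (l : List ι) {F F' : (ι → ℂ) → ℝ} (hF : ContinuousOn F (Hr ι)) (hF' : ContinuousOn F' (Hr ι))
    {b : ι → ℂ} (hb : b ∈ Hr ι) : avl κ l (fun y => F y + F' y) b = avl κ l F b + avl κ l F' b := by
  induction l generalizing b with
  | nil => rfl
  | cons i l ih =>
    rw [avl_cons, avl_cons, avl_cons, Inv_avi_congr h i (fun b hb => ih hb) hb]
    exact avi_add h i (avl_contOn h l hF) (avl_contOn h l hF') hb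

theorem avl_smul {ν κ : ℝ → ℝ} {R C Λ : ℝ} (h : KW.KPair ν κ R C Λ) (l : List ι) (m : ℝ) {F : (ι → ℂ) → ℝ} {b : ι → ℂ} (hb : b ∈ Hr ι) :
    avl κ l (fun y => m * F y) b = m * avl κ l F b := by
  induction l generalizing b with
  | nil => rfl
  | cons i l ih =>
    rw [avl_cons, avl_cons, Inv_avi_congr h i (fun b hb => ih hb) hb]
    unfold avi cvi
    rw [KW.cv_const_mul, mul_div_assoc]

theorem avl_sub {ν κ : ℝ → ℝ} {R C Λ : ℝ} (h : KW.KPair ν κ R C Λ) (l : List ι) {F F' : (ι → ℂ) → ℝ} (hF : ContinuousOn F (Hr ι)) (hF' : ContinuousOn F' (Hr ι))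
    {b : ι → ℂ} (hb : b ∈ Hr ι) : avl κ l (fun y => F y - F' y) b = avl κ l F b - avl κ l F' b := by
  induction l generalizing b with
  | nil => rfl
  | cons i l ih =>
    rw [avl_cons, avl_cons, avl_cons, Inv_avi_congr h i (fun b hb => ih hb) hb]
    unfold avi cvi
    rw [KW.cv_sub (KW.gker_kn h.profK) (slice_contOn (avl_contOn h l hF) hb i) (slice_contOn (avl_contOn h l hF') hb i) (hb i), sub_div]

theorem avl_const {ν κ : ℝ → ℝ} {R C Λ : ℝ} (h : KW.KPair ν κ R C Λ) (l : List ι) (m : ℝ) {b : ι → ℂ} (hb : b ∈ Hr ι) : avl κ l (fun _ => m) b = m := by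
  induction l generalizing b with
  | nil => rfl
  | cons i l ih =>
    rw [avl_cons, Inv_avi_congr h i (F' := fun _ => m) (fun b hb => ih hb) hb]
    unfold avi cvi
    rw [KW.cv_const, mul_div_assoc, div_self (KW.massK_pos h).ne', mul_one]

theorem avl_le {ν κ : ℝ → ℝ} {R C Λ : ℝ} (h : KW.KPair ν κ R C Λ) (l : List ι) {F : (ι → ℂ) → ℝ} (hF : ContinuousOn F (Hr ι)) {M : ℝ}
    (hM : ∀ b ∈ Hr ι, F b ≤ M) {b : ι → ℂ} (hb : b ∈ Hr ι) : avl κ l F b ≤ M := by
  induction l generalizing b with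
  | nil => exact hM b hb
  | cons i l ih =>
    rw [avl_cons]
    unfold avi cvi
    rw [div_le_iff₀ (KW.massK_pos h), ← KW.cv_const (KW.kn κ) M (b i)]
    exact KW.cv_mono (KW.gker_kn h.profK) (KW.kn_nonneg h.nonnegK) (slice_contOn (avl_contOn h l hF) hb i) continuousOn_const
      (fun w hw => ih (update_mem hb i hw)) (hb i)

theorem le_avl {ν κ : ℝ → ℝ} {R C Λ : ℝ} (h : KW.KPair ν κ R C Λ) (l : List ι) {F : (ι → ℂ) → ℝ} (hF : ContinuousOn F (Hr ι)) {M : ℝ}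
    (hM : ∀ b ∈ Hr ι, M ≤ F b) {b : ι → ℂ} (hb : b ∈ Hr ι) : M ≤ avl κ l F b := by
  induction l generalizing b with
  | nil => exact hM b hb
  | cons i l ih =>
    rw [avl_cons]
    unfold avi cvi
    rw [le_div_iff₀ (KW.massK_pos h), ← KW.cv_const (KW.kn κ) M (b i)]
    exact KW.cv_mono (KW.gker_kn h.profK) (KW.kn_nonneg h.nonnegK) continuousOn_const (slice_contOn (avl_contOn h l hF) hb i)
      (fun w hw => ih (update_mem hb i hw)) (hb i)

theorem avl_congr {ν κ : ℝ → ℝ} {R C Λ : ℝ} (h : KW.KPair ν κ R C Λ) (l : List ι) {F F' : (ι → ℂ) → ℝ} (hF : ∀ b ∈ Hr ι, F b = F' b) {b : ι → ℂ}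
    (hb : b ∈ Hr ι) : avl κ l F b = avl κ l F' b := by
  induction l generalizing b with
  | nil => exact hF b hb
  | cons i l ih =>
    rw [avl_cons, avl_cons]
    exact Inv_avi_congr h i (fun b hb => ih hb) hb

end TRed
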