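import Pool.Agent.Lib.MP_464db4_gt.TI.Lap
import Pool.Agent.Lib.MP_464db4_gt.TI.Inv

/-!
# TI-Gl: the function `g_l`

By induction on the list: for `i :: l` take `T_i g_l + S_i f_i`.
-/

namespace TRed

open Complex Matrix MeasureTheory YT Set Filter Topology
open scoped ContDiff ComplexConjugate

variable {ι : Type} [Fintype ι] [DecidableEq ι] {G : Type} [Group G] {pr : ι → G →* Matrix.SpecialLinearGroup (Fin 2) ℝ}

theorem exists_gl {ν κ : ℝ → ℝ} {R C Λ : ℝ} (h : KW.KPair ν κ R C Λ) (l : List ι) {f : ι → (ι → ℂ) → ℝ} (hf : ∀ a, ContDiffOn ℝ ∞ (f a) (Hr ι))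
    (hi : ∀ a, InvG pr (f a)) (hs : ∀ a b, ∀ z ∈ Hr ι, lapi a (f b) z = lapi b (f a) z) :
    ∃ g : (ι → ℂ) → ℝ, ContDiffOn ℝ ∞ g (Hr ι) ∧ InvG pr g ∧ ∀ a, ∀ z ∈ Hr ι, lapi a g z = avl κ l (f a) z - f a z := by
  induction l with
  | nil =>
    refine ⟨fun _ => 0, contDiffOn_const, fun _ _ _ => rfl, fun a z _ => ?_⟩
    rw [lapi_const, avl_nil, sub_self]
  | cons i l ih =>
    obtain ⟨g, hg, hgi, hgl⟩ := ih
    refine ⟨fun b => avi κ i g b + svi ν κ i (f i) b, (avi_smooth h i hg).add (svi_smooth h i (hf i)), fun γ b hb => ?_, fun a z hz => ?_⟩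
    · show avi κ i g (mobr pr γ b) + svi ν κ i (f i) (mobr pr γ b) = avi κ i g b + svi ν κ i (f i) b
      rw [avi_inv h i hgi γ b hb, svi_inv h i (hi i) γ b hb]
    · rw [lapi_add a (avi_smooth h i hg) (svi_smooth h i (hf i)) hz, lapi_avi h i a hg hz, lapi_svi h i a (hf i) hz]
      have h1 : avi κ i (lapi a g) z = avl κ (i :: l) (f a) z - avi κ i (f a) z := by
        have e1 : avi κ i (lapi a g) z = avi κ i (fun y => avl κ l (f a) y - f a y) z := by
          unfold avi
          rw [cvi_congr (KW.gker_kn h.profK) i (hgl a) hz]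
        have e2 := avl_sub h [i] (avl_contOn h l (hf a).continuousOn) (hf a).continuousOn hz
        rw [e1]
        exact e2
      have h2 : svi ν κ i (lapi a (f i)) z = avi κ i (f a) z - f a z := by
        rw [← avi_sub_self h i (hf a) hz]
        unfold svi
        rw [cvi_congr (KW.gker_kn h.profN) i (hs a i) hz]
      rw [h1, h2]
      ring

end TRed
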