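import Pool.Agent.Lib.MP_464db4_gt.TI.Fred
import Pool.Agent.Lib.MP_464db4_gt.TI.Gain
import Pool.Agent.Lib.MP_464db4_gt.TI.Gl

/-!
# TI-Dia: constant diagonal

PROOF.  `KW.exists_kpair 1` gives `h : KPair ν κ R C 1`; `l = Finset.univ.toList`.  `exists_gl h l hf hi hs` gives `g`; `fredholm` gives `U`, `m`; `fixed_smooth_r` gives smoothness of `U`.  For each `a` let `H = fun z => f a z + lapi a U z`: smooth
(`lapi_smooth`), invariant (`lapi_inv`), and `avl κ l H = avl κ l (f a) + avl κ l (lapi a U) = avl κ l (f a) + lapi a (avl κ l U)` (`avl_add`, `lapi_avl`), where `avl κ l U = U - (g - m)` on `Hr ι`, so (`lapi_congr`, `lapi_sub`, `lapi_const`)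
`lapi a (avl κ l U) = lapi a U - lapi a g = lapi a U - (avl κ l (f a) - f a)`; the sum is `H`.  `avl_fixed_const` gives the constant; `choose`.
-/

namespace TRed

open Complex Matrix MeasureTheory YT Set Filter Topology
open scoped ContDiff ComplexConjugate BoundedContinuousFunction

variable {ι : Type} [Fintype ι] [DecidableEq ι] {G : Type} [Group G] {pr : ι → G →* Matrix.SpecialLinearGroup (Fin 2) ℝ} {ν κ : ℝ → ℝ} {R C Λ : ℝ}
theorem diag_const (hB : CompactBase (Hr ι) (mobr pr)) {f : ι → (ι → ℂ) → ℝ} (hf : ∀ a, ContDiffOn ℝ ∞ (f a) (Hr ι))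
    (hi : ∀ a, InvG pr (f a)) (hs : ∀ a b, ∀ z ∈ Hr ι, lapi a (f b) z = lapi b (f a) z) :
    ∃ (U : (ι → ℂ) → ℝ) (c : ι → ℝ), ContDiffOn ℝ ∞ U (Hr ι) ∧ InvG pr U ∧ ∀ a, ∀ z ∈ Hr ι, f a z + lapi a U z = c a := by
  obtain ⟨ν, κ, R, C, h⟩ := KW.exists_kpair 1
  have hl : ∀ j : ι, j ∈ (Finset.univ : Finset ι).toList := fun j => Finset.mem_toList.2 (Finset.mem_univ j)
  obtain ⟨g, hg1, hg2, hg3⟩ := exists_gl h (Finset.univ : Finset ι).toList hf hi hs
  obtain ⟨U, m, hU1, hU2, hU3⟩ := fredholm hB h hl hg1.continuousOn hg2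
  have hU : ContDiffOn ℝ ∞ U (Hr ι) := fixed_smooth_r h hl hU1 hg1 hU3
  have hM : ∀ a, ∃ M : ℝ, ∀ z ∈ Hr ι, f a z + lapi a U z = M := by
    intro a
    have hH1 : ContDiffOn ℝ ∞ (fun z => f a z + lapi a U z) (Hr ι) := (hf a).add (lapi_smooth a hU)
    have hH2 : InvG pr (fun z => f a z + lapi a U z) := by
      intro γ b hb
      change f a (mobr pr γ b) + lapi a U (mobr pr γ b) = f a b + lapi a U b
      rw [hi a γ b hb, lapi_inv a hU hU2 γ b hb]
    refine avl_fixed_const hB h hl hH1.continuousOn hH2 fun b hb => ?_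
    rw [avl_add h _ (hf a).continuousOn (lapi_smooth a hU).continuousOn hb, ← lapi_avl h _ a hU hb,
      lapi_congr a (F' := fun y => U y - (g y - m)) (fun y hy => by linarith [hU3 y hy]) hb,
      lapi_sub a hU (hg1.sub contDiffOn_const) hb, lapi_sub a hg1 contDiffOn_const hb, lapi_const, hg3 a b hb]
    ring
  choose c hc using hM
  exact ⟨U, c, hU, hU2, hc⟩

end TRed
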