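import Pool.Agent.Lib.MP_464db4_gt.TI.FrA

/-!
# TI-FrB: the form `β + 4 ∂∂̄ U`
-/

namespace TRed

open Complex Matrix MeasureTheory YT
open scoped ContDiff ComplexConjugate ComplexOrder

variable {ι : Type} [Fintype ι] [DecidableEq ι] {G : Type} [Group G] {pr : ι → G →* Matrix.SpecialLinearGroup (Fin 2) ℝ}
  {β : (ι → ℂ) → Matrix ι ι ℂ} {U : (ι → ℂ) → ℝ} {b : ι → ℂ}

/-- The form `β + 4 ∂∂̄ U`. -/
noncomputable def bpl (β : (ι → ℂ) → Matrix ι ι ℂ) (U : (ι → ℂ) → ℝ) (b : ι → ℂ) : Matrix ι ι ℂ :=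
  Matrix.of fun i j => β b i j + 4 * dz i (fun y => dzbar j (fun y => ((U y : ℝ) : ℂ)) y) b

omit [DecidableEq ι] in
private theorem FrB_U (hU : ContDiffOn ℝ ∞ U (Hr ι)) : ContDiffOn ℝ ∞ (fun y => ((U y : ℝ) : ℂ)) (Hr ι) :=
  Complex.ofRealCLM.contDiff.comp_contDiffOn hU

private theorem FrB_diff {f : (ι → ℂ) → ℂ} (hf : ContDiffOn ℝ ∞ f (Hr ι)) (hb : b ∈ Hr ι) : DifferentiableAt ℝ f b :=
  (hf.contDiffAt (isOpen_Hr.mem_nhds hb)).differentiableAt (by simp)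

private theorem FrB_dd (hU : ContDiffOn ℝ ∞ U (Hr ι)) (i j : ι) :
    ContDiffOn ℝ ∞ (fun b => dz i (fun y => dzbar j (fun y => ((U y : ℝ) : ℂ)) y) b) (Hr ι) :=
  dz_contDiffOn isOpen_Hr (dzbar_contDiffOn isOpen_Hr (FrB_U hU) j) i

private theorem FrB_cU (U : (ι → ℂ) → ℝ) (j : ι) (y : ι → ℂ) :
    conj (dzbar j (fun y => ((U y : ℝ) : ℂ)) y) = dz j (fun y => ((U y : ℝ) : ℂ)) y := by
  rw [← dz_conj]
  simp only [Complex.conj_ofReal]

theorem bpl_smooth (hsm : ∀ i j, ContDiffOn ℝ ∞ (fun x => β x i j) (Hr ι)) (hU : ContDiffOn ℝ ∞ U (Hr ι)) (i j : ι) :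
    ContDiffOn ℝ ∞ (fun x => bpl β U x i j) (Hr ι) :=
  (hsm i j).add (contDiffOn_const.mul (FrB_dd hU i j))

theorem bpl_herm (hH : ∀ b ∈ Hr ι, (β b).IsHermitian) (hU : ContDiffOn ℝ ∞ U (Hr ι)) : ∀ b ∈ Hr ι, (bpl β U b).IsHermitian := by
  intro b hb
  refine Matrix.IsHermitian.ext fun i j => ?_
  show conj (β b j i + 4 * dz j (fun y => dzbar i (fun y => ((U y : ℝ) : ℂ)) y) b) =
    β b i j + 4 * dz i (fun y => dzbar j (fun y => ((U y : ℝ) : ℂ)) y) b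
  have h1 : conj (β b j i) = β b i j := (hH b hb).apply i j
  have h2 : conj (dz j (fun y => dzbar i (fun y => ((U y : ℝ) : ℂ)) y) b) = dz i (fun y => dzbar j (fun y => ((U y : ℝ) : ℂ)) y) b := by
    rw [← dzbar_conj]
    simp only [FrB_cU]
    rw [dz_dzbar_comm isOpen_Hr (FrB_U hU) hb i j]
  rw [map_add, map_mul, h1, h2, map_ofNat]

theorem bpl_closed (hsm : ∀ i j, ContDiffOn ℝ ∞ (fun x => β x i j) (Hr ι)) (hU : ContDiffOn ℝ ∞ U (Hr ι))
    (hcl : ∀ x ∈ Hr ι, ∀ i j k, dz k (fun y => β y i j) x = dz i (fun y => β y k j) x) :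
    ∀ x ∈ Hr ι, ∀ i j k, dz k (fun y => bpl β U y i j) x = dz i (fun y => bpl β U y k j) x := by
  intro x hx i j k
  show dz k (fun y => β y i j + 4 * dz i (fun y => dzbar j (fun y => ((U y : ℝ) : ℂ)) y) y) x =
    dz i (fun y => β y k j + 4 * dz k (fun y => dzbar j (fun y => ((U y : ℝ) : ℂ)) y) y) x
  have h1 : ∀ i j, DifferentiableAt ℝ (fun y => β y i j) x := fun i j => FrB_diff (hsm i j) hx
  have h2 : ∀ i j, DifferentiableAt ℝ (fun y => dz i (fun y => dzbar j (fun y => ((U y : ℝ) : ℂ)) y) y) x := fun i j => FrB_diff (FrB_dd hU i j) hx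
  rw [dz_add k (h1 i j) ((h2 i j).const_mul 4), dz_add i (h1 k j) ((h2 k j).const_mul 4), dz_const_mul k 4 (h2 i j), dz_const_mul i 4 (h2 k j),
    hcl x hx i j k, dz_dz_comm isOpen_Hr (dzbar_contDiffOn isOpen_Hr (FrB_U hU) j) hx k i]

private theorem FrB_dzU (hU : ContDiffOn ℝ ∞ U (Hr ι)) (hi : InvG pr U) (γ : G) (hb : b ∈ Hr ι) (i : ι) :
    dz i (fun y => ((U y : ℝ) : ℂ)) (mobr pr γ b) * mj (pr i γ) (cmp i b) = dz i (fun y => ((U y : ℝ) : ℂ)) b := by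
  have hF : DifferentiableAt ℂ (mobr pr γ) b := (mobr_hol γ).differentiableAt (isOpen_Hr.mem_nhds hb)
  have hud : DifferentiableAt ℝ (fun y => ((U y : ℝ) : ℂ)) (mobr pr γ b) := FrB_diff (FrB_U hU) (mobr_mem γ hb)
  have h1 := dz_comp hF hud i
  rw [Finset.sum_eq_single i] at h1
  · rw [jac_mobr γ hb, if_pos rfl] at h1
    rw [← h1]
    refine dz_congr_on isOpen_Hr (fun y hy => ?_) hb i
    rw [hi γ y hy]
  · intro k _ hk
    rw [jac_mobr γ hb, if_neg hk, mul_zero]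
  · exact fun h => absurd (Finset.mem_univ i) h

private theorem FrB_inv (hU : ContDiffOn ℝ ∞ U (Hr ι)) (hi : InvG pr U) (γ : G) (hb : b ∈ Hr ι) (i j : ι) :
    dz i (fun y => dzbar j (fun y => ((U y : ℝ) : ℂ)) y) (mobr pr γ b) * mj (pr i γ) (cmp i b) * conj (mj (pr j γ) (cmp j b)) =
      dz i (fun y => dzbar j (fun y => ((U y : ℝ) : ℂ)) y) b := by
  obtain ⟨u, hu⟩ : ∃ u : (ι → ℂ) → ℂ, u = fun y => ((U y : ℝ) : ℂ) := ⟨_, rfl⟩
  have hus : ContDiffOn ℝ ∞ u (Hr ι) := by rw [hu]; exact FrB_U hU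
  rw [← hu]
  have hF : ∀ y ∈ Hr ι, DifferentiableAt ℂ (mobr pr γ) y := fun y hy =>
    (mobr_hol γ).differentiableAt (isOpen_Hr.mem_nhds hy)
  have e : ∀ y ∈ Hr ι, dzbar j u y = dzbar j u (mobr pr γ y) * conj (mj (pr j γ) (cmp j y)) := by
    intro y hy
    have h1 := congrArg conj (FrB_dzU hU hi γ hy j)
    rw [map_mul, ← dzbar_conj, ← dzbar_conj] at h1
    simp only [Complex.conj_ofReal] at h1
    rw [hu]
    exact h1.symm
  rw [dz_congr_on isOpen_Hr e hb i]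
  have hg : DifferentiableAt ℝ (fun y => dzbar j u y) (mobr pr γ b) := FrB_diff (dzbar_contDiffOn isOpen_Hr hus j) (mobr_mem γ hb)
  have hgF : DifferentiableAt ℝ (fun y => dzbar j u (mobr pr γ y)) b :=
    DifferentiableAt.comp b hg ((hF b hb).restrictScalars ℝ)
  have hmj0 : DifferentiableAt ℂ (mj (pr j γ)) (cmp j b) :=
    (mj_hol (pr j γ)).differentiableAt (isOpen_halfPlane.mem_nhds (cmp_mem hb j))
  have hcm : DifferentiableAt ℂ (cmp j : (ι → ℂ) → (Unit → ℂ)) b :=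
    differentiableAt_pi.2 fun _ => (ContinuousLinearMap.proj (R := ℂ) (φ := fun _ : ι => ℂ) j).differentiableAt
  have hmj : DifferentiableAt ℂ (fun y => mj (pr j γ) (cmp j y)) b := by
    have := hmj0.comp b hcm
    exact this
  have hmjc : DifferentiableAt ℝ (fun y => conj (mj (pr j γ) (cmp j y))) b :=
    Complex.conjCLE.differentiableAt.comp b (hmj.restrictScalars ℝ)
  rw [dz_mul i hgF hmjc, dz_conj, dzbar_hol i hmj, map_zero, mul_zero, add_zero]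
  have h3 := dz_comp (f := fun y => dzbar j u y) (hF b hb) hg i
  rw [Finset.sum_eq_single i] at h3
  · rw [jac_mobr γ hb, if_pos rfl] at h3
    have h4 : dz i (fun y => dzbar j u (mobr pr γ y)) b =
        dz i (fun y => dzbar j u y) (mobr pr γ b) * mj (pr i γ) (cmp i b) := h3
    rw [h4]
  · intro k _ hk
    rw [jac_mobr γ hb, if_neg hk, mul_zero]
  · exact fun h => absurd (Finset.mem_univ i) h

/-- The identity for the entries implies the invariance. -/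
private theorem FrB_entry {g : (ι → ℂ) → Matrix ι ι ℂ} (γ : G) (hb : b ∈ Hr ι)
    (h : ∀ i j, g (mobr pr γ b) i j * mj (pr i γ) (cmp i b) * conj (mj (pr j γ) (cmp j b)) = g b i j) :
    (jac (mobr pr γ) b)ᵀ * g (mobr pr γ b) * mconj (jac (mobr pr γ) b) = g b := by
  have hJ : jac (mobr pr γ) b = Matrix.diagonal fun i => mj (pr i γ) (cmp i b) := by
    ext k l
    rw [jac_mobr γ hb, Matrix.diagonal_apply]
  have hJc : mconj (jac (mobr pr γ) b) = Matrix.diagonal fun i => conj (mj (pr i γ) (cmp i b)) := by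
    rw [hJ]
    unfold mconj
    rw [Matrix.diagonal_map (map_zero _)]
  ext i j
  rw [hJc, hJ, Matrix.diagonal_transpose, Matrix.mul_diagonal, Matrix.diagonal_mul, ← h i j, mul_comm (g (mobr pr γ b) i j)]

theorem bpl_inv (hinv : ∀ F ∈ Set.range (mobr pr), ∀ x ∈ Hr ι, (jac F x)ᵀ * β (F x) * mconj (jac F x) = β x) (hU : ContDiffOn ℝ ∞ U (Hr ι))
    (hi : InvG pr U) : ∀ F ∈ Set.range (mobr pr), ∀ x ∈ Hr ι, (jac F x)ᵀ * bpl β U (F x) * mconj (jac F x) = bpl β U x := by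
  rintro _ ⟨γ, rfl⟩ b hb
  refine FrB_entry γ hb fun i j => ?_
  show (β (mobr pr γ b) i j + 4 * dz i (fun y => dzbar j (fun y => ((U y : ℝ) : ℂ)) y) (mobr pr γ b)) * mj (pr i γ) (cmp i b) *
    conj (mj (pr j γ) (cmp j b)) = β b i j + 4 * dz i (fun y => dzbar j (fun y => ((U y : ℝ) : ℂ)) y) b
  rw [← inv_entry hinv γ hb i j, ← FrB_inv hU hi γ hb i j]
  ring

theorem bpl_coh (hU : ContDiffOn ℝ ∞ U (Hr ι)) (hi : InvG pr U) : Cohomologous (Hr ι) (Set.range (mobr pr)) β (bpl β U) := by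
  refine ⟨fun x i => (-2 * I) * dz i (fun y => ((U y : ℝ) : ℂ)) x, ?_, ?_, ?_, ?_⟩
  · exact fun i => contDiffOn_const.mul (dz_contDiffOn isOpen_Hr (FrB_U hU) i)
  · rintro _ ⟨γ, rfl⟩ b hb i
    rw [Finset.sum_eq_single i]
    · rw [jac_mobr γ hb, if_pos rfl, mul_assoc, FrB_dzU hU hi γ hb i]
    · intro k _ hk
      rw [jac_mobr γ hb, if_neg hk, mul_zero]
    · exact fun h => absurd (Finset.mem_univ i) h
  · intro x hx i j
    have h1 : ∀ j, DifferentiableAt ℝ (fun y => dz j (fun y => ((U y : ℝ) : ℂ)) y) x := fun j =>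
      FrB_diff (dz_contDiffOn isOpen_Hr (FrB_U hU) j) hx
    rw [dz_const_mul i (-2 * I) (h1 j), dz_const_mul j (-2 * I) (h1 i), dz_dz_comm isOpen_Hr (FrB_U hU) hx i j]
  · intro x hx i j
    have h1 : ∀ j, DifferentiableAt ℝ (fun y => dz j (fun y => ((U y : ℝ) : ℂ)) y) x := fun j =>
      FrB_diff (dz_contDiffOn isOpen_Hr (FrB_U hU) j) hx
    have h2 : ∀ j, DifferentiableAt ℝ (fun y => dzbar j (fun y => ((U y : ℝ) : ℂ)) y) x := fun j =>
      FrB_diff (dzbar_contDiffOn isOpen_Hr (FrB_U hU) j) hx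
    have h3 : (fun y => conj ((-2 * I) * dz j (fun y => ((U y : ℝ) : ℂ)) y)) = fun y => (2 * I) * dzbar j (fun y => ((U y : ℝ) : ℂ)) y := by
      funext y
      have h4 : conj (-2 * I) = 2 * I := by
        rw [map_mul, map_neg, conj_I, map_ofNat]
        ring
      rw [map_mul, ← FrB_cU U j y, Complex.conj_conj, h4]
    rw [h3, dz_const_mul i (2 * I) (h2 j), dzbar_const_mul j (-2 * I) (h1 i), ← dz_dzbar_comm isOpen_Hr (FrB_U hU) hx i j]
    show β x i j + 4 * dz i (fun y => dzbar j (fun y => ((U y : ℝ) : ℂ)) y) x - β x i j = _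
    linear_combination (4 : ℂ) * dz i (fun y => dzbar j (fun y => ((U y : ℝ) : ℂ)) y) x * I_mul_I

theorem bpl_diag (hH : ∀ b ∈ Hr ι, (β b).IsHermitian) (hU : ContDiffOn ℝ ∞ U (Hr ι)) (hb : b ∈ Hr ι) (a : ι) :
    ((b a).im : ℂ) ^ 2 * bpl β U b a a = ((fdia β a b + lapi a U b : ℝ) : ℂ) := by
  show ((b a).im : ℂ) ^ 2 * (β b a a + 4 * dz a (fun y => dzbar a (fun y => ((U y : ℝ) : ℂ)) y) b) = _
  have h3 : conj (β b a a) = β b a a := (hH b hb).apply a a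
  have h4 : ((β b a a).re : ℂ) = β b a a := Complex.conj_eq_iff_re.1 h3
  push_cast
  rw [← lapi_eq hU hb a]
  unfold fdia
  push_cast
  rw [h4]
  ring

end TRed
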