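import Pool.Agent.Lib.MP_464db4_gt.TI.Lf2
import Pool.Agent.Lib.MP_464db4_gt.TI.Den

/-!
# TI-Off: forms with constant diagonal

A closed invariant form `β` with `y_a² β_aa = c_a` constant for all `a` is `∑ c_a dz_a dz̄_a / y_a²`, if the density condition holds.
-/

namespace TRed

open Complex Matrix MeasureTheory YT
open scoped ContDiff ComplexConjugate ComplexOrder

variable {ι : Type} [Fintype ι] [DecidableEq ι] {G : Type} [Group G] {pr : ι → G →* Matrix.SpecialLinearGroup (Fin 2) ℝ}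
  {β : (ι → ℂ) → Matrix ι ι ℂ} {c : ι → ℝ} {b b' : ι → ℂ}

/-- The hypotheses. -/
private structure OffH (pr : ι → G →* Matrix.SpecialLinearGroup (Fin 2) ℝ) (β : (ι → ℂ) → Matrix ι ι ℂ) (c : ι → ℝ) : Prop where
  sm : ∀ i j, ContDiffOn ℝ ∞ (fun x => β x i j) (Hr ι)
  herm : ∀ b ∈ Hr ι, ∀ i j, β b i j = conj (β b j i)
  cl : ∀ x ∈ Hr ι, ∀ i j k, dz k (fun y => β y i j) x = dz i (fun y => β y k j) x
  inv : ∀ γ : G, ∀ b ∈ Hr ι, ∀ i j, β (mobr pr γ b) i j * mj (pr i γ) (cmp i b) * conj (mj (pr j γ) (cmp j b)) = β b i j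
  dg : ∀ b ∈ Hr ι, ∀ a, β b a a = ((c a / (b a).im ^ 2 : ℝ) : ℂ)

private theorem Off_diff {f : (ι → ℂ) → ℂ} (hf : ContDiffOn ℝ ∞ f (Hr ι)) (hb : b ∈ Hr ι) : DifferentiableAt ℝ f b :=
  (hf.contDiffAt (isOpen_Hr.mem_nhds hb)).differentiableAt (by simp)

private theorem Off_psi {r : ℝ} {x : Unit → ℂ} (hx : x ∈ halfPlane) :
    DifferentiableAt ℝ (fun x : Unit → ℂ => ((r / (x ()).im ^ 2 : ℝ) : ℂ)) x := by
  have h0 : (x ()).im ≠ 0 := ne_of_gt hx
  have h1 : DifferentiableAt ℝ (fun x : Unit → ℂ => (x ()).im) x :=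
    Complex.imCLM.differentiableAt.comp x (differentiableAt_apply () x)
  have h3 : DifferentiableAt ℝ (fun x : Unit → ℂ => (x ()).im ^ 2) x := h1.fun_pow 2
  have h4 : DifferentiableAt ℝ (fun x : Unit → ℂ => ((x ()).im ^ 2)⁻¹) x := h3.fun_inv (pow_ne_zero 2 h0)
  have h2 : DifferentiableAt ℝ (fun x : Unit → ℂ => r / (x ()).im ^ 2) x := by
    simp only [div_eq_mul_inv]
    exact (differentiableAt_const r).fun_mul h4
  exact Complex.ofRealCLM.differentiableAt.comp x h2

private theorem Off_dzaa (H : OffH pr β c) (hb : b ∈ Hr ι) {a k : ι} (hk : k ≠ a) : dz k (fun y => β y a a) b = 0 := by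
  have e : ∀ y ∈ Hr ι, β y a a = (fun x : Unit → ℂ => ((c a / (x ()).im ^ 2 : ℝ) : ℂ)) (cmp a y) := fun y hy => H.dg y hy a
  rw [dz_congr_on isOpen_Hr e hb k, dz_cmp a k (Off_psi (cmp_mem hb a)), if_neg hk]

private theorem Off_dbaa (H : OffH pr β c) (hb : b ∈ Hr ι) {a k : ι} (hk : k ≠ a) : dzbar k (fun y => β y a a) b = 0 := by
  have e : ∀ y ∈ Hr ι, β y a a = (fun x : Unit → ℂ => ((c a / (x ()).im ^ 2 : ℝ) : ℂ)) (cmp a y) := fun y hy => H.dg y hy a
  rw [dzbar_congr_on isOpen_Hr e hb k, dzbar_cmp a k (Off_psi (cmp_mem hb a)), if_neg hk]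

private theorem Off_clb (H : OffH pr β c) (hb : b ∈ Hr ι) (i j k : ι) : dzbar k (fun y => β y i j) b = dzbar j (fun y => β y i k) b := by
  rw [dzbar_congr_on isOpen_Hr (fun y hy => H.herm y hy i j) hb k, dzbar_congr_on isOpen_Hr (fun y hy => H.herm y hy i k) hb j,
    dzbar_conj, dzbar_conj, H.cl b hb j i k]

private theorem Off_harm (H : OffH pr β c) (hb : b ∈ Hr ι) {i j k : ι} (hi : k ≠ i) :
    dz k (fun y => dzbar k (fun y => β y i j) y) b = 0 := by
  rw [dz_congr_on isOpen_Hr (fun y hy => Off_clb H hy i j k) hb k, dz_dzbar_comm isOpen_Hr (H.sm i k) hb k j]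
  have e : ∀ y ∈ Hr ι, dz k (fun y => β y i k) y = 0 := by
    intro y hy
    rw [H.cl y hy i k k]
    exact Off_dzaa H hy (Ne.symm hi)
  rw [dzbar_congr_on isOpen_Hr e hb j]
  exact dzbar_const j 0

private theorem Off_N (H : OffH pr β c) (i j : ι) : ContDiffOn ℝ ∞ (fun y => Complex.normSq (β y i j)) (Hr ι) := by
  have h1 := Complex.reCLM.contDiff.comp_contDiffOn (H.sm i j)
  have h2 := Complex.imCLM.contDiff.comp_contDiffOn (H.sm i j)
  refine ((h1.mul h1).add (h2.mul h2)).congr fun y _ => ?_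
  exact Complex.normSq_apply _

private theorem Off_ddN (H : OffH pr β c) (hb : b ∈ Hr ι) {i j k : ι} (hi : k ≠ i) :
    dz k (fun y => dzbar k (fun y => ((Complex.normSq (β y i j) : ℝ) : ℂ)) y) b =
      ((Complex.normSq (dz k (fun y => β y i j) b) + Complex.normSq (dzbar k (fun y => β y i j) b) : ℝ) : ℂ) := by
  obtain ⟨h, hh⟩ : ∃ h : (ι → ℂ) → ℂ, h = fun y => β y i j := ⟨_, rfl⟩
  have hs : ContDiffOn ℝ ∞ h (Hr ι) := by rw [hh]; exact H.sm i j
  have hharm : dz k (fun y => dzbar k h y) b = 0 := by rw [hh]; exact Off_harm H hb hi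
  have hharm2 : dzbar k (fun y => dz k h y) b = 0 := by rw [← dz_dzbar_comm isOpen_Hr hs hb k k]; exact hharm
  have e0 : (fun y => ((Complex.normSq (β y i j) : ℝ) : ℂ)) = fun y => h y * conj (h y) := by
    funext y
    rw [hh, Complex.mul_conj]
  have hsc : ContDiffOn ℝ ∞ (fun y => conj (h y)) (Hr ι) := conj_contDiffOn hs
  have hdz : ContDiffOn ℝ ∞ (fun y => dz k h y) (Hr ι) := dz_contDiffOn isOpen_Hr hs k
  have hdb : ContDiffOn ℝ ∞ (fun y => dzbar k h y) (Hr ι) := dzbar_contDiffOn isOpen_Hr hs k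
  have hdzc : ContDiffOn ℝ ∞ (fun y => conj (dz k h y)) (Hr ι) := conj_contDiffOn hdz
  have e1 : ∀ y ∈ Hr ι, dzbar k (fun y => h y * conj (h y)) y = dzbar k h y * conj (h y) + h y * conj (dz k h y) := by
    intro y hy
    rw [dzbar_mul k (Off_diff hs hy) (Off_diff hsc hy), dzbar_conj]
  rw [e0, dz_congr_on isOpen_Hr e1 hb k]
  rw [dz_add k ((Off_diff hdb hb).fun_mul (Off_diff hsc hb)) ((Off_diff hs hb).fun_mul (Off_diff hdzc hb)),
    dz_mul k (Off_diff hdb hb) (Off_diff hsc hb), dz_mul k (Off_diff hs hb) (Off_diff hdzc hb), dz_conj, dz_conj, hharm, hharm2]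
  rw [map_zero, zero_mul, mul_zero, zero_add, add_zero, Complex.mul_conj, Complex.mul_conj, hh]
  push_cast
  ring

private theorem Off_dxc {φ ψ : ℂ → ℝ} {r : ℝ} (h : ∀ w ∈ KW.hp, φ w = r * ψ w) {t : ℂ} (ht : t ∈ KW.hp) :
    KW.dx φ t = r * KW.dx ψ t := by
  rw [KW.dx_congr_hp h ht]
  unfold KW.dx
  have h1 := fderiv_const_smul_field (𝕜 := ℝ) (f := ψ) r
  have h2 : (fun w => r * ψ w) = r • ψ := rfl
  rw [h2, h1]
  rfl

private theorem Off_dyc {φ ψ : ℂ → ℝ} {r : ℝ} (h : ∀ w ∈ KW.hp, φ w = r * ψ w) {t : ℂ} (ht : t ∈ KW.hp) :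
    KW.dy φ t = r * KW.dy ψ t := by
  rw [KW.dy_congr_hp h ht]
  unfold KW.dy
  have h1 := fderiv_const_smul_field (𝕜 := ℝ) (f := ψ) r
  have h2 : (fun w => r * ψ w) = r • ψ := rfl
  rw [h2, h1]
  rfl

private theorem Off_lapc {φ ψ : ℂ → ℝ} {r : ℝ} (h : ∀ w ∈ KW.hp, φ w = r * ψ w) {t : ℂ} (ht : t ∈ KW.hp) :
    KW.lapE φ t = r * KW.lapE ψ t := by
  unfold KW.lapE
  rw [Off_dxc (fun w hw => Off_dxc h hw) ht, Off_dyc (fun w hw => Off_dyc h hw) ht, mul_add]

private theorem Off_lap0 {φ : ℂ → ℝ} {r : ℝ} (h : ∀ w ∈ KW.hp, φ w = r) {t : ℂ} (ht : t ∈ KW.hp) : KW.lapE φ t = 0 := by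
  have h1 : ∀ w ∈ KW.hp, KW.dx φ w = 0 * KW.dx φ w := fun w hw => by
    rw [KW.dx_congr_hp (ψ := fun _ => r) h hw]
    unfold KW.dx
    rw [fderiv_const_apply]
    simp
  have h2 : ∀ w ∈ KW.hp, KW.dy φ w = 0 * KW.dy φ w := fun w hw => by
    rw [KW.dy_congr_hp (ψ := fun _ => r) h hw]
    unfold KW.dy
    rw [fderiv_const_apply]
    simp
  unfold KW.lapE
  rw [Off_dxc h1 ht, Off_dyc h2 ht]
  ring

/-- The function `y_i² y_j² |β_ij|²`. -/
private noncomputable def Off_F (β : (ι → ℂ) → Matrix ι ι ℂ) (i j : ι) (y : ι → ℂ) : ℝ :=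
  ((y i).im ^ 2 * (y j).im ^ 2) * Complex.normSq (β y i j)

private theorem Off_Fs (H : OffH pr β c) (i j : ι) : ContDiffOn ℝ ∞ (Off_F β i j) (Hr ι) := by
  have h : ∀ k : ι, ContDiff ℝ ∞ fun y : ι → ℂ => (y k).im := fun k =>
    Complex.imCLM.contDiff.comp (contDiff_apply ℝ ℂ k)
  exact (((h i).pow 2).mul ((h j).pow 2)).contDiffOn.mul (Off_N H i j)

private theorem Off_Finv (H : OffH pr β c) (i j : ι) (γ : G) (hb : b ∈ Hr ι) : Off_F β i j (mobr pr γ b) = Off_F β i j b := by
  unfold Off_F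
  have h1 := H.inv γ b hb i j
  have h2 : Complex.normSq (β b i j) = Complex.normSq (β (mobr pr γ b) i j) * (‖mj (pr i γ) (cmp i b)‖ ^ 2 * ‖mj (pr j γ) (cmp j b)‖ ^ 2) := by
    rw [← h1, Complex.normSq_mul, Complex.normSq_mul, Complex.normSq_conj, Complex.normSq_eq_norm_sq (mj (pr i γ) (cmp i b)),
      Complex.normSq_eq_norm_sq (mj (pr j γ) (cmp j b)), mul_assoc]
  rw [h2, im_mobr γ hb i, im_mobr γ hb j]
  ring

omit [Fintype ι] in
private theorem Off_Fslice (i j k : ι) (hi : k ≠ i) (hj : k ≠ j) (b : ι → ℂ) (t : ℂ) :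
    Off_F β i j (Function.update b k t) = ((b i).im ^ 2 * (b j).im ^ 2) * Complex.normSq (β (Function.update b k t) i j) := by
  unfold Off_F
  rw [Function.update_of_ne (Ne.symm hi), Function.update_of_ne (Ne.symm hj)]

private theorem Off_lapN (H : OffH pr β c) (hb : b ∈ Hr ι) {i j k : ι} (hi : k ≠ i) {t : ℂ} (ht : t ∈ KW.hp) :
    KW.lapE (fun t => Complex.normSq (β (Function.update b k t) i j)) t =
      4 * (Complex.normSq (dz k (fun y => β y i j) (Function.update b k t)) + Complex.normSq (dzbar k (fun y => β y i j) (Function.update b k t))) := by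
  have h1 := slice_lap (Off_N H i j) hb k ht
  rw [Off_ddN H (update_mem hb k ht) hi] at h1
  have h2 := Complex.ofReal_inj.1 h1
  linarith

private theorem Off_leaf (hB : CompactBase (Hr ι) (mobr pr)) (H : OffH pr β c) (i j : ι) :
    ∀ b ∈ Hr ι, ∀ b' ∈ Hr ι, b i = b' i → b j = b' j → Off_F β i j b = Off_F β i j b' := by
  intro b hb b' hb' h1 h2
  refine leaf_set hB ({i, j} : Finset ι) (Off_Fs H i j) (fun γ b hb => Off_Finv H i j γ hb) ?_ b hb b' hb' ?_
  · intro k hk b hb t ht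
    have hki : k ≠ i := fun h => hk (by rw [h]; simp)
    have hkj : k ≠ j := fun h => hk (by rw [h]; simp)
    rw [Off_lapc (φ := fun t => Off_F β i j (Function.update b k t)) (fun w _ => Off_Fslice i j k hki hkj b w) ht,
      Off_lapN H hb hki ht]
    have := Complex.normSq_nonneg (dz k (fun y => β y i j) (Function.update b k t))
    have := Complex.normSq_nonneg (dzbar k (fun y => β y i j) (Function.update b k t))
    positivity
  · intro k hk
    rcases Finset.mem_insert.1 hk with h | h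
    · rw [h, h1]
    · rw [Finset.mem_singleton.1 h, h2]

private theorem Off_zero (hB : CompactBase (Hr ι) (mobr pr)) (H : OffH pr β c) (hb : b ∈ Hr ι) {i j k : ι} (hi : k ≠ i) (hj : k ≠ j) :
    dz k (fun y => β y i j) b = 0 ∧ dzbar k (fun y => β y i j) b = 0 := by
  have hpos : 0 < (b i).im ^ 2 * (b j).im ^ 2 := mul_pos (pow_pos (hb i) 2) (pow_pos (hb j) 2)
  have h1 : ∀ w ∈ KW.hp, Complex.normSq (β (Function.update b k w) i j) = Complex.normSq (β b i j) := by
    intro w hw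
    have h := Off_leaf hB H i j _ (update_mem hb k hw) _ hb (Function.update_of_ne (Ne.symm hi) _ _) (Function.update_of_ne (Ne.symm hj) _ _)
    rw [Off_Fslice i j k hi hj b w] at h
    exact mul_left_cancel₀ hpos.ne' h
  have h2 := Off_lapN H hb (j := j) hi (t := b k) (hb k)
  rw [Off_lap0 h1 (hb k), Function.update_eq_self] at h2
  have h3 := Complex.normSq_nonneg (dz k (fun y => β y i j) b)
  have h4 := Complex.normSq_nonneg (dzbar k (fun y => β y i j) b)
  refine ⟨Complex.normSq_eq_zero.1 ?_, Complex.normSq_eq_zero.1 ?_⟩ <;> linarith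

private theorem Off_slice (hB : CompactBase (Hr ι) (mobr pr)) (H : OffH pr β c) (hb : b ∈ Hr ι) {i j k : ι} (hi : k ≠ i) (hj : k ≠ j)
    {w : ℂ} (hw : w ∈ KW.hp) : β (Function.update b k w) i j = β b i j := by
  obtain ⟨h, hh⟩ : ∃ h : (ι → ℂ) → ℂ, h = fun y => β y i j := ⟨_, rfl⟩
  have hs : ContDiffOn ℝ ∞ h (Hr ι) := by rw [hh]; exact H.sm i j
  have hder : ∀ t ∈ KW.hp, HasFDerivAt (fun t => h (Function.update b k t)) (0 : ℂ →L[ℝ] ℂ) t := by
    intro t ht
    have hm := update_mem hb k ht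
    have h1 := (Off_diff hs hm).hasFDerivAt.comp t (hasFDerivAt_update (𝕜 := ℝ) b (i := k) t)
    refine h1.congr_fderiv ?_
    ext v
    show fderiv ℝ h (Function.update b k t) ((ContinuousLinearMap.pi (Pi.single k (ContinuousLinearMap.id ℝ ℂ))) v) = 0
    rw [fderiv_eq_sum]
    refine Finset.sum_eq_zero fun l _ => ?_
    by_cases hl : l = k
    · subst hl
      have hz := Off_zero hB H hm (j := j) hi hj
      rw [hh, hz.1, hz.2]
      simp
    · have h0 : (ContinuousLinearMap.pi (Pi.single k (ContinuousLinearMap.id ℝ ℂ)) : ℂ →L[ℝ] (ι → ℂ)) v l = 0 := by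
        rw [ContinuousLinearMap.pi_apply, Pi.single_eq_of_ne hl]
        rfl
      rw [h0]
      simp
  have hopen : IsOpen KW.hp := KW.isOpen_hp
  have hpre : IsPreconnected KW.hp := by
    have : Convex ℝ KW.hp := convex_halfSpace_im_gt 0
    exact this.isPreconnected
  have h5 := IsOpen.is_const_of_fderiv_eq_zero (𝕜 := ℝ) hopen hpre (f := fun t => h (Function.update b k t))
    (fun t ht => (hder t ht).differentiableAt.differentiableWithinAt) (fun t ht => (hder t ht).fderiv) hw (hb k)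
  have h6 : h (Function.update b k w) = h (Function.update b k (b k)) := h5
  rw [Function.update_eq_self, hh] at h6
  exact h6

private theorem Off_dep (hB : CompactBase (Hr ι) (mobr pr)) (H : OffH pr β c) (i j : ι) (hb : b ∈ Hr ι) (hb' : b' ∈ Hr ι)
    (h1 : b i = b' i) (h2 : b j = b' j) : β b i j = β b' i j := by
  have key : ∀ u : Finset ι, (fun l => if l ∈ u then b l else b' l) ∈ Hr ι ∧
      β (fun l => if l ∈ u then b l else b' l) i j = β b' i j := by
    intro u
    induction u using Finset.induction_on with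
    | empty => simpa using hb'
    | insert k u hk ih =>
      obtain ⟨h3, h4⟩ := ih
      obtain ⟨q, hq⟩ : ∃ q : ι → ℂ, q = fun l => if l ∈ u then b l else b' l := ⟨_, rfl⟩
      rw [← hq] at h3 h4
      have e : (fun l => if l ∈ insert k u then b l else b' l) = Function.update q k (b k) := by
        funext l
        rw [hq]
        by_cases hl : l = k
        · subst hl
          simp
        · rw [Function.update_of_ne hl]
          simp [hl]
      rw [e]
      refine ⟨update_mem h3 k (hb k), ?_⟩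
      by_cases hki : k = i
      · have h5 : Function.update q k (b k) = q := by
          have h6 : b k = q k := by
            rw [hq]
            simp only [hk, if_false]
            rw [hki, h1]
          rw [h6, Function.update_eq_self]
        rw [h5, h4]
      · by_cases hkj : k = j
        · have h5 : Function.update q k (b k) = q := by
            have h6 : b k = q k := by
              rw [hq]
              simp only [hk, if_false]
              rw [hkj, h2]
            rw [h6, Function.update_eq_self]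
          rw [h5, h4]
        · rw [Off_slice hB H h3 hki hkj (hb k), h4]
  have h := (key Finset.univ).2
  simpa using h

/-- The form is invariant: the identity for the entries. -/
theorem inv_entry (hinv : ∀ F ∈ Set.range (mobr pr), ∀ x ∈ Hr ι, (jac F x)ᵀ * β (F x) * mconj (jac F x) = β x) (γ : G) (hb : b ∈ Hr ι) (i j : ι) :
    β (mobr pr γ b) i j * mj (pr i γ) (cmp i b) * conj (mj (pr j γ) (cmp j b)) = β b i j := by
  have h1 := congrFun (congrFun (hinv _ ⟨γ, rfl⟩ b hb) i) j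
  have hJ : jac (mobr pr γ) b = Matrix.diagonal fun i => mj (pr i γ) (cmp i b) := by
    ext k l
    rw [jac_mobr γ hb, Matrix.diagonal_apply]
  have hJc : mconj (jac (mobr pr γ) b) = Matrix.diagonal fun i => conj (mj (pr i γ) (cmp i b)) := by
    rw [hJ]
    unfold mconj
    rw [Matrix.diagonal_map (map_zero _)]
  rw [hJc, hJ, Matrix.diagonal_transpose, Matrix.mul_diagonal, Matrix.diagonal_mul] at h1
  rw [← h1, mul_comm (β (mobr pr γ b) i j)]

/-- A closed invariant hermitian form with `y_a² β_aa = c_a` is `∑ c_a dz_a dz̄_a / y_a²`. -/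
theorem off_poin (hB : CompactBase (Hr ι) (mobr pr)) (hD : DensePairs pr) (hsm : ∀ i j, ContDiffOn ℝ ∞ (fun x => β x i j) (Hr ι))
    (hH : ∀ b ∈ Hr ι, (β b).IsHermitian) (hcl : ∀ x ∈ Hr ι, ∀ i j k, dz k (fun y => β y i j) x = dz i (fun y => β y k j) x)
    (hinv : ∀ F ∈ Set.range (mobr pr), ∀ x ∈ Hr ι, (jac F x)ᵀ * β (F x) * mconj (jac F x) = β x)
    (hd : ∀ b ∈ Hr ι, ∀ a, ((b a).im : ℂ) ^ 2 * β b a a = ((c a : ℝ) : ℂ)) : ∀ b ∈ Hr ι, β b = poin c b := by
  have H : OffH pr β c := by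
    refine ⟨hsm, fun b hb i j => ?_, hcl, fun γ b hb i j => inv_entry hinv γ hb i j, fun b hb a => ?_⟩
    · have h := (hH b hb).apply i j
      exact h.symm
    · have h0 : ((b a).im : ℂ) ≠ 0 := by exact_mod_cast (hb a).ne'
      have h1 := hd b hb a
      push_cast
      rw [eq_div_iff (pow_ne_zero 2 h0), mul_comm]
      exact h1
  intro b hb
  ext i j
  unfold poin
  rw [Matrix.diagonal_apply]
  split_ifs with h
  · subst h
    exact H.dg b hb i
  · exact den_zero hD h (h := fun y => β y i j) (H.sm i j).continuousOn (fun γ b hb => H.inv γ b hb i j)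
      (fun b hb b' hb' h1 h2 => Off_dep hB H i j hb hb' h1 h2) hb

end TRed
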