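import Pool.Agent.Lib.MP_464db4_gt.TI.Defs
import Pool.Agent.Lib.MP_464db4_gt.TH.Smp

/-!
# TI-Pmin: the constants are positive

If `c a ≤ 0` then `lapi a U = c a - f a < 0` on `Hr ι`, so `-U` is subharmonic along the slices in the direction `a`; `-U` has a maximum at some point `p` (invariance, cocompactness), so by the strong maximum principle `KW.smp` the slice through `p` is
constant and `lapi a U p = 0`, a contradiction.
-/

namespace TRed

open Complex Matrix MeasureTheory YT Set Filter Topology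
open scoped ContDiff ComplexConjugate

variable {ι : Type} [Fintype ι] [DecidableEq ι] {G : Type} [Group G] {pr : ι → G →* Matrix.SpecialLinearGroup (Fin 2) ℝ}

private theorem Pmin_neg (φ : ℂ → ℝ) (z : ℂ) : KW.lapE (fun t => -φ t) z = -KW.lapE φ z := by
  have h1 : ∀ v : ℂ, (fun w => fderiv ℝ (fun t => -φ t) w v) = fun w => -fderiv ℝ φ w v := by
    intro v
    funext w
    rw [fderiv_fun_neg]
    rfl
  unfold KW.lapE KW.dx KW.dy
  rw [h1 1, h1 I, fderiv_fun_neg, fderiv_fun_neg]
  show -(fderiv ℝ (fun w => fderiv ℝ φ w 1) z 1) + -(fderiv ℝ (fun w => fderiv ℝ φ w I) z I) = _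
  ring

private theorem Pmin_const (M : ℝ) (z : ℂ) : KW.lapE (fun _ => M) z = 0 := by
  have e1 : KW.dx (fun _ : ℂ => M) = fun _ => 0 := by
    funext w
    simp [KW.dx]
  have e2 : KW.dy (fun _ : ℂ => M) = fun _ => 0 := by
    funext w
    simp [KW.dy]
  unfold KW.lapE
  rw [e1, e2]
  simp [KW.dx, KW.dy]

theorem diag_pos (hB : CompactBase (Hr ι) (mobr pr)) {f : ι → (ι → ℂ) → ℝ} (hpos : ∀ a, ∀ z ∈ Hr ι, 0 < f a z) {U : (ι → ℂ) → ℝ}
    (hU : ContDiffOn ℝ ∞ U (Hr ι)) (hi : InvG pr U) {c : ι → ℝ} (hc : ∀ a, ∀ z ∈ Hr ι, f a z + lapi a U z = c a) (a : ι) : 0 < c a := by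
  by_contra hca
  rw [not_lt] at hca
  obtain ⟨K, hK, hKc, hKs⟩ := hB.cocompact
  obtain ⟨b₀, hb₀⟩ := hB.conn.nonempty
  have hKne : K.Nonempty := by
    obtain ⟨γ, hγ⟩ := hKs b₀ hb₀
    exact ⟨_, hγ⟩
  obtain ⟨p, hpK, hpmin⟩ := hKc.exists_isMinOn hKne (hU.continuousOn.mono hK)
  have hp : p ∈ Hr ι := hK hpK
  have hmin : ∀ b ∈ Hr ι, U p ≤ U b := by
    intro b hb
    obtain ⟨γ, hγ⟩ := hKs b hb
    rw [← hi γ b hb]
    exact hpmin hγ
  -- the Laplacian along the slice is negative
  have hneg : ∀ t ∈ KW.hp, KW.lapE (fun t => U (Function.update p a t)) t < 0 := by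
    intro t ht
    have hm := update_mem hp a ht
    have h1 := hc a _ hm
    have h2 := hpos a _ hm
    have h3 : lapi a U (Function.update p a t) = t.im ^ 2 * KW.lapE (fun t => U (Function.update p a t)) t := by
      have h4 := congrFun (slice_lapi a U p) t
      exact h4
    have h5 : t.im ^ 2 * KW.lapE (fun t => U (Function.update p a t)) t < 0 := by
      rw [← h3]
      linarith
    have h6 : 0 < t.im ^ 2 := pow_pos ht 2
    by_contra h7
    rw [not_lt] at h7
    have := mul_nonneg h6.le h7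
    linarith
  have hs := KW.smp (φ := fun t => -U (Function.update p a t)) (slice_smooth hU hp a).neg
    (fun z hz => by
      rw [Pmin_neg]
      have := hneg z hz
      linarith) (M := -U p) (fun z hz => neg_le_neg (hmin _ (update_mem hp a hz))) (z₀ := p a) (hp a)
    (by
      show -U (Function.update p a (p a)) = -U p
      rw [Function.update_eq_self])
  have h1 := hneg (p a) (hp a)
  have h2 : KW.lapH (fun t => U (Function.update p a t)) (p a) = KW.lapH (fun _ => U p) (p a) :=
    KW.lapH_congr_hp (fun w hw => by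
      have := hs w hw
      linarith) (hp a)
  unfold KW.lapH at h2
  rw [Pmin_const, mul_zero] at h2
  have h3 : 0 < (p a).im ^ 2 := pow_pos (hp a) 2
  rcases mul_eq_zero.1 h2 with h4 | h4
  · exact h3.ne' h4
  · rw [h4] at h1
    exact lt_irrefl _ h1

end TRed
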