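import Pool.Agent.Lib.MP_464db4_gt.TI.Dia
import Pool.Agent.Lib.MP_464db4_gt.TI.Pmin
import Pool.Agent.Lib.MP_464db4_gt.TI.FrB
import Pool.Agent.Lib.MP_464db4_gt.TI.Off
import Pool.Agent.Lib.MP_464db4_gt.TH.Res

/-!
# TI-Fin: Kähler classes of compact quotients of products of upper half planes, and the main theorem

`poin_class`: under `DensePairs pr` every invariant Kähler form `β` on `Hr ι` is cohomologous to a form `poin c` with `c > 0`.
`diag_const` with `f a = y_a² β_aa` gives an invariant `U` and constants `c a` with `y_a² (β + 4 ∂∂̄ U)_aa = c a`, `diag_pos` gives `c a > 0`, `off_poin` gives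
`β + 4 ∂∂̄ U = poin c`.
-/

namespace TRed

open Complex Matrix MeasureTheory YT
open scoped ContDiff ComplexConjugate ComplexOrder

variable {ι κ : Type} [Fintype ι] [DecidableEq ι] [Fintype κ] [DecidableEq κ] {G : Type} [Group G] {pr : ι → G →* Matrix.SpecialLinearGroup (Fin 2) ℝ}

/-- Every Kähler class of the quotient contains a sum of Poincaré forms. -/
theorem poin_class (hB : CompactBase (Hr ι) (mobr pr)) (hD : DensePairs pr) {β : (ι → ℂ) → Matrix ι ι ℂ}
    (hβ : IsKahler (Hr ι) (Set.range (mobr pr)) β) :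
    ∃ c : ι → ℝ, (∀ i, 0 < c i) ∧ Cohomologous (Hr ι) (Set.range (mobr pr)) β (poin c) := by
  have hH : ∀ b ∈ Hr ι, (β b).IsHermitian := fun b hb => (hβ.pos b hb).isHermitian
  obtain ⟨U, c, hU, hi, hc⟩ := diag_const hB (f := fdia β) (fun a => fdia_smooth hβ.smooth a) (fun a => fdia_inv hβ.inv a)
    (fun a b => fdia_symm hβ.smooth hH hβ.closed a b)
  have hpos : ∀ a, 0 < c a := fun a => diag_pos hB (f := fdia β) (fun a z hz => fdia_pos hβ hz a) hU hi hc a
  have hoff : ∀ b ∈ Hr ι, bpl β U b = poin c b := by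
    refine off_poin hB hD (bpl_smooth hβ.smooth hU) (bpl_herm hH hU) (bpl_closed hβ.smooth hU hβ.closed) (bpl_inv hβ.inv hU hi) fun b hb a => ?_
    rw [bpl_diag hH hU hb a, hc a b hb]
  obtain ⟨e, he⟩ := bpl_coh (pr := pr) (β := β) hU hi
  exact ⟨c, hpos, e, he.congr hB.isOpen (fun _ _ => rfl) fun x hx => (hoff x hx).symm⟩

/-- Every Kähler class of the total space of a family of complex tori contains a form of constant scalar curvature. -/
theorem every_class_dense (hB : CompactBase (Hr ι) (mobr pr)) (hD : DensePairs pr) (T : TorusFamily κ (Hr ι) (mobr pr)) :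
    EveryClassCscK (tot κ (Hr ι)) T.total :=
  every_class hB T fun _ hβ => poin_class hB hD hβ

/-- If every Kähler class of the base contains a sum of Poincaré forms, then every Kähler class of the total space contains a form of constant negative scalar
curvature which is flat on the fibres. -/
theorem every_class_strong [Nonempty ι] (hB : CompactBase (Hr ι) (mobr pr)) (T : TorusFamily κ (Hr ι) (mobr pr))
    (hall : ∀ β, IsKahler (Hr ι) (Set.range (mobr pr)) β → ∃ c : ι → ℝ, (∀ i, 0 < c i) ∧ Cohomologous (Hr ι) (Set.range (mobr pr)) β (poin c))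
    {g : (ι ⊕ κ → ℂ) → Matrix (ι ⊕ κ) (ι ⊕ κ) ℂ} (hg : IsKahler (tot κ (Hr ι)) T.total g) :
    ∃ g', IsKahler (tot κ (Hr ι)) T.total g' ∧ FibreFlat T g' ∧ Cohomologous (tot κ (Hr ι)) T.total g g' ∧
      ∃ r : ℝ, 0 < r ∧ ∀ x ∈ tot κ (Hr ι), scal g' x = ((-r : ℝ) : ℂ) := by
  obtain ⟨gm, hgm, hf, hcoh⟩ := exists_flat hB T hg
  obtain ⟨c, hc, hc'⟩ := hall _ (sch_isKahler hB hgm hf)
  obtain ⟨g', h1, h2, h3, r, h4, h5⟩ := asm_main hB hgm hf hcoh hc hc'
  exact ⟨g', h1, h2, h3, r, h4 inferInstance, h5⟩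

end TRed
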