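import Pool.Agent.Lib.MP_464db4_gt.TI.Defs
import Pool.Agent.Lib.MP_464db4_gt.TI.Off

/-!
# TI-FrA: the functions `y_a² β_aa` of an invariant closed form
-/

namespace TRed

open Complex Matrix MeasureTheory YT
open scoped ContDiff ComplexConjugate ComplexOrder

variable {ι : Type} [Fintype ι] [DecidableEq ι] {G : Type} [Group G] {pr : ι → G →* Matrix.SpecialLinearGroup (Fin 2) ℝ}
  {β : (ι → ℂ) → Matrix ι ι ℂ} {b : ι → ℂ}

/-- The function `y_a² β_aa`. -/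
noncomputable def fdia (β : (ι → ℂ) → Matrix ι ι ℂ) (a : ι) (b : ι → ℂ) : ℝ := (b a).im ^ 2 * (β b a a).re

/-- The function `4 y_a² ∂_a ∂̄_a φ`. -/
theorem lapi_eq {φ : (ι → ℂ) → ℝ} (hφ : ContDiffOn ℝ ∞ φ (Hr ι)) (hb : b ∈ Hr ι) (a : ι) :
    4 * ((b a).im : ℂ) ^ 2 * dz a (fun y => dzbar a (fun y => ((φ y : ℝ) : ℂ)) y) b = ((lapi a φ b : ℝ) : ℂ) := by
  have h := slice_lap hφ hb a (hb a)
  rw [Function.update_eq_self] at h
  rw [h]
  unfold lapi KW.lapH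
  push_cast
  ring

private theorem FrA_dxc {φ ψ : ℂ → ℝ} {r : ℝ} (h : ∀ w ∈ KW.hp, φ w = r * ψ w) {t : ℂ} (ht : t ∈ KW.hp) :
    KW.dx φ t = r * KW.dx ψ t := by
  rw [KW.dx_congr_hp h ht]
  unfold KW.dx
  have h1 := fderiv_const_smul_field (𝕜 := ℝ) (f := ψ) r
  have h2 : (fun w => r * ψ w) = r • ψ := rfl
  rw [h2, h1]
  rfl

private theorem FrA_dyc {φ ψ : ℂ → ℝ} {r : ℝ} (h : ∀ w ∈ KW.hp, φ w = r * ψ w) {t : ℂ} (ht : t ∈ KW.hp) :
    KW.dy φ t = r * KW.dy ψ t := by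
  rw [KW.dy_congr_hp h ht]
  unfold KW.dy
  have h1 := fderiv_const_smul_field (𝕜 := ℝ) (f := ψ) r
  have h2 : (fun w => r * ψ w) = r • ψ := rfl
  rw [h2, h1]
  rfl

private theorem FrA_lapc {φ ψ : ℂ → ℝ} {r : ℝ} (h : ∀ w ∈ KW.hp, φ w = r * ψ w) {t : ℂ} (ht : t ∈ KW.hp) :
    KW.lapE φ t = r * KW.lapE ψ t := by
  unfold KW.lapE
  rw [FrA_dxc (fun w hw => FrA_dxc h hw) ht, FrA_dyc (fun w hw => FrA_dyc h hw) ht, mul_add]

omit [DecidableEq ι] in
theorem im_smooth (a : ι) : ContDiff ℝ ∞ fun y : ι → ℂ => (y a).im := Complex.imCLM.contDiff.comp (contDiff_apply ℝ ℂ a)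

theorem fdia_smooth (hsm : ∀ i j, ContDiffOn ℝ ∞ (fun x => β x i j) (Hr ι)) (a : ι) : ContDiffOn ℝ ∞ (fdia β a) (Hr ι) :=
  ((im_smooth a).pow 2).contDiffOn.mul (Complex.reCLM.contDiff.comp_contDiffOn (hsm a a))

theorem fdia_inv (hinv : ∀ F ∈ Set.range (mobr pr), ∀ x ∈ Hr ι, (jac F x)ᵀ * β (F x) * mconj (jac F x) = β x) (a : ι) : InvG pr (fdia β a) := by
  intro γ b hb
  unfold fdia
  have h1 := inv_entry hinv γ hb a a
  rw [mul_assoc, Complex.mul_conj] at h1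
  rw [← h1, Complex.mul_re, Complex.ofReal_re, Complex.ofReal_im, mul_zero, sub_zero, im_mobr γ hb a, Complex.normSq_eq_norm_sq]
  ring

theorem fdia_pos (hβ : IsKahler (Hr ι) (Set.range (mobr pr)) β) (hb : b ∈ Hr ι) (a : ι) : 0 < fdia β a b := by
  have h1 := (hβ.pos b hb).diag_pos (i := a)
  exact mul_pos (pow_pos (hb a) 2) (Complex.pos_iff.1 h1).1

private theorem FrA_clb (hH : ∀ b ∈ Hr ι, (β b).IsHermitian) (hcl : ∀ x ∈ Hr ι, ∀ i j k, dz k (fun y => β y i j) x = dz i (fun y => β y k j) x)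
    (hb : b ∈ Hr ι) (i j k : ι) : dzbar k (fun y => β y i j) b = dzbar j (fun y => β y i k) b := by
  have e : ∀ i j, ∀ y ∈ Hr ι, β y i j = conj (β y j i) := fun i j y hy => ((hH y hy).apply i j).symm
  rw [dzbar_congr_on isOpen_Hr (e i j) hb k, dzbar_congr_on isOpen_Hr (e i k) hb j, dzbar_conj, dzbar_conj, hcl b hb j i k]

/-- `∂_a ∂̄_a β_cc = ∂_c ∂̄_c β_aa`. -/
private theorem FrA_dd (hsm : ∀ i j, ContDiffOn ℝ ∞ (fun x => β x i j) (Hr ι)) (hH : ∀ b ∈ Hr ι, (β b).IsHermitian)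
    (hcl : ∀ x ∈ Hr ι, ∀ i j k, dz k (fun y => β y i j) x = dz i (fun y => β y k j) x) (hb : b ∈ Hr ι) (a c : ι) :
    dz a (fun y => dzbar a (fun y => β y c c) y) b = dz c (fun y => dzbar c (fun y => β y a a) y) b := by
  rw [dz_congr_on isOpen_Hr (fun y hy => FrA_clb hH hcl hy c c a) hb a, dz_dzbar_comm isOpen_Hr (hsm c a) hb a c,
    dzbar_congr_on isOpen_Hr (fun y hy => hcl y hy c a a) hb c, ← dz_dzbar_comm isOpen_Hr (hsm a a) hb c c]

/-- `4 ∂_a ∂̄_a β_cc` as a Laplacian. -/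
private theorem FrA_lap (hsm : ∀ i j, ContDiffOn ℝ ∞ (fun x => β x i j) (Hr ι)) (hH : ∀ b ∈ Hr ι, (β b).IsHermitian) (hb : b ∈ Hr ι) (a c : ι) :
    dz a (fun y => dzbar a (fun y => β y c c) y) b = ((KW.lapE (fun t => (β (Function.update b a t) c c).re) (b a) / 4 : ℝ) : ℂ) := by
  have hs : ContDiffOn ℝ ∞ (fun y => (β y c c).re) (Hr ι) := Complex.reCLM.contDiff.comp_contDiffOn (hsm c c)
  have h := slice_lap hs hb a (hb a)
  rw [Function.update_eq_self] at h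
  rw [← h]
  refine dz_congr_on isOpen_Hr (fun y hy => ?_) hb a
  refine dzbar_congr_on isOpen_Hr (fun x hx => ?_) hy a
  have h2 := (hH x hx).apply c c
  have h3 : conj (β x c c) = β x c c := h2
  exact (Complex.conj_eq_iff_re.1 h3).symm

theorem fdia_symm (hsm : ∀ i j, ContDiffOn ℝ ∞ (fun x => β x i j) (Hr ι)) (hH : ∀ b ∈ Hr ι, (β b).IsHermitian)
    (hcl : ∀ x ∈ Hr ι, ∀ i j k, dz k (fun y => β y i j) x = dz i (fun y => β y k j) x) (a c : ι) :
    ∀ z ∈ Hr ι, lapi a (fdia β c) z = lapi c (fdia β a) z := by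
  intro z hz
  by_cases hac : a = c
  · rw [hac]
  have key : ∀ a c : ι, a ≠ c → lapi a (fdia β c) z = (z a).im ^ 2 * ((z c).im ^ 2 * KW.lapE (fun t => (β (Function.update z a t) c c).re) (z a)) := by
    intro a c hac
    unfold lapi KW.lapH
    have h1 : ∀ w ∈ KW.hp, fdia β c (Function.update z a w) = (z c).im ^ 2 * (β (Function.update z a w) c c).re := by
      intro w _
      unfold fdia
      rw [Function.update_of_ne (Ne.symm hac)]
    rw [FrA_lapc (φ := fun t => fdia β c (Function.update z a t)) (ψ := fun t => (β (Function.update z a t) c c).re) h1 (hz a)]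
  have h1 := FrA_dd hsm hH hcl hz a c
  rw [FrA_lap hsm hH hz a c, FrA_lap hsm hH hz c a] at h1
  have h2 := Complex.ofReal_inj.1 h1
  have h3 : KW.lapE (fun t => (β (Function.update z a t) c c).re) (z a) = KW.lapE (fun t => (β (Function.update z c t) a a).re) (z c) := by linarith
  rw [key a c hac, key c a (Ne.symm hac), h3]
  ring

end TRed
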