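import Pool.Agent.Lib.MP_464db4_gt.TI.ParA
import Pool.Agent.Lib.MP_464db4_gt.TI.Inv

/-!
# TI-Max: the strong maximum principle for the averages
-/

namespace TRed

open Complex Matrix MeasureTheory YT Set Filter Topology
open scoped ContDiff ComplexConjugate

variable {ι : Type} [Fintype ι] [DecidableEq ι] {G : Type} [Group G] {pr : ι → G →* Matrix.SpecialLinearGroup (Fin 2) ℝ}

private theorem Max_qq {z w : ℂ} (hz : 0 < z.im) (hw : 0 < w.im) : KW.qq ((w - (z.re : ℂ)) / (z.im : ℂ)) = KW.qp z w := by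
  have e1 : ((w - (z.re : ℂ)) / (z.im : ℂ)).re = (w.re - z.re) / z.im := by
    rw [Complex.div_ofReal_re]
    simp
  have e2 : ((w - (z.re : ℂ)) / (z.im : ℂ)).im = w.im / z.im := by
    rw [Complex.div_ofReal_im]
    simp
  unfold KW.qq KW.qp
  rw [e1, e2, ← Complex.normSq_eq_norm_sq, Complex.normSq_apply]
  simp only [Complex.sub_re, Complex.sub_im]
  field_simp
  ring

private theorem Max_off {κ : ℝ → ℝ} {w : ℂ} (hw : w ∉ KW.hp) : KW.kn κ w = 0 := by
  unfold KW.kn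
  rw [KW.ex_of_not_mem hw]

private theorem Max_ae {ν κ : ℝ → ℝ} {R C Λ : ℝ} (h : KW.KPair ν κ R C Λ) {φ : ℂ → ℝ} (hφ : ContinuousOn φ KW.hp) {M : ℝ}
    (hM : ∀ z ∈ KW.hp, φ z ≤ M) {z : ℂ} (hz : z ∈ KW.hp) (h0 : KW.PPf κ φ z = M) :
    (fun w => (M - φ (KW.aff z w)) * KW.kn κ w) =ᵐ[volume] 0 := by
  have hgK := KW.gker_kn h.profK
  have hi1 := KW.cv_integrable hgK hφ hz
  have hi2 : Integrable (fun w => (M - φ (KW.aff z w)) * KW.kn κ w) := by
    have h1 := (hgK.int.const_mul M).sub hi1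
    refine h1.congr (Eventually.of_forall fun w => ?_)
    show M * KW.kn κ w - φ (KW.aff z w) * KW.kn κ w = (M - φ (KW.aff z w)) * KW.kn κ w
    ring
  have hnn : ∀ w, 0 ≤ (M - φ (KW.aff z w)) * KW.kn κ w := by
    intro w
    by_cases hw : w ∈ KW.hp
    · exact mul_nonneg (sub_nonneg.2 (hM _ (KW.aff_mem hz hw))) (KW.kn_nonneg h.nonnegK w)
    · rw [Max_off hw, mul_zero]
  have he : ∫ w, (M - φ (KW.aff z w)) * KW.kn κ w = M * (∫ w, KW.kn κ w) - KW.cv (KW.kn κ) φ z := by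
    unfold KW.cv
    rw [← integral_const_mul, ← integral_sub (hgK.int.const_mul M) hi1]
    congr 1
    funext w
    ring
  have hc := KW.massK_pos h
  unfold KW.PPf at h0
  rw [div_eq_iff hc.ne'] at h0
  have hle : ∫ w, (M - φ (KW.aff z w)) * KW.kn κ w = 0 := by
    rw [he, h0, sub_self]
  exact (integral_eq_zero_iff_of_nonneg hnn hi2).1 hle

theorem PPf_max {ν κ : ℝ → ℝ} {R C Λ : ℝ} (h : KW.KPair ν κ R C Λ) {r : ℝ} (hr : 0 < r) (hpos : ∀ q, 0 < q → q < r → 0 < κ q) {φ : ℂ → ℝ}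
    (hφ : ContinuousOn φ KW.hp) {M : ℝ} (hM : ∀ z ∈ KW.hp, φ z ≤ M) {z : ℂ} (hz : z ∈ KW.hp) (h0 : KW.PPf κ φ z = M) {t : ℂ} (ht : t ∈ KW.hp)
    (hq : KW.qp z t < r) : φ t = M := by
  have hae := Max_ae h hφ hM hz h0
  have hqc : ContinuousOn KW.qq KW.hp := KW.qq_contDiffOn.continuousOn
  have hcont : ContinuousOn (fun w => φ (KW.aff z w)) KW.hp :=
    hφ.comp ((KW.continuous_aff.comp (continuous_const.prodMk continuous_id)).continuousOn) fun w hw => KW.aff_mem hz hw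
  have hO1 : IsOpen (KW.hp ∩ KW.qq ⁻¹' (Ioo 0 r)) := hqc.isOpen_inter_preimage KW.isOpen_hp isOpen_Ioo
  have hO2 : IsOpen (KW.hp ∩ (fun w => φ (KW.aff z w)) ⁻¹' (Iio M)) := hcont.isOpen_inter_preimage KW.isOpen_hp isOpen_Iio
  have hO := hO1.inter hO2
  have hnull : volume ((KW.hp ∩ KW.qq ⁻¹' (Ioo 0 r)) ∩ (KW.hp ∩ (fun w => φ (KW.aff z w)) ⁻¹' (Iio M))) = 0 := by
    refine measure_mono_null (fun w hw => ?_) (ae_iff.1 hae)
    obtain ⟨⟨hw1, hw2⟩, -, hw3⟩ := hw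
    have e1 : 0 < KW.kn κ w := by
      rw [KW.kn_eq hw1]
      exact div_pos (hpos _ hw2.1 hw2.2) (pow_pos hw1 2)
    have e2 : 0 < M - φ (KW.aff z w) := sub_pos.2 hw3
    exact (mul_pos e2 e1).ne'
  rw [hO.measure_eq_zero_iff (μ := (volume : Measure ℂ))] at hnull
  have hall : ∀ w ∈ KW.hp, 0 < KW.qq w → KW.qq w < r → φ (KW.aff z w) = M := by
    intro w hw h1 h2
    refine le_antisymm (hM _ (KW.aff_mem hz hw)) (not_lt.1 fun h3 => ?_)
    have : w ∈ (KW.hp ∩ KW.qq ⁻¹' (Ioo 0 r)) ∩ (KW.hp ∩ (fun w => φ (KW.aff z w)) ⁻¹' (Iio M)) := ⟨⟨hw, h1, h2⟩, hw, h3⟩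
    rw [hnull] at this
    exact this
  have hI : (I : ℂ) ∈ KW.hp := by
    rw [KW.mem_hp, I_im]
    exact one_pos
  have hqI : KW.qq I = 0 := by
    rw [KW.qq_norm hI]
    simp
  have hatI : φ (KW.aff z I) = M := by
    have h1 : ∀ᶠ w in 𝓝[≠] (I : ℂ), φ (KW.aff z w) = M := by
      have h2 : ∀ᶠ w in 𝓝 (I : ℂ), KW.qq w < r := by
        have hc : ContinuousAt KW.qq I := hqc.continuousAt (KW.isOpen_hp.mem_nhds hI)
        exact hc.eventually_lt_const (by rw [hqI]; exact hr)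
      have h3 : ∀ᶠ w in 𝓝[≠] (I : ℂ), KW.qq w < r ∧ w ∈ KW.hp :=
        (h2.and (KW.isOpen_hp.mem_nhds hI)).filter_mono nhdsWithin_le_nhds
      filter_upwards [h3, self_mem_nhdsWithin] with w hw1 hw2
      exact hall w hw1.2 (KW.qq_pos hw1.2 hw2) hw1.1
    have h4 : Tendsto (fun w => φ (KW.aff z w)) (𝓝[≠] (I : ℂ)) (𝓝 (φ (KW.aff z I))) :=
      (hcont.continuousAt (KW.isOpen_hp.mem_nhds hI)).tendsto.mono_left nhdsWithin_le_nhds
    have h5 : Tendsto (fun w => φ (KW.aff z w)) (𝓝[≠] (I : ℂ)) (𝓝 M) :=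
      (tendsto_const_nhds (x := M)).congr' (h1.mono fun w hw => hw.symm)
    exact tendsto_nhds_unique h4 h5
  have hzi : (z.im : ℂ) ≠ 0 := by
    have h1 : 0 < z.im := hz
    exact_mod_cast h1.ne'
  obtain ⟨w, hwd⟩ : ∃ w : ℂ, w = (t - (z.re : ℂ)) / (z.im : ℂ) := ⟨_, rfl⟩
  have hwq : KW.qq w = KW.qp z t := by rw [hwd]; exact Max_qq hz ht
  have hwaff : KW.aff z w = t := by
    unfold KW.aff
    rw [hwd, mul_div_cancel₀ _ hzi]
    ring
  have hwm : w ∈ KW.hp := by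
    rw [KW.mem_hp, hwd, Complex.div_ofReal_im]
    have h1 : 0 < z.im := hz
    have h2 : 0 < t.im := ht
    have h3 : (t - (z.re : ℂ)).im = t.im := by simp
    rw [h3]
    positivity
  by_cases hwI : w = I
  · rw [← hwaff, hwI]
    exact hatI
  · rw [← hwaff]
    exact hall w hwm (KW.qq_pos hwm hwI) (by rw [hwq]; exact hq)

theorem avl_max {ν κ : ℝ → ℝ} {R C Λ : ℝ} (h : KW.KPair ν κ R C Λ) {r : ℝ} (hr : 0 < r) (hpos : ∀ q, 0 < q → q < r → 0 < κ q) (l : List ι)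
    {F : (ι → ℂ) → ℝ} (hF : ContinuousOn F (Hr ι)) {M : ℝ} (hM : ∀ b ∈ Hr ι, F b ≤ M) {p : ι → ℂ} (hp : p ∈ Hr ι) (h0 : avl κ l F p = M) {b : ι → ℂ}
    (hb : b ∈ Hr ι) (hq : ∀ j ∈ l, KW.qp (p j) (b j) < r) (he : ∀ j, j ∉ l → b j = p j) : F b = M := by
  induction l generalizing p with
  | nil =>
    have h1 : b = p := funext fun j => he j (List.not_mem_nil)
    rw [h1]
    exact h0
  | cons i l ih =>
    rw [avl_cons, avi_eq] at h0
    have h1 : avl κ l F (Function.update p i (b i)) = M :=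
      PPf_max h hr hpos (φ := fun t => avl κ l F (Function.update p i t)) (slice_contOn (avl_contOn h l hF) hp i)
        (fun z hz => avl_le h l hF hM (update_mem hp i hz)) (hp i) h0 (hb i) (hq i List.mem_cons_self)
    refine ih (update_mem hp i (hb i)) h1 ?_ ?_
    · intro j hj
      rcases eq_or_ne j i with rfl | hji
      · rw [Function.update_self]
        unfold KW.qp
        simpa using hr
      · rw [Function.update_of_ne hji]
        exact hq j (List.mem_cons_of_mem _ hj)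
    · intro j hj
      rcases eq_or_ne j i with rfl | hji
      · rw [Function.update_self]
      · rw [Function.update_of_ne hji]
        exact he j fun h2 => by
          rcases List.mem_cons.1 h2 with h3 | h3
          · exact hji h3
          · exact hj h3

theorem avl_fixed_const (hB : CompactBase (Hr ι) (mobr pr)) {ν κ : ℝ → ℝ} {R C Λ : ℝ} (h : KW.KPair ν κ R C Λ) {l : List ι} (hl : ∀ j, j ∈ l)
    {F : (ι → ℂ) → ℝ} (hF : ContinuousOn F (Hr ι)) (hi : InvG pr F) (hfix : ∀ b ∈ Hr ι, avl κ l F b = F b) : ∃ M : ℝ, ∀ b ∈ Hr ι, F b = M := by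
  obtain ⟨K, hK, hKc, hKs⟩ := hB.cocompact
  obtain ⟨b₀, hb₀⟩ := hB.conn.nonempty
  have hKne : K.Nonempty := by
    obtain ⟨γ, hγ⟩ := hKs b₀ hb₀
    exact ⟨_, hγ⟩
  obtain ⟨p, hpK, hp⟩ := hKc.exists_isMaxOn hKne (hF.mono hK)
  obtain ⟨M, hMd⟩ : ∃ M : ℝ, M = F p := ⟨_, rfl⟩
  have hmax : ∀ b ∈ Hr ι, F b ≤ M := by
    intro b hb
    obtain ⟨γ, hγ⟩ := hKs b hb
    rw [← hi γ b hb, hMd]
    exact hp hγ
  obtain ⟨r, hr, hpos⟩ := h.posK
  refine ⟨M, ?_⟩
  have hu : IsOpen (Hr ι ∩ {b | F b = M}) := by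
    rw [isOpen_iff_mem_nhds]
    rintro c ⟨hc1, hc2⟩
    have hc2' : F c = M := hc2
    have hc0 : avl κ l F c = M := by rw [hfix c hc1, hc2']
    have hev : ∀ᶠ b in 𝓝 c, ∀ j, KW.qp (c j) (b j) < r := by
      rw [Filter.eventually_all]
      intro j
      have hcj : 0 < (c j).im := hc1 j
      have hden : 4 * (c j).im * (c j).im ≠ 0 := by positivity
      have hcont : ContinuousAt (fun b : ι → ℂ => KW.qp (c j) (b j)) c := by
        unfold KW.qp
        refine ContinuousAt.div ?_ ?_ hden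
        · exact ((continuous_const.sub (continuous_apply j)).norm.pow 2).continuousAt
        · exact (continuous_const.mul (Complex.continuous_im.comp (continuous_apply j))).continuousAt
      refine hcont.eventually_lt_const ?_
      unfold KW.qp
      simpa using hr
    filter_upwards [hev, isOpen_Hr.mem_nhds hc1] with b hb1 hb2
    exact ⟨hb2, avl_max h hr hpos l hF hmax hc1 hc0 hb2 (fun j _ => hb1 j) fun j hj => absurd (hl j) hj⟩
  have hv : IsOpen (Hr ι ∩ F ⁻¹' (Iio M)) := hF.isOpen_inter_preimage isOpen_Hr isOpen_Iio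
  have hd : Disjoint (Hr ι ∩ {b | F b = M}) (Hr ι ∩ F ⁻¹' (Iio M)) := by
    rw [Set.disjoint_left]
    rintro w ⟨-, hw1⟩ ⟨-, hw2⟩
    have h1 : F w = M := hw1
    have h2 : F w < M := hw2
    exact absurd h1 h2.ne
  have hc : Hr ι ⊆ (Hr ι ∩ {b | F b = M}) ∪ (Hr ι ∩ F ⁻¹' (Iio M)) := by
    intro w hw
    rcases (hmax w hw).lt_or_eq with h1 | h1
    · exact Or.inr ⟨hw, h1⟩
    · exact Or.inl ⟨hw, h1⟩
  have hsub := IsPreconnected.subset_left_of_subset_union hu hv hd hc ⟨p, hK hpK, hK hpK, hMd.symm⟩ hB.conn.isPreconnected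
  exact fun b hb => (hsub hb).2

end TRed
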