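import Pool.Agent.Lib.MP_464db4_gt.TI.Cpt
import Pool.Agent.Lib.MP_464db4_gt.TI.Max

/-!
# TI-Fred: the Fredholm alternative for the averages

Copy TH/PoC.lean (`TX_inj`, `poisson_P`).  `AY_inj`: maximum and minimum of `exr φ.val` on the compact set of representatives (`hB.cocompact`, `exr_inv φ.mem`), `AY_apply`, `avl_le`, `le_avl` give `φ.val p = 0`; so `avl κ l (exr φ.val) = exr φ.val` on
`Hr ι` and `avl_fixed_const` (TI/Max.lean) gives a constant, equal to the value `0` at `p`.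
`fredholm`: `g` is bounded on `Hr ι` (compact set of representatives, invariance; as `PoD_bdd`), so it defines an element of `YR pr` (`YR.mk`, `BoundedContinuousFunction.ofNormedAddCommGroup`, `exr`); the base point `p` is a point of `Hr ι`
(`hB.conn.nonempty`); `IsCompactOperator.hasEigenvalue_or_mem_resolventSet` as in `poisson_P` gives `ψ` with `ψ - AY ψ = g`, that is `ψ - avl κ l ψ = g - ψ.val p`.  `U = exr ψ.val`.
-/

namespace TRed

open Complex Matrix MeasureTheory YT Set Filter Topology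
open scoped ContDiff ComplexConjugate BoundedContinuousFunction

variable {ι : Type} [Fintype ι] [DecidableEq ι] {G : Type} [Group G] {pr : ι → G →* Matrix.SpecialLinearGroup (Fin 2) ℝ} {ν κ : ℝ → ℝ} {R C Λ : ℝ}
theorem AY_inj (hB : CompactBase (Hr ι) (mobr pr)) (h : KW.KPair ν κ R C Λ) {l : List ι} (hl : ∀ j, j ∈ l) (p : HRt ι) {φ : YR pr}
    (hφ : AY h l pr p φ = φ) : φ = 0 := by
  obtain ⟨K, hKh, hK, hcov⟩ := hB.cocompact
  have hf : ContinuousOn (exr φ.val) (Hr ι) := exr_contOn φ.val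
  have hinv : InvG pr (exr φ.val) := exr_inv φ.mem
  have hKne : K.Nonempty := by
    obtain ⟨γ, hγ⟩ := hcov p.1 p.2
    exact ⟨_, hγ⟩
  obtain ⟨x, hxK, hx⟩ := hK.exists_isMaxOn hKne (hf.mono hKh)
  obtain ⟨y, hyK, hy⟩ := hK.exists_isMinOn hKne (hf.mono hKh)
  have hmax : ∀ b ∈ Hr ι, exr φ.val b ≤ exr φ.val x := by
    intro b hb
    obtain ⟨γ, hγK⟩ := hcov b hb
    rw [← hinv γ b hb]
    exact hx hγK
  have hmin : ∀ b ∈ Hr ι, exr φ.val y ≤ exr φ.val b := by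
    intro b hb
    obtain ⟨γ, hγK⟩ := hcov b hb
    rw [← hinv γ b hb]
    exact hy hγK
  have heq : ∀ b ∈ Hr ι, exr φ.val b = avl κ l (exr φ.val) b - φ.val p := by
    intro b hb
    have h1 := AY_apply h l p φ ⟨b, hb⟩
    rw [hφ] at h1
    rw [exr_of_mem _ hb]
    exact h1
  have h1 := avl_le h l hf hmax (hKh hxK)
  have h2 := le_avl h l hf hmin (hKh hyK)
  have h3 := heq x (hKh hxK)
  have h4 := heq y (hKh hyK)
  have h5 : φ.val p = 0 := le_antisymm (by linarith) (by linarith)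
  have h6 : ∀ b ∈ Hr ι, avl κ l (exr φ.val) b = exr φ.val b := by
    intro b hb
    have := heq b hb
    rw [h5, sub_zero] at this
    exact this.symm
  obtain ⟨M, hM⟩ := avl_fixed_const hB h hl hf hinv h6
  have h7 := hM p.1 p.2
  rw [exr_of_mem _ p.2] at h7
  have hM0 : M = 0 := by
    rw [← h7]
    exact h5
  refine YR.ext fun z => ?_
  have h8 := hM z.1 z.2
  rw [exr_of_mem _ z.2, hM0] at h8
  exact h8

theorem fredholm (hB : CompactBase (Hr ι) (mobr pr)) (h : KW.KPair ν κ R C Λ) {l : List ι} (hl : ∀ j, j ∈ l) {g : (ι → ℂ) → ℝ}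
    (hg : ContinuousOn g (Hr ι)) (hi : InvG pr g) :
    ∃ (U : (ι → ℂ) → ℝ) (m : ℝ), ContinuousOn U (Hr ι) ∧ InvG pr U ∧ ∀ b ∈ Hr ι, U b - avl κ l U b = g b - m := by
  obtain ⟨K, hKh, hK, hcov⟩ := hB.cocompact
  obtain ⟨b₀, hb₀⟩ := hB.conn.nonempty
  obtain ⟨p, -⟩ : ∃ p : HRt ι, p.1 = b₀ := ⟨⟨b₀, hb₀⟩, rfl⟩
  obtain ⟨V, hV⟩ := hK.exists_bound_of_continuousOn (hg.mono hKh)
  have hVb : ∀ b ∈ Hr ι, |g b| ≤ V := by
    intro b hb
    obtain ⟨γ, hγK⟩ := hcov b hb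
    have e := hV _ hγK
    rw [Real.norm_eq_abs, hi γ b hb] at e
    exact e
  obtain ⟨Φ, hΦ⟩ : ∃ Φ : HRt ι →ᵇ ℝ, ∀ z : HRt ι, Φ z = g z.1 :=
    ⟨BoundedContinuousFunction.ofNormedAddCommGroup (fun z : HRt ι => g z.1)
      (continuousOn_iff_continuous_domRestrict.1 hg) V (fun z => hVb z.1 z.2), fun z => rfl⟩
  have hΦS : Φ ∈ XR pr := by
    intro γ b
    rw [hΦ, hΦ]
    exact hi γ b.1 b.2
  have hc := AY_compact (pr := pr) hB h hl p
  rcases IsCompactOperator.hasEigenvalue_or_mem_resolventSet (T := AY h l pr p) (μ := 1) hc one_ne_zero with h2 | h2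
  · exfalso
    obtain ⟨v, hv⟩ := h2.exists_hasEigenvector
    have h3 : AY h l pr p v = (1 : ℝ) • v := hv.apply_eq_smul
    rw [one_smul] at h3
    exact hv.2 (AY_inj hB h hl p h3)
  · have h3 : IsUnit (algebraMap ℝ (YR pr →L[ℝ] YR pr) 1 - AY h l pr p) := h2
    obtain ⟨U, hU⟩ := h3
    obtain ⟨ψ, hψ⟩ : ∃ ψ : YR pr, (U : YR pr →L[ℝ] YR pr) ψ = YR.mk Φ hΦS := by
      refine ⟨(↑U⁻¹ : YR pr →L[ℝ] YR pr) (YR.mk Φ hΦS), ?_⟩
      have h5 : ((U : YR pr →L[ℝ] YR pr) * (↑U⁻¹ : YR pr →L[ℝ] YR pr)) (YR.mk Φ hΦS) = YR.mk Φ hΦS := by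
        rw [U.mul_inv]
        rfl
      exact h5
    rw [hU, map_one] at hψ
    have h5 : ψ - AY h l pr p ψ = YR.mk Φ hΦS := hψ
    refine ⟨exr ψ.val, ψ.val p, exr_contOn ψ.val, exr_inv ψ.mem, fun b hb => ?_⟩
    have h6 : ψ.val ⟨b, hb⟩ - (AY h l pr p ψ).val ⟨b, hb⟩ = g b := by
      have h7 : (ψ - AY h l pr p ψ).val ⟨b, hb⟩ = g b := by
        rw [h5, YR.val_mk, hΦ]
      exact h7
    rw [AY_apply] at h6
    rw [exr_of_mem _ hb]
    have h8 : ψ.val ⟨b, hb⟩ - (avl κ l (exr ψ.val) b - ψ.val p) = g b := h6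
    linarith

end TRed
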