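import Pool.Agent.Lib.MP_464db4_gt.TI.Com

/-!
# TI-Lap: the hyperbolic Laplacian in one coordinate and the averages
-/

namespace TRed

open Complex Matrix MeasureTheory YT Set Filter Topology
open scoped ContDiff ComplexConjugate

variable {ι : Type} [Fintype ι] [DecidableEq ι] {G : Type} [Group G] {pr : ι → G →* Matrix.SpecialLinearGroup (Fin 2) ℝ}

private theorem Lap_diff {φ : ℂ → ℝ} (hφ : ContDiffOn ℝ ∞ φ KW.hp) {w : ℂ} (hw : w ∈ KW.hp) : DifferentiableAt ℝ φ w :=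
  (hφ.contDiffAt (KW.isOpen_hp.mem_nhds hw)).differentiableAt (by simp)

private theorem Lap_fderiv {φ ψ : ℂ → ℝ} (c : ℝ) (hφ : ContDiffOn ℝ ∞ φ KW.hp) (hψ : ContDiffOn ℝ ∞ ψ KW.hp) {w : ℂ} (hw : w ∈ KW.hp) (v : ℂ) :
    fderiv ℝ (fun w => φ w + c * ψ w) w v = fderiv ℝ φ w v + c * fderiv ℝ ψ w v := by
  have h := ((Lap_diff hφ hw).hasFDerivAt.fun_add ((Lap_diff hψ hw).hasFDerivAt.const_mul c)).fderiv
  rw [h]
  rfl

private theorem Lap_lin1 {φ ψ : ℂ → ℝ} (c : ℝ) (hφ : ContDiffOn ℝ ∞ φ KW.hp) (hψ : ContDiffOn ℝ ∞ ψ KW.hp) {z : ℂ} (hz : z ∈ KW.hp) :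
    KW.lapH (fun w => φ w + c * ψ w) z = KW.lapH φ z + c * KW.lapH ψ z := by
  have x1 : ∀ w ∈ KW.hp, KW.dx (fun w => φ w + c * ψ w) w = KW.dx φ w + c * KW.dx ψ w := fun w hw => Lap_fderiv c hφ hψ hw 1
  have y1 : ∀ w ∈ KW.hp, KW.dy (fun w => φ w + c * ψ w) w = KW.dy φ w + c * KW.dy ψ w := fun w hw => Lap_fderiv c hφ hψ hw I
  have sx : ∀ {φ : ℂ → ℝ}, ContDiffOn ℝ ∞ φ KW.hp → ContDiffOn ℝ ∞ (KW.dx φ) KW.hp := fun h =>
    contDiffOn_infty.2 fun m => KW.dx_contDiffOn (contDiffOn_infty.1 h (m + 1))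
  have sy : ∀ {φ : ℂ → ℝ}, ContDiffOn ℝ ∞ φ KW.hp → ContDiffOn ℝ ∞ (KW.dy φ) KW.hp := fun h =>
    contDiffOn_infty.2 fun m => KW.dy_contDiffOn (contDiffOn_infty.1 h (m + 1))
  have x2 : KW.dx (fun w => KW.dx φ w + c * KW.dx ψ w) z = KW.dx (KW.dx φ) z + c * KW.dx (KW.dx ψ) z := Lap_fderiv c (sx hφ) (sx hψ) hz 1
  have y2 : KW.dy (fun w => KW.dy φ w + c * KW.dy ψ w) z = KW.dy (KW.dy φ) z + c * KW.dy (KW.dy ψ) z := Lap_fderiv c (sy hφ) (sy hψ) hz I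
  unfold KW.lapH KW.lapE
  rw [KW.dx_congr_hp x1 hz, KW.dy_congr_hp y1 hz, x2, y2]
  ring

private theorem Lap_zero (z : ℂ) (m : ℝ) : KW.lapH (fun _ => m) z = 0 := by
  have h1 : KW.dx (fun _ => m) = fun _ => 0 := by
    funext w
    unfold KW.dx
    simp
  have h2 : KW.dy (fun _ => m) = fun _ => 0 := by
    funext w
    unfold KW.dy
    simp
  unfold KW.lapH KW.lapE
  rw [h1, h2]
  unfold KW.dx KW.dy
  simp

omit [Fintype ι] in
private theorem Lap_eq (j : ι) (F : (ι → ℂ) → ℝ) (b : ι → ℂ) :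
    lapi j F b = (b j).im ^ 2 * (dxi j (dxi j F) b + dyi j (dyi j F) b) := by
  have h1 : dxi j (dxi j F) b = KW.dx (fun t => dxi j F (Function.update b j t)) (b j) := rfl
  have h2 : dyi j (dyi j F) b = KW.dy (fun t => dyi j F (Function.update b j t)) (b j) := rfl
  rw [h1, h2, slice_dxi, slice_dyi]
  rfl

private theorem Lap_dxi_smooth (j : ι) {F : (ι → ℂ) → ℝ} (hF : ContDiffOn ℝ ∞ F (Hr ι)) : ContDiffOn ℝ ∞ (dxi j F) (Hr ι) :=
  contDiffOn_infty.2 fun m => dxi_contDiffOn (contDiffOn_infty.1 hF (m + 1)) j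

private theorem Lap_dyi_smooth (j : ι) {F : (ι → ℂ) → ℝ} (hF : ContDiffOn ℝ ∞ F (Hr ι)) : ContDiffOn ℝ ∞ (dyi j F) (Hr ι) :=
  contDiffOn_infty.2 fun m => dyi_contDiffOn (contDiffOn_infty.1 hF (m + 1)) j

omit [Fintype ι] in
private theorem Lap_dxi_congr (j : ι) {F F' : (ι → ℂ) → ℝ} (h : ∀ b ∈ Hr ι, F b = F' b) {b : ι → ℂ} (hb : b ∈ Hr ι) : dxi j F b = dxi j F' b :=
  KW.dx_congr_hp (fun _ hw => h _ (update_mem hb j hw)) (hb j)

omit [Fintype ι] in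
private theorem Lap_dyi_congr (j : ι) {F F' : (ι → ℂ) → ℝ} (h : ∀ b ∈ Hr ι, F b = F' b) {b : ι → ℂ} (hb : b ∈ Hr ι) : dyi j F b = dyi j F' b :=
  KW.dy_congr_hp (fun _ hw => h _ (update_mem hb j hw)) (hb j)

theorem lapi_smooth (j : ι) {F : (ι → ℂ) → ℝ} (hF : ContDiffOn ℝ ∞ F (Hr ι)) : ContDiffOn ℝ ∞ (lapi j F) (Hr ι) := by
  have h1 := Lap_dxi_smooth j (Lap_dxi_smooth j hF)
  have h2 := Lap_dyi_smooth j (Lap_dyi_smooth j hF)
  have h3 : ContDiffOn ℝ ∞ (fun b : ι → ℂ => (b j).im) (Hr ι) := (imCLM.contDiff.comp (contDiff_apply ℝ ℂ j)).contDiffOn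
  have e : lapi j F = fun b => (b j).im ^ 2 * (dxi j (dxi j F) b + dyi j (dyi j F) b) := funext (Lap_eq j F)
  rw [e]
  exact (h3.pow 2).mul (h1.add h2)

omit [Fintype ι] in
theorem lapi_congr (j : ι) {F F' : (ι → ℂ) → ℝ} (h : ∀ b ∈ Hr ι, F b = F' b) {b : ι → ℂ} (hb : b ∈ Hr ι) : lapi j F b = lapi j F' b :=
  KW.lapH_congr_hp (fun _ hw => h _ (update_mem hb j hw)) (hb j)

private theorem Lap_lin (j : ι) {F F' : (ι → ℂ) → ℝ} (c : ℝ) (hF : ContDiffOn ℝ ∞ F (Hr ι)) (hF' : ContDiffOn ℝ ∞ F' (Hr ι)) {b : ι → ℂ} (hb : b ∈ Hr ι) :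
    lapi j (fun y => F y + c * F' y) b = lapi j F b + c * lapi j F' b :=
  Lap_lin1 c (slice_contDiffOn hF hb j) (slice_contDiffOn hF' hb j) (hb j)

theorem lapi_add (j : ι) {F F' : (ι → ℂ) → ℝ} (hF : ContDiffOn ℝ ∞ F (Hr ι)) (hF' : ContDiffOn ℝ ∞ F' (Hr ι)) {b : ι → ℂ} (hb : b ∈ Hr ι) :
    lapi j (fun y => F y + F' y) b = lapi j F b + lapi j F' b := by
  have h := Lap_lin j 1 hF hF' hb
  simp only [one_mul] at h
  exact h

theorem lapi_sub (j : ι) {F F' : (ι → ℂ) → ℝ} (hF : ContDiffOn ℝ ∞ F (Hr ι)) (hF' : ContDiffOn ℝ ∞ F' (Hr ι)) {b : ι → ℂ} (hb : b ∈ Hr ι) :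
    lapi j (fun y => F y - F' y) b = lapi j F b - lapi j F' b := by
  have h := Lap_lin j (-1) hF hF' hb
  have e : (fun y => F y - F' y) = fun y => F y + -1 * F' y := by
    funext y
    ring
  rw [e, h]
  ring

omit [Fintype ι] in
theorem lapi_const (j : ι) (m : ℝ) (b : ι → ℂ) : lapi j (fun _ => m) b = 0 :=
  Lap_zero _ m

private theorem Lap_div (j : ι) {F : (ι → ℂ) → ℝ} (c : ℝ) (hF : ContDiffOn ℝ ∞ F (Hr ι)) {b : ι → ℂ} (hb : b ∈ Hr ι) :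
    lapi j (fun y => F y / c) b = lapi j F b / c := by
  have h := Lap_lin j c⁻¹ (F := fun _ => 0) contDiffOn_const hF hb
  have e : (fun y => F y / c) = fun y => 0 + c⁻¹ * F y := by
    funext y
    rw [zero_add, div_eq_inv_mul]
  rw [e, h, lapi_const, zero_add, div_eq_inv_mul]

theorem lapi_cvi {ν : ℝ → ℝ} {R C : ℝ} (hν : KW.Prof ν R C) (i j : ι) {F : (ι → ℂ) → ℝ} (hF : ContDiffOn ℝ ∞ F (Hr ι)) {b : ι → ℂ} (hb : b ∈ Hr ι) :
    lapi j (cvi (KW.kn ν) i F) b = cvi (KW.kn ν) i (lapi j F) b := by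
  have hn : KW.GKer (KW.kn ν) := KW.gker_kn hν
  rcases eq_or_ne j i with rfl | hij
  · have h2 : ContDiffOn ℝ 2 (fun t => F (Function.update b j t)) KW.hp := by exact_mod_cast contDiffOn_infty.1 (slice_contDiffOn hF hb j) 2
    have h := KW.lapH_cv hν h2 (hb j)
    unfold lapi
    rw [slice_cvi, h]
    unfold cvi
    congr 1
    exact (slice_lapi j F b).symm
  · have h1 : ∀ {F : (ι → ℂ) → ℝ}, ContDiffOn ℝ ∞ F (Hr ι) → ContDiffOn ℝ 1 F (Hr ι) := fun h => h.of_le (by exact_mod_cast le_top)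
    have x1 : ∀ y ∈ Hr ι, dxi j (cvi (KW.kn ν) i F) y = cvi (KW.kn ν) i (dxi j F) y := fun y hy => dxi_cvi hn i j (h1 hF) hy
    have y1 : ∀ y ∈ Hr ι, dyi j (cvi (KW.kn ν) i F) y = cvi (KW.kn ν) i (dyi j F) y := fun y hy => dyi_cvi hn hij (h1 hF) hy
    have sx := Lap_dxi_smooth j hF
    have sy := Lap_dyi_smooth j hF
    have cx : ContinuousOn (dxi j (dxi j F)) (Hr ι) := (Lap_dxi_smooth j sx).continuousOn
    have cy : ContinuousOn (dyi j (dyi j F)) (Hr ι) := (Lap_dyi_smooth j sy).continuousOn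
    have e : (fun t => lapi j F (Function.update b i t)) = fun t => (b j).im ^ 2 *
        (dxi j (dxi j F) (Function.update b i t) + dyi j (dyi j F) (Function.update b i t)) := by
      funext t
      rw [Lap_eq, Function.update_of_ne hij]
    rw [Lap_eq, Lap_dxi_congr j x1 hb, Lap_dyi_congr j y1 hb, dxi_cvi hn i j (h1 sx) hb, dyi_cvi hn hij (h1 sy) hb]
    have e2 : cvi (KW.kn ν) i (lapi j F) b = KW.cv (KW.kn ν) (fun t => lapi j F (Function.update b i t)) (b i) := rfl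
    rw [e2, e, KW.cv_const_mul, KW.cv_add hn (slice_contOn cx hb i) (slice_contOn cy hb i) (hb i)]
    rfl

theorem lapi_avi {ν κ : ℝ → ℝ} {R C Λ : ℝ} (h : KW.KPair ν κ R C Λ) (i j : ι) {F : (ι → ℂ) → ℝ} (hF : ContDiffOn ℝ ∞ F (Hr ι)) {b : ι → ℂ} (hb : b ∈ Hr ι) :
    lapi j (avi κ i F) b = avi κ i (lapi j F) b := by
  have h1 : lapi j (avi κ i F) b = lapi j (cvi (KW.kn κ) i F) b / ∫ w, KW.kn κ w := Lap_div j _ (cvi_smooth (KW.gker_kn h.profK) i hF) hb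
  rw [h1, lapi_cvi h.profK i j hF hb]
  rfl

theorem lapi_svi {ν κ : ℝ → ℝ} {R C Λ : ℝ} (h : KW.KPair ν κ R C Λ) (i j : ι) {F : (ι → ℂ) → ℝ} (hF : ContDiffOn ℝ ∞ F (Hr ι)) {b : ι → ℂ} (hb : b ∈ Hr ι) :
    lapi j (svi ν κ i F) b = svi ν κ i (lapi j F) b := by
  have h1 : lapi j (svi ν κ i F) b = lapi j (cvi (KW.kn ν) i F) b / ∫ w, KW.kn κ w := Lap_div j _ (cvi_smooth (KW.gker_kn h.profN) i hF) hb
  rw [h1, lapi_cvi h.profN i j hF hb]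
  rfl

theorem lapi_avl {ν κ : ℝ → ℝ} {R C Λ : ℝ} (h : KW.KPair ν κ R C Λ) (l : List ι) (j : ι) {F : (ι → ℂ) → ℝ} (hF : ContDiffOn ℝ ∞ F (Hr ι)) {b : ι → ℂ}
    (hb : b ∈ Hr ι) : lapi j (avl κ l F) b = avl κ l (lapi j F) b := by
  induction l generalizing b with
  | nil => rfl
  | cons i l ih =>
    rw [avl_cons, avl_cons, lapi_avi h i j (avl_smooth h l hF) hb]
    unfold avi
    rw [cvi_congr (KW.gker_kn h.profK) i (fun y hy => ih hy) hb]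

theorem avi_sub_self {ν κ : ℝ → ℝ} {R C Λ : ℝ} (h : KW.KPair ν κ R C Λ) (i : ι) {F : (ι → ℂ) → ℝ} (hF : ContDiffOn ℝ ∞ F (Hr ι)) {b : ι → ℂ} (hb : b ∈ Hr ι) :
    svi ν κ i (lapi i F) b = avi κ i F b - F b := by
  have h2 : ContDiffOn ℝ 2 (fun t => F (Function.update b i t)) KW.hp := by exact_mod_cast contDiffOn_infty.1 (slice_contDiffOn hF hb i) 2
  have h1 := KW.id1 h h2 (hb i)
  have hM : (∫ w, KW.kn κ w) ≠ 0 := (KW.massK_pos h).ne'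
  have e1 : svi ν κ i (lapi i F) b = KW.cv (KW.kn ν) (fun t => lapi i F (Function.update b i t)) (b i) / ∫ w, KW.kn κ w := rfl
  have e2 : avi κ i F b = KW.cv (KW.kn κ) (fun t => F (Function.update b i t)) (b i) / ∫ w, KW.kn κ w := rfl
  rw [e1, e2, slice_lapi, h1, Function.update_eq_self, sub_div, mul_div_cancel_left₀ _ hM]

end TRed
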