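import Pool.Agent.Lib.MP_464db4_gt.TH.FacB
import Pool.Agent.Lib.MP_464db4_gt.TH.Smp

/-!
# TI-Lf2: invariant functions which are subharmonic along the leaves on which the coordinates of a finite set `s` are constant
-/

namespace TRed

open Complex Matrix MeasureTheory YT
open scoped ContDiff ComplexConjugate ComplexOrder

variable {ι : Type} [Fintype ι] [DecidableEq ι] {G : Type} [Group G] {pr : ι → G →* Matrix.SpecialLinearGroup (Fin 2) ℝ}

/-- The action on the coordinates of `s`. -/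
private noncomputable def Lf2_og (pr : ι → G →* Matrix.SpecialLinearGroup (Fin 2) ℝ) (s : Finset ι) (γ : G) (a : s → UpperHalfPlane) :
    s → UpperHalfPlane := fun j => pr j γ • a j

omit [Fintype ι] [DecidableEq ι] in
private theorem Lf2_mul (s : Finset ι) (γ δ : G) (a : s → UpperHalfPlane) : Lf2_og pr s (γ * δ) a = Lf2_og pr s γ (Lf2_og pr s δ a) := by
  funext j
  simp only [Lf2_og, map_mul, mul_smul]

omit [Fintype ι] [DecidableEq ι] in
private theorem Lf2_one (s : Finset ι) (a : s → UpperHalfPlane) : Lf2_og pr s 1 a = a := by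
  funext j
  simp only [Lf2_og, map_one, one_smul]

omit [Fintype ι] [DecidableEq ι] in
private theorem Lf2_dist (s : Finset ι) (γ : G) (a b : s → UpperHalfPlane) :
    dist (Lf2_og pr s γ a) (Lf2_og pr s γ b) = dist a b := by
  simp only [dist_pi_def, Lf2_og, nndist_smul]

omit [Fintype ι] [DecidableEq ι] in
private theorem Lf2_cont (s : Finset ι) (γ : G) : Continuous (Lf2_og pr s γ) :=
  continuous_pi fun j => (continuous_const_smul (pr j γ)).comp (continuous_apply j)

/-- The coordinates of `s` of a point. -/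
private def Lf2_pt (s : Finset ι) (b : ι → ℂ) (hb : b ∈ Hr ι) : s → UpperHalfPlane := fun j => ⟨b j, hb j⟩

omit [Fintype ι] [DecidableEq ι] in
private theorem Lf2_mobr (s : Finset ι) (γ : G) {b : ι → ℂ} (hb : b ∈ Hr ι) (hb' : mobr pr γ b ∈ Hr ι) :
    Lf2_pt s (mobr pr γ b) hb' = Lf2_og pr s γ (Lf2_pt s b hb) := by
  funext j
  exact UpperHalfPlane.ext (congrFun (mob_coe (pr j γ) (⟨b j, hb j⟩ : UpperHalfPlane)) ())

/-- The closure of the orbit. -/
private def Lf2_cl (pr : ι → G →* Matrix.SpecialLinearGroup (Fin 2) ℝ) (s : Finset ι) (a : s → UpperHalfPlane) :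
    Set (s → UpperHalfPlane) := closure (Set.range fun γ : G => Lf2_og pr s γ a)

omit [Fintype ι] [DecidableEq ι] in
private theorem Lf2_inv (s : Finset ι) (a : s → UpperHalfPlane) (γ : G) {z : s → UpperHalfPlane} (hz : z ∈ Lf2_cl pr s a) :
    Lf2_og pr s γ z ∈ Lf2_cl pr s a := by
  refine map_mem_closure (Lf2_cont s γ) hz ?_
  rintro _ ⟨δ, rfl⟩
  exact ⟨γ * δ, Lf2_mul s γ δ a⟩

omit [Fintype ι] [DecidableEq ι] in
private theorem Lf2_symm (s : Finset ι) (a p : s → UpperHalfPlane) (hp : p ∈ Lf2_cl pr s a) : a ∈ Lf2_cl pr s p := by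
  unfold Lf2_cl at hp ⊢
  rw [Metric.mem_closure_iff] at hp ⊢
  intro ε hε
  obtain ⟨_, ⟨γ, rfl⟩, h⟩ := hp ε hε
  refine ⟨_, ⟨γ⁻¹, rfl⟩, ?_⟩
  have h2 : dist a (Lf2_og pr s γ⁻¹ p) = dist (Lf2_og pr s γ a) p := by
    rw [← Lf2_dist s γ a, ← Lf2_mul, mul_inv_cancel, Lf2_one]
  show dist a (Lf2_og pr s γ⁻¹ p) < ε
  rw [h2, dist_comm]
  exact h

omit [Fintype ι] [DecidableEq ι] in
/-- A maximum over the points with coordinates in the closure of the orbit of `a`. -/
private theorem Lf2_max (hB : CompactBase (Hr ι) (mobr pr)) (s : Finset ι) {F : (ι → ℂ) → ℝ} (hF : ContinuousOn F (Hr ι))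
    (hinv : ∀ γ : G, ∀ b ∈ Hr ι, F (mobr pr γ b) = F b) (a : s → UpperHalfPlane) {b₀ : ι → ℂ} (hb₀ : b₀ ∈ Hr ι)
    (ha : Lf2_pt s b₀ hb₀ = a) :
    ∃ (p : ι → ℂ) (hp : p ∈ Hr ι), Lf2_pt s p hp ∈ Lf2_cl pr s a ∧
      ∀ (b : ι → ℂ) (hb : b ∈ Hr ι), Lf2_pt s b hb ∈ Lf2_cl pr s a → F b ≤ F p := by
  obtain ⟨K, hK, hKc, hKs⟩ := hB.cocompact
  have hc : CompactSpace K := isCompact_iff_compactSpace.1 hKc
  obtain ⟨Z, hZ⟩ : ∃ Z : Set (s → UpperHalfPlane), Z = Lf2_cl pr s a := ⟨_, rfl⟩
  rw [← hZ]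
  have hZc : IsClosed Z := by rw [hZ]; exact isClosed_closure
  have hZinv : ∀ (γ : G) (z : s → UpperHalfPlane), z ∈ Z → Lf2_og pr s γ z ∈ Z := by
    rw [hZ]
    exact fun γ z hz => Lf2_inv s a γ hz
  obtain ⟨f, hf⟩ : ∃ f : K → (s → UpperHalfPlane), f = fun b => Lf2_pt s b.1 (hK b.2) := ⟨_, rfl⟩
  have hfc : Continuous f := by
    rw [hf]
    refine continuous_pi fun j => ?_
    rw [UpperHalfPlane.isEmbedding_coe.continuous_iff]
    exact (continuous_apply (j : ι)).comp continuous_subtype_val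
  -- moving a point into `K`
  have hmove : ∀ (b : ι → ℂ) (hb : b ∈ Hr ι), Lf2_pt s b hb ∈ Z → ∃ k : K, f k ∈ Z ∧ F k.1 = F b := by
    intro b hb hbZ
    obtain ⟨γ, hγ⟩ := hKs b hb
    refine ⟨⟨mobr pr γ b, hγ⟩, ?_, hinv γ b hb⟩
    have h1 : f ⟨mobr pr γ b, hγ⟩ = Lf2_og pr s γ (Lf2_pt s b hb) := by
      rw [hf]
      exact Lf2_mobr s γ hb (hK hγ)
    rw [h1]
    exact hZinv γ _ hbZ
  have hne : (f ⁻¹' Z).Nonempty := by
    have h0 : Lf2_pt s b₀ hb₀ ∈ Z := by
      rw [ha, hZ]
      exact subset_closure ⟨1, Lf2_one s a⟩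
    obtain ⟨k, hk, -⟩ := hmove b₀ hb₀ h0
    exact ⟨k, hk⟩
  have hcomp : IsCompact (f ⁻¹' Z) := (hZc.preimage hfc).isCompact
  have hFc : Continuous fun k : K => F k.1 := by
    have h1 : ContinuousOn F K := hF.mono hK
    exact continuousOn_iff_continuous_domRestrict.1 h1
  obtain ⟨k, hk, hmax⟩ := hcomp.exists_isMaxOn hne hFc.continuousOn
  refine ⟨k.1, hK k.2, ?_, fun b hb hbZ => ?_⟩
  · have h1 : f k = Lf2_pt s k.1 (hK k.2) := by rw [hf]
    rw [← h1]
    exact hk
  · obtain ⟨l, hl, e⟩ := hmove b hb hbZ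
    rw [← e]
    exact hmax hl

private theorem Lf2_const (hB : CompactBase (Hr ι) (mobr pr)) (s : Finset ι) {F : (ι → ℂ) → ℝ} (hF : ContDiffOn ℝ ∞ F (Hr ι))
    (hinv : ∀ γ : G, ∀ b ∈ Hr ι, F (mobr pr γ b) = F b)
    (hsub : ∀ j, j ∉ s → ∀ b ∈ Hr ι, ∀ t ∈ KW.hp, 0 ≤ KW.lapE (fun t => F (Function.update b j t)) t)
    (b₀ : ι → ℂ) (hb₀ : b₀ ∈ Hr ι) : ∃ M : ℝ, ∀ b ∈ Hr ι, (∀ i ∈ s, b i = b₀ i) → F b = M := by
  classical
  obtain ⟨a, ha⟩ : ∃ a : s → UpperHalfPlane, a = Lf2_pt s b₀ hb₀ := ⟨_, rfl⟩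
  obtain ⟨p, hp, hpc, hmax⟩ := Lf2_max hB s hF.continuousOn hinv a hb₀ ha.symm
  refine ⟨F p, ?_⟩
  -- the leaf of `p`
  have hleaf : ∀ b ∈ Hr ι, (∀ i ∈ s, b i = p i) → F b = F p := by
    intro b hb hbi
    have key : ∀ u : Finset ι, (fun j => if j ∈ u then b j else p j) ∈ Hr ι ∧
        F (fun j => if j ∈ u then b j else p j) = F p := by
      intro u
      induction u using Finset.induction_on with
      | empty => simpa using hp
      | insert j u hj ih =>
        obtain ⟨h1, h2⟩ := ih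
        obtain ⟨q, hq⟩ : ∃ q : ι → ℂ, q = fun j => if j ∈ u then b j else p j := ⟨_, rfl⟩
        rw [← hq] at h1 h2
        have e : (fun k => if k ∈ insert j u then b k else p k) = Function.update q j (b j) := by
          funext k
          rw [hq]
          by_cases hk : k = j
          · subst hk
            simp
          · rw [Function.update_of_ne hk]
            simp [hk]
        rw [e]
        have hbj : b j ∈ KW.hp := hb j
        refine ⟨update_mem h1 j hbj, ?_⟩
        by_cases hji : j ∈ s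
        · have h3 : Function.update q j (b j) = q := by
            have h4 : b j = q j := by
              rw [hq]
              simp only [hj, if_false]
              exact hbi j hji
            rw [h4, Function.update_eq_self]
          rw [h3, h2]
        · have hqi : ∀ i ∈ s, q i = p i := by
            intro i hi
            rw [hq]
            show (if i ∈ u then b i else p i) = p i
            split_ifs
            · exact hbi i hi
            · rfl
          refine KW.smp (φ := fun t => F (Function.update q j t)) (slice_smooth hF h1 j)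
            (hsub j hji q h1) (M := F p) ?_ (z₀ := q j) (h1 j) ?_ (b j) hbj
          · intro z hz
            have hu := update_mem h1 j hz
            refine hmax _ hu ?_
            have h5 : Lf2_pt s (Function.update q j z) hu = Lf2_pt s p hp := by
              funext i
              apply UpperHalfPlane.ext
              show Function.update q j z i = p i
              rw [Function.update_of_ne (fun h : (i : ι) = j => hji (by rw [← h]; exact i.2)), hqi i i.2]
            rw [h5]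
            exact hpc
          · show F (Function.update q j (q j)) = F p
            rw [Function.update_eq_self]
            exact h2
    have h := (key Finset.univ).2
    simpa using h
  -- the translates
  have htr : ∀ (γ : G) (b : ι → ℂ) (hb : b ∈ Hr ι), Lf2_pt s b hb = Lf2_og pr s γ (Lf2_pt s p hp) → F b = F p := by
    intro γ b hb hbi
    rw [← hinv γ⁻¹ b hb]
    have hm := hB.maps γ⁻¹ b hb
    refine hleaf _ hm ?_
    have h1 : Lf2_pt s (mobr pr γ⁻¹ b) hm = Lf2_pt s p hp := by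
      rw [Lf2_mobr s γ⁻¹ hb hm, hbi, ← Lf2_mul, inv_mul_cancel, Lf2_one]
    intro i hi
    exact congrArg (fun z : UpperHalfPlane => (z : ℂ)) (congrFun h1 ⟨i, hi⟩)
  have hacl := Lf2_symm s a (Lf2_pt s p hp) hpc
  intro b hb hbi
  -- continuity
  obtain ⟨U, hU⟩ : ∃ U : (s → UpperHalfPlane) → (ι → ℂ), U = fun z i => if h : i ∈ s then ((z ⟨i, h⟩ : UpperHalfPlane) : ℂ) else b i := ⟨_, rfl⟩
  have hUm : ∀ z, U z ∈ Hr ι := by
    intro z i
    rw [hU]
    show 0 < (if h : i ∈ s then ((z ⟨i, h⟩ : UpperHalfPlane) : ℂ) else b i).im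
    split_ifs with h
    · exact UpperHalfPlane.coe_im_pos _
    · exact hb i
  have hUpt : ∀ z, Lf2_pt s (U z) (hUm z) = z := by
    intro z
    funext j
    apply UpperHalfPlane.ext
    show U z j = z j
    rw [hU]
    show (if h : (j : ι) ∈ s then ((z ⟨j, h⟩ : UpperHalfPlane) : ℂ) else b j) = z j
    rw [dif_pos j.2]
  have hUc : Continuous U := by
    rw [hU]
    refine continuous_pi fun i => ?_
    by_cases h : i ∈ s
    · simp only [h, dif_pos]
      exact UpperHalfPlane.continuous_coe.comp (continuous_apply _)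
    · simp only [h, dif_neg, not_false_eq_true]
      exact continuous_const
  have hcont : Continuous fun z => F (U z) := by
    rw [← continuousOn_univ]
    exact hF.continuousOn.comp hUc.continuousOn fun z _ => hUm z
  have hcl : IsClosed {z | F (U z) = F p} := isClosed_eq hcont continuous_const
  have hsubset : Lf2_cl pr s (Lf2_pt s p hp) ⊆ {z | F (U z) = F p} := by
    apply hcl.closure_subset_iff.2
    rintro _ ⟨γ, rfl⟩
    exact htr γ _ (hUm _) (hUpt _)
  have h : F (U a) = F p := hsubset hacl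
  have h2 : U a = b := by
    funext i
    rw [hU, ha]
    show (if h : i ∈ s then b₀ i else b i) = b i
    split_ifs with h
    · exact (hbi i h).symm
    · rfl
  rw [h2] at h
  exact h

theorem leaf_set (hB : CompactBase (Hr ι) (mobr pr)) (s : Finset ι) {F : (ι → ℂ) → ℝ} (hF : ContDiffOn ℝ ∞ F (Hr ι))
    (hinv : ∀ γ : G, ∀ b ∈ Hr ι, F (mobr pr γ b) = F b)
    (hsub : ∀ j, j ∉ s → ∀ b ∈ Hr ι, ∀ t ∈ KW.hp, 0 ≤ KW.lapE (fun t => F (Function.update b j t)) t) :
    ∀ b ∈ Hr ι, ∀ b' ∈ Hr ι, (∀ i ∈ s, b i = b' i) → F b = F b' := by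
  intro b hb b' hb' h
  obtain ⟨M, hM⟩ := Lf2_const hB s hF hinv hsub b' hb'
  rw [hM b hb h, hM b' hb' fun _ _ => rfl]

end TRed
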