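import Pool.Agent.Lib.MP_464db4_gt.TI.Defs

/-!
# TI-ParA: convolutions in one coordinate of continuous functions are continuous
-/

namespace TRed

open Complex Matrix MeasureTheory YT Set Filter Topology
open scoped ContDiff ComplexConjugate

variable {ι : Type} [Fintype ι] [DecidableEq ι] {G : Type} [Group G] {pr : ι → G →* Matrix.SpecialLinearGroup (Fin 2) ℝ}
theorem cvi_contOn {n : ℂ → ℝ} (hn : KW.GKer n) (i : ι) {F : (ι → ℂ) → ℝ} (hF : ContinuousOn F (Hr ι)) :
    ContinuousOn (cvi n i F) (Hr ι) := by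
  intro b₀ hb₀
  refine ContinuousAt.continuousWithinAt ?_
  obtain ⟨R, hR, h0⟩ := hn.supp
  obtain ⟨r, hr, hball⟩ := Metric.nhds_basis_closedBall.mem_iff.1 (isOpen_Hr.mem_nhds hb₀)
  have hφ : Continuous fun p : (ι → ℂ) × ℂ => (p.1 i, p.2) :=
    ((continuous_apply i).comp continuous_fst).prodMk continuous_snd
  have hψ : Continuous fun p : (ι → ℂ) × ℂ => KW.aff (p.1 i) p.2 := KW.continuous_aff.comp hφ
  have hΦ : Continuous fun p : (ι → ℂ) × ℂ => Function.update p.1 i (KW.aff (p.1 i) p.2) :=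
    continuous_fst.update i hψ
  have hmem : ∀ b ∈ Hr ι, ∀ w ∈ KW.KR R, Function.update b i (KW.aff (b i) w) ∈ Hr ι :=
    fun b hb w hw => update_mem hb i (KW.aff_mem (hb i) (KW.KR_sub hR hw))
  obtain ⟨M, hM⟩ : ∃ M : ℝ, ∀ b ∈ Metric.closedBall b₀ r, ∀ w ∈ KW.KR R,
      |F (Function.update b i (KW.aff (b i) w))| ≤ M := by
    have hK : IsCompact ((fun p : (ι → ℂ) × ℂ => Function.update p.1 i (KW.aff (p.1 i) p.2)) ''
        (Metric.closedBall b₀ r ×ˢ KW.KR R)) :=
      ((isCompact_closedBall b₀ r).prod (KW.isCompact_KR R)).image hΦ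
    have hsub : (fun p : (ι → ℂ) × ℂ => Function.update p.1 i (KW.aff (p.1 i) p.2)) ''
        (Metric.closedBall b₀ r ×ˢ KW.KR R) ⊆ Hr ι := by
      rintro _ ⟨⟨b, w⟩, ⟨hb, hw⟩, rfl⟩
      exact hmem b (hball hb) w hw
    obtain ⟨M, hM⟩ := hK.exists_bound_of_continuousOn (hF.mono hsub)
    exact ⟨M, fun b hb w hw => hM _ ⟨(b, w), ⟨hb, hw⟩, rfl⟩⟩
  have hnear : ∀ᶠ b in 𝓝 b₀, b ∈ Metric.closedBall b₀ r := Metric.closedBall_mem_nhds b₀ hr
  have e : cvi n i F = fun b => ∫ w, F (Function.update b i (KW.aff (b i) w)) * n w := by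
    funext b
    exact cvi_def n i F b
  rw [e]
  refine continuousAt_of_dominated (bound := fun w => M * ‖n w‖) ?_ ?_ (hn.int.norm.const_mul M) ?_
  · filter_upwards [hnear] with b hb
    exact (KW.cv_integrable hn (slice_contOn hF (hball hb) i) (hball hb i)).aestronglyMeasurable
  · filter_upwards [hnear] with b hb
    refine Eventually.of_forall fun w => ?_
    rw [norm_mul]
    by_cases hw : w ∈ KW.KR R
    · rw [Real.norm_eq_abs (F _)]
      exact mul_le_mul_of_nonneg_right (hM b hb w hw) (norm_nonneg _)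
    · rw [h0 w hw, norm_zero, mul_zero, mul_zero]
  · refine Eventually.of_forall fun w => ?_
    by_cases hw : w ∈ KW.KR R
    · have h1 : ContinuousAt F (Function.update b₀ i (KW.aff (b₀ i) w)) :=
        hF.continuousAt (isOpen_Hr.mem_nhds (hmem b₀ hb₀ w hw))
      have h2 : Continuous (fun b : ι → ℂ => Function.update b i (KW.aff (b i) w)) :=
        hΦ.comp (continuous_id.prodMk continuous_const)
      exact (ContinuousAt.comp (f := fun b : ι → ℂ => Function.update b i (KW.aff (b i) w)) h1 h2.continuousAt).mul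
        continuousAt_const
    · simp only [h0 w hw, mul_zero]
      exact continuousAt_const

theorem avi_contOn {ν κ : ℝ → ℝ} {R C Λ : ℝ} (h : KW.KPair ν κ R C Λ) (i : ι) {F : (ι → ℂ) → ℝ} (hF : ContinuousOn F (Hr ι)) :
    ContinuousOn (avi κ i F) (Hr ι) :=
  (cvi_contOn (KW.gker_kn h.profK) i hF).div_const _

theorem avl_contOn {ν κ : ℝ → ℝ} {R C Λ : ℝ} (h : KW.KPair ν κ R C Λ) (l : List ι) {F : (ι → ℂ) → ℝ} (hF : ContinuousOn F (Hr ι)) :
    ContinuousOn (avl κ l F) (Hr ι) := by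
  induction l with
  | nil => exact hF
  | cons i l ih => exact avi_contOn h i ih

end TRed
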