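import Pool.Agent.Lib.MP_464db4_gt.TI.ParA

/-!
# TI-ParB: a convolution in the coordinate `i` preserves derivatives in the other directions
-/

namespace TRed

open Complex Matrix MeasureTheory YT Set Filter Topology
open scoped ContDiff ComplexConjugate

variable {ι : Type} [Fintype ι] [DecidableEq ι] {G : Type} [Group G] {pr : ι → G →* Matrix.SpecialLinearGroup (Fin 2) ℝ}

/-- The point at which the functions are evaluated. -/
private noncomputable def ParB_u (i j : ι) (b : ι → ℂ) (t w : ℂ) : ι → ℂ :=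
  Function.update (Function.update b j t) i (KW.aff (b i) w)

private theorem ParB_mem {b : ι → ℂ} (hb : b ∈ Hr ι) (i j : ι) {t w : ℂ} (ht : t ∈ KW.hp) (hw : w ∈ KW.hp) :
    ParB_u i j b t w ∈ Hr ι :=
  update_mem (update_mem hb j ht) i (KW.aff_mem (hb i) hw)

private theorem ParB_bound {b : ι → ℂ} (hb : b ∈ Hr ι) (i j : ι) {φ : (ι → ℂ) → ℝ} (hφ : ContinuousOn φ (Hr ι))
    {C : Set ℂ} (hC : IsCompact C) (hCh : C ⊆ KW.hp) {R : ℝ} (hR : 0 ≤ R) :
    ∃ M : ℝ, 0 ≤ M ∧ ∀ t ∈ C, ∀ w ∈ KW.KR R, |φ (ParB_u i j b t w)| ≤ M := by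
  have hc : Continuous (fun p : ℂ × ℂ => ParB_u i j b p.1 p.2) := by
    unfold ParB_u
    refine Continuous.update ?_ i ?_
    · exact continuous_const.update j continuous_fst
    · exact KW.continuous_aff.comp (continuous_const.prodMk continuous_snd)
  have hK : IsCompact ((fun p : ℂ × ℂ => ParB_u i j b p.1 p.2) '' (C ×ˢ KW.KR R)) :=
    (hC.prod (KW.isCompact_KR R)).image hc
  have hsub : (fun p : ℂ × ℂ => ParB_u i j b p.1 p.2) '' (C ×ˢ KW.KR R) ⊆ Hr ι := by
    rintro _ ⟨⟨t, w⟩, ⟨ht, hw⟩, rfl⟩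
    exact ParB_mem hb i j (hCh ht) (KW.KR_sub hR hw)
  obtain ⟨M, hM⟩ := hK.exists_bound_of_continuousOn (hφ.mono hsub)
  refine ⟨max M 0, le_max_right _ _, fun t ht w hw => ?_⟩
  have h := hM (ParB_u i j b t w) ⟨(t, w), ⟨ht, hw⟩, rfl⟩
  rw [Real.norm_eq_abs] at h
  exact h.trans (le_max_left _ _)

private theorem ParB_int {n : ℂ → ℝ} (hn : KW.GKer n) {b : ι → ℂ} (hb : b ∈ Hr ι) {i j : ι} (hij : j ≠ i)
    {φ : (ι → ℂ) → ℝ} (hφ : ContinuousOn φ (Hr ι)) {t : ℂ} (ht : t ∈ KW.hp) :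
    Integrable (fun w => φ (ParB_u i j b t w) * n w) :=
  KW.cv_integrable hn (slice_contOn hφ (update_mem hb j ht) i) (hb i)

/-- The derivative of the integrand. -/
private noncomputable def ParB_F (n : ℂ → ℝ) (i j : ι) (P Q : (ι → ℂ) → ℝ) (b : ι → ℂ) (t w : ℂ) : ℂ →L[ℝ] ℝ :=
  (P (ParB_u i j b t w) * n w) • reCLM + (Q (ParB_u i j b t w) * n w) • imCLM

private theorem ParB_norm {a b : ℝ} : ‖(a • reCLM + b • imCLM : ℂ →L[ℝ] ℝ)‖ ≤ |a| + |b| := by
  refine (norm_add_le _ _).trans ?_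
  rw [norm_smul, norm_smul, reCLM_norm, imCLM_norm, mul_one, mul_one, Real.norm_eq_abs, Real.norm_eq_abs]

private theorem ParB_diff {n : ℂ → ℝ} {i j : ι} (hij : j ≠ i) {F P Q : (ι → ℂ) → ℝ} (h : HasPart j F P Q)
    {b : ι → ℂ} (hb : b ∈ Hr ι) {t w : ℂ} (ht : t ∈ KW.hp) (hw : w ∈ KW.hp) :
    HasFDerivAt (fun t => F (ParB_u i j b t w) * n w) (ParB_F n i j P Q b t w) t := by
  have hu : ∀ s : ℂ, ParB_u i j b s w = Function.update (Function.update b i (KW.aff (b i) w)) j s := by
    intro s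
    unfold ParB_u
    rw [Function.update_comm hij]
  have hb' : Function.update b i (KW.aff (b i) w) ∈ Hr ι := update_mem hb i (KW.aff_mem (hb i) hw)
  have h1 := h.2.2 (Function.update (Function.update b i (KW.aff (b i) w)) j t) (update_mem hb' j ht)
  rw [slice_update, Function.update_self] at h1
  have h2 := h1.mul_const (n w)
  have e1 : (fun t => F (ParB_u i j b t w) * n w) =
      fun s => F (Function.update (Function.update b i (KW.aff (b i) w)) j s) * n w := by
    funext s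
    rw [hu s]
  rw [e1]
  unfold ParB_F
  rw [hu t, mul_comm _ (n w), mul_comm _ (n w), ← smul_smul, ← smul_smul, ← smul_add]
  exact h2

theorem HasPart.cvi {n : ℂ → ℝ} (hn : KW.GKer n) {i j : ι} (hij : j ≠ i) {F P Q : (ι → ℂ) → ℝ} (hF : ContinuousOn F (Hr ι)) (h : HasPart j F P Q) :
    HasPart j (TRed.cvi n i F) (TRed.cvi n i P) (TRed.cvi n i Q) := by
  refine ⟨cvi_contOn hn i h.1, cvi_contOn hn i h.2.1, fun b hb => ?_⟩
  obtain ⟨R, hR, hn0⟩ := hn.supp
  have hbj : b j ∈ KW.hp := hb j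
  obtain ⟨r, hr, hrs⟩ := Metric.nhds_basis_closedBall.mem_iff.1 (KW.isOpen_hp.mem_nhds hbj)
  have hC : IsCompact (Metric.closedBall (b j) r) := isCompact_closedBall (b j) r
  obtain ⟨M1, hM1, b1⟩ := ParB_bound hb i j h.1 hC hrs hR
  obtain ⟨M2, hM2, b2⟩ := ParB_bound hb i j h.2.1 hC hrs hR
  have e0 : (fun t => TRed.cvi n i F (Function.update b j t)) = fun t => ∫ w, F (ParB_u i j b t w) * n w := by
    funext t
    rw [cvi_def, Function.update_of_ne hij.symm]
    rfl
  have hPi : ∀ t ∈ KW.hp, Integrable (fun w => P (ParB_u i j b t w) * n w) := fun t ht => ParB_int hn hb hij h.1 ht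
  have hQi : ∀ t ∈ KW.hp, Integrable (fun w => Q (ParB_u i j b t w) * n w) := fun t ht => ParB_int hn hb hij h.2.1 ht
  have hu0 : ∀ w, ParB_u i j b (b j) w = Function.update b i (KW.aff (b i) w) := by
    intro w
    unfold ParB_u
    rw [Function.update_eq_self]
  have e1 : TRed.cvi n i P b • reCLM + TRed.cvi n i Q b • imCLM = ∫ w, ParB_F n i j P Q b (b j) w := by
    unfold ParB_F
    rw [integral_add ((hPi _ hbj).smul_const reCLM) ((hQi _ hbj).smul_const imCLM), integral_smul_const,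
      integral_smul_const, cvi_def, cvi_def]
    simp only [hu0]
  rw [e0, e1]
  have hb1 : ∀ w, ∀ x ∈ Metric.closedBall (b j) r, ‖ParB_F n i j P Q b x w‖ ≤ (M1 + M2) * |n w| := by
    intro w x hx
    by_cases hw : w ∈ KW.KR R
    · refine ParB_norm.trans ?_
      rw [abs_mul, abs_mul, add_mul]
      exact add_le_add (mul_le_mul_of_nonneg_right (b1 x hx w hw) (abs_nonneg _))
        (mul_le_mul_of_nonneg_right (b2 x hx w hw) (abs_nonneg _))
    · have h0 : ParB_F n i j P Q b x w = 0 := by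
        unfold ParB_F
        rw [hn0 w hw]
        simp
      rw [h0, norm_zero]
      positivity
  have hd : ∀ w, ∀ x ∈ Metric.closedBall (b j) r,
      HasFDerivAt (fun x => F (ParB_u i j b x w) * n w) (ParB_F n i j P Q b x w) x := by
    intro w x hx
    by_cases hw : w ∈ KW.KR R
    · exact ParB_diff hij h hb (hrs hx) (KW.KR_sub hR hw)
    · have h0 : ParB_F n i j P Q b x w = 0 := by
        unfold ParB_F
        rw [hn0 w hw]
        simp
      have h1 : (fun x => F (ParB_u i j b x w) * n w) = fun _ => (0 : ℝ) := by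
        funext x
        rw [hn0 w hw, mul_zero]
      rw [h0, h1]
      exact hasFDerivAt_const _ _
  exact hasFDerivAt_integral_of_dominated_of_fderiv_le (μ := volume) (F := fun x w => F (ParB_u i j b x w) * n w)
    (F' := fun x w => ParB_F n i j P Q b x w) (bound := fun w => (M1 + M2) * |n w|)
    (Metric.closedBall_mem_nhds _ hr)
    (Filter.eventually_of_mem (KW.isOpen_hp.mem_nhds hbj) fun x hx => (ParB_int hn hb hij hF hx).aestronglyMeasurable)
    (ParB_int hn hb hij hF hbj)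
    (((hPi _ hbj).smul_const reCLM).add ((hQi _ hbj).smul_const imCLM)).aestronglyMeasurable
    (Filter.Eventually.of_forall hb1) (hn.int.abs.const_mul _) (Filter.Eventually.of_forall hd)

end TRed
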