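import Pool.Agent.Lib.MP_464db4_gt.TI.Defs

/-!
# TI-ParD: continuous derivatives

* `hasPart_of_contDiffOn`: `fderiv ℝ (fun t => F (update b j t)) (b j) v = fderiv ℝ F b (Pi.single j v)` (`hasFDerivAt_update`, chain rule); continuity of `b ↦ fderiv ℝ F b (Pi.single j v)` on the open set `Hr ι` (`isOpen_Hr`,
  `ContDiffOn.continuousOn_fderiv_of_isOpen`).  A real linear map `ℂ → ℝ` is `L 1 • reCLM + L I • imCLM`.
* `HasPart.eq`: `HasFDerivAt.fderiv`, evaluate at `1` and `I`.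
* `contDiffOn_one_of_hasPart`: the claimed derivative at `b` is `D b = ∑ j, (P j b • reCLM + Q j b • imCLM).comp (ContinuousLinearMap.proj j)`, continuous in `b`.  `HasFDerivAt F (D b) b`: let `ε > 0`, a ball around `b` in `Hr ι` on which
  `|P j y - P j b| ≤ ε`, `|Q j y - Q j b| ≤ ε` for all `j`.  For `y` in the ball and a finite set `s` let `y_s = fun k => if k ∈ s then y k else b k` (also in the ball: sup norm).  By induction on `s` (`Finset.induction_on`; recommended
  statement: `|F y_s - F b - ∑ j ∈ s, (P j b * (y j - b j).re + Q j b * (y j - b j).im)| ≤ s.card * (2 ε) * ‖y - b‖`): the step from `s` to `insert j s` changes only the coordinate `j` along a segment in the ball: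
  `Convex.norm_image_sub_le_of_norm_hasFDerivWithin_le` for `t ↦ F (update y_s j t) - (P j b * t.re + Q j b * t.im)` on the ball (a convex subset of `ℂ`), whose derivative has norm `≤ 2 ε`.  For `s = univ` this is differentiability
  (`hasFDerivAt_iff_isLittleO`, `Asymptotics.isLittleO_iff`).  Then `contDiffOn_one_iff_fderiv_of_isOpen` or `contDiffOn_succ_iff_fderiv_of_isOpen` with `fderiv ℝ F b = D b` on `Hr ι`.
  (Alternatively: induction with Mathlib's `hasStrictFDerivAt_uncurry_coprod`, Analysis/Calculus/FDeriv/Partial.lean.)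
* `contDiffOn_succ_of_part`: `contDiffOn_succ_iff_fderiv_of_isOpen` with `fderiv ℝ F b = D b`, `D` is `C^m` (`ContDiffOn.sum`, `ContDiffOn.smul_const`, composition with a fixed continuous linear map).
* `dxi_contDiffOn`, `dyi_contDiffOn`, `L0i_contDiffOn`: `dxi j F b = fderiv ℝ F b (Pi.single j 1)` on `Hr ι`; `L0i j F b = (b j).re * dxi j F b + (b j).im * dyi j F b` by definition.
-/

namespace TRed

open Complex Matrix MeasureTheory YT Set Filter Topology
open scoped ContDiff ComplexConjugate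

variable {ι : Type} [Fintype ι] [DecidableEq ι] {G : Type} [Group G] {pr : ι → G →* Matrix.SpecialLinearGroup (Fin 2) ℝ}

/-- A real linear form on `ℂ` is a combination of the real and the imaginary part. -/
private theorem ParD_lin (L : ℂ →L[ℝ] ℝ) : L = L 1 • reCLM + L I • imCLM := by
  ext v
  have h : v = (v.re : ℝ) • (1 : ℂ) + (v.im : ℝ) • I := by
    apply Complex.ext <;> simp
  conv_lhs => rw [h]
  rw [map_add, map_smul, map_smul]
  simp only [_root_.add_apply, _root_.smul_apply, reCLM_apply, imCLM_apply, smul_eq_mul]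
  ring

/-- The derivative of the slice. -/
private theorem ParD_slice {F : (ι → ℂ) → ℝ} (hF : ContDiffOn ℝ 1 F (Hr ι)) (j : ι) {b : ι → ℂ} (hb : b ∈ Hr ι) :
    HasFDerivAt (fun t : ℂ => F (Function.update b j t)) ((fderiv ℝ F b).comp (.pi (Pi.single j (.id ℝ ℂ)))) (b j) := by
  have h1 : HasFDerivAt F (fderiv ℝ F b) (Function.update b j (b j)) := by
    rw [Function.update_eq_self]
    exact ((hF.differentiableOn one_ne_zero).differentiableAt (isOpen_Hr.mem_nhds hb)).hasFDerivAt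
  exact h1.comp (b j) (hasFDerivAt_update b (b j))

omit [Fintype ι] in
private theorem ParD_single (j : ι) (v : ℂ) :
    (ContinuousLinearMap.pi (Pi.single j (ContinuousLinearMap.id ℝ ℂ)) : ℂ →L[ℝ] (ι → ℂ)) v = Pi.single j v := by
  funext k
  rw [ContinuousLinearMap.pi_apply]
  rcases eq_or_ne k j with rfl | h
  · rw [Pi.single_eq_same, Pi.single_eq_same]
    rfl
  · rw [Pi.single_eq_of_ne h, Pi.single_eq_of_ne h]
    rfl

private theorem ParD_dxi {F : (ι → ℂ) → ℝ} (hF : ContDiffOn ℝ 1 F (Hr ι)) (j : ι) {b : ι → ℂ} (hb : b ∈ Hr ι) :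
    dxi j F b = fderiv ℝ F b (Pi.single j 1) := by
  unfold dxi KW.dx
  rw [(ParD_slice hF j hb).fderiv, ContinuousLinearMap.comp_apply, ParD_single]

private theorem ParD_dyi {F : (ι → ℂ) → ℝ} (hF : ContDiffOn ℝ 1 F (Hr ι)) (j : ι) {b : ι → ℂ} (hb : b ∈ Hr ι) :
    dyi j F b = fderiv ℝ F b (Pi.single j I) := by
  unfold dyi KW.dy
  rw [(ParD_slice hF j hb).fderiv, ContinuousLinearMap.comp_apply, ParD_single]

theorem hasPart_of_contDiffOn {F : (ι → ℂ) → ℝ} (hF : ContDiffOn ℝ 1 F (Hr ι)) (j : ι) : HasPart j F (dxi j F) (dyi j F) := by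
  have hc := hF.continuousOn_fderiv_of_isOpen isOpen_Hr le_rfl
  refine ⟨?_, ?_, ?_⟩
  · exact (hc.clm_apply continuousOn_const).congr fun b hb => ParD_dxi hF j hb
  · exact (hc.clm_apply continuousOn_const).congr fun b hb => ParD_dyi hF j hb
  · intro b hb
    have h := ParD_slice hF j hb
    rw [ParD_lin ((fderiv ℝ F b).comp (.pi (Pi.single j (.id ℝ ℂ)))), ContinuousLinearMap.comp_apply,
      ContinuousLinearMap.comp_apply, ParD_single, ParD_single, ← ParD_dxi hF j hb, ← ParD_dyi hF j hb] at h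
    exact h

omit [Fintype ι] in
theorem HasPart.eq {j : ι} {F P Q : (ι → ℂ) → ℝ} (h : HasPart j F P Q) {b : ι → ℂ} (hb : b ∈ Hr ι) : dxi j F b = P b ∧ dyi j F b = Q b := by
  have h1 := (h.2.2 b hb).fderiv
  constructor
  · unfold dxi KW.dx
    rw [h1]
    simp
  · unfold dyi KW.dy
    rw [h1]
    simp

/-- Changing the coordinates in `s` one after the other. -/
private theorem ParD_core {F : (ι → ℂ) → ℝ} {P Q : ι → (ι → ℂ) → ℝ} (h : ∀ j, HasPart j F (P j) (Q j)) {b : ι → ℂ} {ε δ : ℝ}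
    (hδ : 0 < δ) (hε : 0 ≤ ε)
    (hB : ∀ z : ι → ℂ, (∀ k, z k ∈ Metric.ball (b k) δ) → z ∈ Hr ι ∧ ∀ j, |P j z - P j b| ≤ ε ∧ |Q j z - Q j b| ≤ ε)
    {y : ι → ℂ} (hy : ∀ k, y k ∈ Metric.ball (b k) δ) (s : Finset ι) :
    |F (s.piecewise y b) - F b - ∑ j ∈ s, (P j b * (y j - b j).re + Q j b * (y j - b j).im)| ≤ s.card * (2 * ε) * ‖y - b‖ := by
  induction s using Finset.induction_on with
  | empty => simp
  | insert j s hj ih =>
    have hz0 : ∀ k, s.piecewise y b k ∈ Metric.ball (b k) δ := by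
      intro k
      by_cases hk : k ∈ s
      · rw [Finset.piecewise_eq_of_mem _ _ _ hk]
        exact hy k
      · rw [Finset.piecewise_eq_of_notMem _ _ _ hk]
        exact Metric.mem_ball_self hδ
    have hzj : s.piecewise y b j = b j := Finset.piecewise_eq_of_notMem _ _ _ hj
    have hpi : (insert j s).piecewise y b = Function.update (s.piecewise y b) j (y j) := Finset.piecewise_insert _ _ _ _
    rw [hpi, Finset.sum_insert hj, Finset.card_insert_of_notMem hj]
    generalize s.piecewise y b = z0 at *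
    have hup : ∀ t ∈ Metric.ball (b j) δ, ∀ k, Function.update z0 j t k ∈ Metric.ball (b k) δ := by
      intro t ht k
      rcases eq_or_ne k j with rfl | hk
      · rw [Function.update_self]
        exact ht
      · rw [Function.update_of_ne hk]
        exact hz0 k
    have hder : ∀ t ∈ Metric.ball (b j) δ, HasFDerivWithinAt (fun t : ℂ => F (Function.update z0 j t))
        (P j (Function.update z0 j t) • reCLM + Q j (Function.update z0 j t) • imCLM) (Metric.ball (b j) δ) t := by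
      intro t ht
      have h1 := (h j).2.2 _ (hB _ (hup t ht)).1
      rw [slice_update F j z0 t, Function.update_self] at h1
      exact h1.hasFDerivWithinAt
    have hbd : ∀ t ∈ Metric.ball (b j) δ, ‖(P j (Function.update z0 j t) • reCLM + Q j (Function.update z0 j t) • imCLM)
        - (P j b • reCLM + Q j b • imCLM)‖ ≤ 2 * ε := by
      intro t ht
      have h1 := (hB _ (hup t ht)).2 j
      have h2 : (P j (Function.update z0 j t) • reCLM + Q j (Function.update z0 j t) • imCLM) - (P j b • reCLM + Q j b • imCLM)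
          = (P j (Function.update z0 j t) - P j b) • reCLM + (Q j (Function.update z0 j t) - Q j b) • imCLM := by
        refine ContinuousLinearMap.ext fun v => ?_
        simp only [_root_.sub_apply, _root_.add_apply, _root_.smul_apply, reCLM_apply, imCLM_apply, smul_eq_mul]
        ring
      rw [h2]
      refine (norm_add_le _ _).trans ?_
      rw [norm_smul, norm_smul, reCLM_norm, imCLM_norm, Real.norm_eq_abs, Real.norm_eq_abs]
      linarith [h1.1, h1.2]
    have hmv := (convex_ball (b j) δ).norm_image_sub_le_of_norm_hasFDerivWithin_le' hder hbd (Metric.mem_ball_self hδ) (hy j)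
    have e1 : Function.update z0 j (b j) = z0 := by
      rw [← hzj, Function.update_eq_self]
    simp only [e1, _root_.add_apply, _root_.smul_apply, reCLM_apply, imCLM_apply, smul_eq_mul, Real.norm_eq_abs] at hmv
    have hn : ‖y j - b j‖ ≤ ‖y - b‖ := norm_le_pi_norm (y - b) j
    have hmv2 : 2 * ε * ‖y j - b j‖ ≤ 2 * ε * ‖y - b‖ := mul_le_mul_of_nonneg_left hn (by linarith)
    push_cast
    have e2 : F (Function.update z0 j (y j)) - F b - (P j b * (y j - b j).re + Q j b * (y j - b j).im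
        + ∑ j ∈ s, (P j b * (y j - b j).re + Q j b * (y j - b j).im))
        = (F (Function.update z0 j (y j)) - F z0 - (P j b * (y j - b j).re + Q j b * (y j - b j).im))
          + (F z0 - F b - ∑ j ∈ s, (P j b * (y j - b j).re + Q j b * (y j - b j).im)) := by
      ring
    rw [e2]
    refine (abs_add_le _ _).trans ?_
    calc _ ≤ 2 * ε * ‖y - b‖ + s.card * (2 * ε) * ‖y - b‖ := add_le_add (hmv.trans hmv2) ih
      _ = _ := by ring

/-- The total derivative. -/
private noncomputable def ParD_D (P Q : ι → (ι → ℂ) → ℝ) (b : ι → ℂ) : (ι → ℂ) →L[ℝ] ℝ :=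
  ∑ j, (P j b • (reCLM.comp (ContinuousLinearMap.proj j)) + Q j b • (imCLM.comp (ContinuousLinearMap.proj j)))

omit [DecidableEq ι] in
private theorem ParD_D_apply (P Q : ι → (ι → ℂ) → ℝ) (b v : ι → ℂ) :
    ParD_D P Q b v = ∑ j, (P j b * (v j).re + Q j b * (v j).im) := by
  unfold ParD_D
  rw [_root_.sum_apply]
  rfl

private theorem ParD_hasFDerivAt {F : (ι → ℂ) → ℝ} {P Q : ι → (ι → ℂ) → ℝ} (h : ∀ j, HasPart j F (P j) (Q j)) {b : ι → ℂ} (hb : b ∈ Hr ι) :
    HasFDerivAt F (ParD_D P Q b) b := by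
  rw [hasFDerivAt_iff_isLittleO, Asymptotics.isLittleO_iff]
  intro c hc
  have hN : (0 : ℝ) < 2 * ((Fintype.card ι : ℝ) + 1) := by positivity
  have hε : 0 < c / (2 * ((Fintype.card ι : ℝ) + 1)) := div_pos hc hN
  have hmem : Hr ι ∈ 𝓝 b := isOpen_Hr.mem_nhds hb
  have hev : ∀ᶠ z in 𝓝 b, z ∈ Hr ι ∧ ∀ j, |P j z - P j b| ≤ c / (2 * ((Fintype.card ι : ℝ) + 1))
      ∧ |Q j z - Q j b| ≤ c / (2 * ((Fintype.card ι : ℝ) + 1)) := by
    refine Filter.Eventually.and hmem (eventually_all.2 fun j => ?_)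
    have hPc : ContinuousAt (P j) b := (h j).1.continuousAt hmem
    have hQc : ContinuousAt (Q j) b := (h j).2.1.continuousAt hmem
    filter_upwards [Metric.tendsto_nhds.1 hPc _ hε, Metric.tendsto_nhds.1 hQc _ hε] with z h1 h2
    rw [Real.dist_eq] at h1 h2
    exact ⟨h1.le, h2.le⟩
  obtain ⟨δ, hδ, hball⟩ := Metric.eventually_nhds_iff_ball.1 hev
  have hB : ∀ z : ι → ℂ, (∀ k, z k ∈ Metric.ball (b k) δ) → z ∈ Hr ι ∧ ∀ j, |P j z - P j b| ≤ c / (2 * ((Fintype.card ι : ℝ) + 1))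
      ∧ |Q j z - Q j b| ≤ c / (2 * ((Fintype.card ι : ℝ) + 1)) := by
    intro z hz
    refine hball z ?_
    rw [Metric.mem_ball, dist_pi_lt_iff hδ]
    exact fun k => Metric.mem_ball.1 (hz k)
  filter_upwards [Metric.ball_mem_nhds b hδ] with y hy
  have hy' : ∀ k, y k ∈ Metric.ball (b k) δ := by
    rw [Metric.mem_ball, dist_pi_lt_iff hδ] at hy
    exact fun k => Metric.mem_ball.2 (hy k)
  have hcore := ParD_core h hδ hε.le hB hy' Finset.univ
  rw [Finset.piecewise_univ, Finset.card_univ] at hcore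
  rw [ParD_D_apply, Real.norm_eq_abs]
  refine hcore.trans ?_
  refine mul_le_mul_of_nonneg_right ?_ (norm_nonneg _)
  have h3 : (Fintype.card ι : ℝ) * (2 * (c / (2 * ((Fintype.card ι : ℝ) + 1)))) = c * ((Fintype.card ι : ℝ) / ((Fintype.card ι : ℝ) + 1)) := by
    field_simp
  rw [h3]
  have h4 : (Fintype.card ι : ℝ) / ((Fintype.card ι : ℝ) + 1) ≤ 1 := by
    rw [div_le_one (by positivity)]
    linarith
  nlinarith

omit [DecidableEq ι] in
private theorem ParD_D_contDiffOn {P Q : ι → (ι → ℂ) → ℝ} {n : WithTop ℕ∞} (hP : ∀ j, ContDiffOn ℝ n (P j) (Hr ι))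
    (hQ : ∀ j, ContDiffOn ℝ n (Q j) (Hr ι)) : ContDiffOn ℝ n (ParD_D P Q) (Hr ι) := by
  unfold ParD_D
  refine ContDiffOn.sum fun j _ => ?_
  exact ((hP j).smul contDiffOn_const).add ((hQ j).smul contDiffOn_const)

private theorem ParD_succ {F : (ι → ℂ) → ℝ} {P Q : ι → (ι → ℂ) → ℝ} (h : ∀ j, HasPart j F (P j) (Q j)) {n : WithTop ℕ∞} (hn : n ≠ ω)
    (hP : ∀ j, ContDiffOn ℝ n (P j) (Hr ι)) (hQ : ∀ j, ContDiffOn ℝ n (Q j) (Hr ι)) : ContDiffOn ℝ (n + 1) F (Hr ι) := by
  rw [contDiffOn_succ_iff_fderiv_of_isOpen isOpen_Hr]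
  refine ⟨fun b hb => (ParD_hasFDerivAt h hb).differentiableAt.differentiableWithinAt, fun hc => absurd hc hn, ?_⟩
  exact (ParD_D_contDiffOn hP hQ).congr fun b hb => (ParD_hasFDerivAt h hb).fderiv

theorem contDiffOn_one_of_hasPart {F : (ι → ℂ) → ℝ} {P Q : ι → (ι → ℂ) → ℝ} (h : ∀ j, HasPart j F (P j) (Q j)) : ContDiffOn ℝ 1 F (Hr ι) := by
  have h1 := ParD_succ h (n := 0) (by simp) (fun j => contDiffOn_zero.2 (h j).1) (fun j => contDiffOn_zero.2 (h j).2.1)
  rwa [zero_add] at h1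

theorem contDiffOn_succ_of_part {F : (ι → ℂ) → ℝ} {P Q : ι → (ι → ℂ) → ℝ} (h : ∀ j, HasPart j F (P j) (Q j)) (m : ℕ)
    (hP : ∀ j, ContDiffOn ℝ (m : ℕ) (P j) (Hr ι)) (hQ : ∀ j, ContDiffOn ℝ (m : ℕ) (Q j) (Hr ι)) : ContDiffOn ℝ (m + 1 : ℕ) F (Hr ι) := by
  have h1 := ParD_succ h (n := (m : ℕ)) (by simp) hP hQ
  exact_mod_cast h1

omit [DecidableEq ι] in
private theorem ParD_one {m : ℕ} {F : (ι → ℂ) → ℝ} (hF : ContDiffOn ℝ (m + 1 : ℕ) F (Hr ι)) : ContDiffOn ℝ 1 F (Hr ι) :=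
  hF.of_le (by exact_mod_cast Nat.le_add_left 1 m)

theorem dxi_contDiffOn {m : ℕ} {F : (ι → ℂ) → ℝ} (hF : ContDiffOn ℝ (m + 1 : ℕ) F (Hr ι)) (j : ι) : ContDiffOn ℝ (m : ℕ) (dxi j F) (Hr ι) := by
  have h1 : ContDiffOn ℝ (m : ℕ) (fderiv ℝ F) (Hr ι) := hF.fderiv_of_isOpen isOpen_Hr (by push_cast; exact le_rfl)
  exact (h1.clm_apply contDiffOn_const).congr fun b hb => ParD_dxi (ParD_one hF) j hb

theorem dyi_contDiffOn {m : ℕ} {F : (ι → ℂ) → ℝ} (hF : ContDiffOn ℝ (m + 1 : ℕ) F (Hr ι)) (j : ι) : ContDiffOn ℝ (m : ℕ) (dyi j F) (Hr ι) := by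
  have h1 : ContDiffOn ℝ (m : ℕ) (fderiv ℝ F) (Hr ι) := hF.fderiv_of_isOpen isOpen_Hr (by push_cast; exact le_rfl)
  exact (h1.clm_apply contDiffOn_const).congr fun b hb => ParD_dyi (ParD_one hF) j hb

theorem L0i_contDiffOn {m : ℕ} {F : (ι → ℂ) → ℝ} (hF : ContDiffOn ℝ (m + 1 : ℕ) F (Hr ι)) (j : ι) : ContDiffOn ℝ (m : ℕ) (L0i j F) (Hr ι) := by
  have hre : ContDiffOn ℝ (m : ℕ) (fun b : ι → ℂ => (b j).re) (Hr ι) :=
    (reCLM.contDiff.comp (contDiff_apply ℝ ℂ j)).contDiffOn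
  have him : ContDiffOn ℝ (m : ℕ) (fun b : ι → ℂ => (b j).im) (Hr ι) :=
    (imCLM.contDiff.comp (contDiff_apply ℝ ℂ j)).contDiffOn
  exact (hre.mul (dxi_contDiffOn hF j)).add (him.mul (dyi_contDiffOn hF j))

end TRed
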