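import Pool.Agent.Lib.MP_464db4_gt.TI.ParA
import Pool.Agent.Lib.MP_464db4_gt.TI.ParD

/-!
# TI-ParC: the derivatives of a convolution in the coordinate `i` in the direction `i`
-/

namespace TRed

open Complex Matrix MeasureTheory YT Set Filter Topology
open scoped ContDiff ComplexConjugate

variable {ι : Type} [Fintype ι] [DecidableEq ι] {G : Type} [Group G] {pr : ι → G →* Matrix.SpecialLinearGroup (Fin 2) ℝ}

omit [Fintype ι] [DecidableEq ι] in
private theorem ParC_re (i : ι) : ContinuousOn (fun b : ι → ℂ => (b i).re) (Hr ι) :=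
  (Complex.continuous_re.comp (continuous_apply i)).continuousOn

omit [Fintype ι] [DecidableEq ι] in
private theorem ParC_inv (i : ι) : ContinuousOn (fun b : ι → ℂ => (b i).im⁻¹) (Hr ι) :=
  (Complex.continuous_im.comp (continuous_apply i)).continuousOn.inv₀ fun _ hb => ne_of_gt (hb i)

theorem hasPart_cvi_self {n : ℂ → ℝ} (hn : KW.GKer n) (i : ι) {F : (ι → ℂ) → ℝ} (hF : ContDiffOn ℝ 1 F (Hr ι)) :
    HasPart i (cvi n i F) (cvi n i (dxi i F)) (fun b => (b i).im⁻¹ * (cvi n i (L0i i F) b - (b i).re * cvi n i (dxi i F) b)) := by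
  have hF1 : ContDiffOn ℝ (0 + 1 : ℕ) F (Hr ι) := by exact_mod_cast hF
  have h1 := cvi_contOn hn i (dxi_contDiffOn hF1 i).continuousOn
  have h2 := cvi_contOn hn i (L0i_contDiffOn hF1 i).continuousOn
  refine ⟨h1, (ParC_inv i).mul (h2.sub ((ParC_re i).mul h1)), fun b hb => ?_⟩
  have h3 := KW.cv_hasFDerivAt hn (slice_contDiffOn hF hb i) (hb i)
  rw [← slice_cvi, ← slice_dxi, ← slice_L0i] at h3
  exact h3

theorem hasPart_cvi_w {n a b' : ℂ → ℝ} {R : ℝ} {N : ℕ → ℂ → ℝ} (hn : KW.WKer n a b' R N) (i : ι) {F : (ι → ℂ) → ℝ} (hF : ContinuousOn F (Hr ι)) :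
    HasPart i (cvi n i F) (fun b => -((b i).im⁻¹ * cvi a i F b)) (fun b => -((b i).im⁻¹ * cvi b' i F b)) := by
  refine ⟨((ParC_inv i).mul (cvi_contOn hn.ga i hF)).neg, ((ParC_inv i).mul (cvi_contOn hn.gb i hF)).neg, fun b hb => ?_⟩
  have h3 := KW.cvw_hasFDerivAt hn (slice_contOn hF hb i) (hb i)
  rw [← slice_cvi] at h3
  exact h3

end TRed
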