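import Pool.Agent.Lib.MP_464db4_gt.TI.ParB
import Pool.Agent.Lib.MP_464db4_gt.TI.ParC

/-!
# TI-ParE: convolutions of `C^m` functions are `C^m`
-/

namespace TRed

open Complex Matrix MeasureTheory YT Set Filter Topology
open scoped ContDiff ComplexConjugate

variable {ι : Type} [Fintype ι] [DecidableEq ι] {G : Type} [Group G] {pr : ι → G →* Matrix.SpecialLinearGroup (Fin 2) ℝ}
theorem cvi_contDiffOn {n : ℂ → ℝ} (hn : KW.GKer n) (i : ι) (m : ℕ) {F : (ι → ℂ) → ℝ} (hF : ContDiffOn ℝ (m : ℕ) F (Hr ι)) :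
    ContDiffOn ℝ (m : ℕ) (cvi n i F) (Hr ι) := by
  induction m generalizing F with
  | zero =>
    have h1 : ContinuousOn F (Hr ι) := hF.continuousOn
    have h2 := cvi_contOn hn i h1
    rw [Nat.cast_zero]
    exact contDiffOn_zero.2 h2
  | succ m ih =>
    have hF1 : ContDiffOn ℝ 1 F (Hr ι) := hF.of_le (by norm_cast; omega)
    have hre : ContDiff ℝ (m : ℕ) fun b : ι → ℂ => (b i).re :=
      (reCLM : ℂ →L[ℝ] ℝ).contDiff.comp (contDiff_apply ℝ ℂ i)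
    have him : ContDiff ℝ (m : ℕ) fun b : ι → ℂ => (b i).im :=
      (imCLM : ℂ →L[ℝ] ℝ).contDiff.comp (contDiff_apply ℝ ℂ i)
    have hinv : ContDiffOn ℝ (m : ℕ) (fun b : ι → ℂ => (b i).im⁻¹) (Hr ι) :=
      him.contDiffOn.inv fun b hb => (hb i).ne'
    refine contDiffOn_succ_of_part (P := fun j => cvi n i (dxi j F))
      (Q := fun j => if j = i then (fun b => (b i).im⁻¹ * (cvi n i (L0i i F) b - (b i).re * cvi n i (dxi i F) b)) else cvi n i (dyi j F))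
      ?_ m ?_ ?_
    · intro j
      by_cases hj : j = i
      · subst hj
        show HasPart j (cvi n j F) (cvi n j (dxi j F)) (if j = j then _ else _)
        rw [if_pos rfl]
        exact hasPart_cvi_self hn j hF1
      · show HasPart j (cvi n i F) (cvi n i (dxi j F)) (if j = i then _ else _)
        rw [if_neg hj]
        exact HasPart.cvi hn hj hF.continuousOn (hasPart_of_contDiffOn hF1 j)
    · intro j
      exact ih (dxi_contDiffOn hF j)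
    · intro j
      show ContDiffOn ℝ (m : ℕ) (if j = i then _ else _) (Hr ι)
      split_ifs with hj
      · exact hinv.mul ((ih (L0i_contDiffOn hF i)).sub (hre.contDiffOn.mul (ih (dxi_contDiffOn hF i))))
      · exact ih (dyi_contDiffOn hF j)

theorem cvi_smooth {n : ℂ → ℝ} (hn : KW.GKer n) (i : ι) {F : (ι → ℂ) → ℝ} (hF : ContDiffOn ℝ ∞ F (Hr ι)) : ContDiffOn ℝ ∞ (cvi n i F) (Hr ι) :=
  contDiffOn_infty.2 fun m => cvi_contDiffOn hn i m (contDiffOn_infty.1 hF m)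

theorem avi_contDiffOn {ν κ : ℝ → ℝ} {R C Λ : ℝ} (h : KW.KPair ν κ R C Λ) (i : ι) (m : ℕ) {F : (ι → ℂ) → ℝ} (hF : ContDiffOn ℝ (m : ℕ) F (Hr ι)) :
    ContDiffOn ℝ (m : ℕ) (avi κ i F) (Hr ι) :=
  (cvi_contDiffOn (KW.gker_kn h.profK) i m hF).div_const _

theorem avl_contDiffOn {ν κ : ℝ → ℝ} {R C Λ : ℝ} (h : KW.KPair ν κ R C Λ) (l : List ι) (m : ℕ) {F : (ι → ℂ) → ℝ} (hF : ContDiffOn ℝ (m : ℕ) F (Hr ι)) :
    ContDiffOn ℝ (m : ℕ) (avl κ l F) (Hr ι) := by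
  induction l with
  | nil => exact hF
  | cons i l ih => exact avi_contDiffOn h i m ih

theorem avi_smooth {ν κ : ℝ → ℝ} {R C Λ : ℝ} (h : KW.KPair ν κ R C Λ) (i : ι) {F : (ι → ℂ) → ℝ} (hF : ContDiffOn ℝ ∞ F (Hr ι)) :
    ContDiffOn ℝ ∞ (avi κ i F) (Hr ι) :=
  (cvi_smooth (KW.gker_kn h.profK) i hF).div_const _

theorem svi_smooth {ν κ : ℝ → ℝ} {R C Λ : ℝ} (h : KW.KPair ν κ R C Λ) (i : ι) {F : (ι → ℂ) → ℝ} (hF : ContDiffOn ℝ ∞ F (Hr ι)) :
    ContDiffOn ℝ ∞ (svi ν κ i F) (Hr ι) :=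
  (cvi_smooth (KW.gker_kn h.profN) i hF).div_const _

theorem avl_smooth {ν κ : ℝ → ℝ} {R C Λ : ℝ} (h : KW.KPair ν κ R C Λ) (l : List ι) {F : (ι → ℂ) → ℝ} (hF : ContDiffOn ℝ ∞ F (Hr ι)) :
    ContDiffOn ℝ ∞ (avl κ l F) (Hr ι) := by
  induction l with
  | nil => exact hF
  | cons i l ih => exact avi_smooth h i ih

end TRed
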