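import Pool.Agent.Lib.MP_464db4_gt.TI.Inv

/-!
# TI-Sp: the Banach space of the bounded continuous invariant functions on a product of upper half planes, and the averaging operator
-/

namespace TRed

open Complex Matrix MeasureTheory YT Set Filter Topology
open scoped ContDiff ComplexConjugate BoundedContinuousFunction

/-- The product of upper half planes as a type. -/
abbrev HRt (ι : Type) := {b : ι → ℂ // b ∈ Hr ι}

/-- The extension by zero. -/
noncomputable def exr {ι : Type} (φ : HRt ι → ℝ) (b : ι → ℂ) : ℝ := by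
  classical exact if h : b ∈ Hr ι then φ ⟨b, h⟩ else 0

theorem exr_of_mem {ι : Type} (φ : HRt ι → ℝ) {b : ι → ℂ} (h : b ∈ Hr ι) : exr φ b = φ ⟨b, h⟩ := by
  unfold exr
  exact dif_pos h

theorem exr_contOn {ι : Type} (φ : HRt ι →ᵇ ℝ) : ContinuousOn (exr φ) (Hr ι) := by
  rw [continuousOn_iff_continuous_domRestrict]
  have h1 : (Hr ι).domRestrict (exr φ) = φ := by
    funext z
    exact exr_of_mem _ z.2
  rw [h1]
  exact φ.continuous

theorem exr_abs_le {ι : Type} (φ : HRt ι →ᵇ ℝ) : ∀ b ∈ Hr ι, |exr φ b| ≤ ‖φ‖ := by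
  intro b hb
  rw [exr_of_mem _ hb]
  exact φ.norm_coe_le_norm ⟨b, hb⟩

variable {ι : Type} [Fintype ι] [DecidableEq ι] {G : Type} [Group G] {pr : ι → G →* Matrix.SpecialLinearGroup (Fin 2) ℝ} {ν κ : ℝ → ℝ} {R C Λ : ℝ}

theorem avl_abs_le (h : KW.KPair ν κ R C Λ) (l : List ι) {F : (ι → ℂ) → ℝ} (hF : ContinuousOn F (Hr ι)) {M : ℝ}
    (hM : ∀ b ∈ Hr ι, |F b| ≤ M) {b : ι → ℂ} (hb : b ∈ Hr ι) : |avl κ l F b| ≤ M := by
  rw [abs_le]
  exact ⟨le_avl h l hF (fun y hy => (abs_le.1 (hM y hy)).1) hb, avl_le h l hF (fun y hy => (abs_le.1 (hM y hy)).2) hb⟩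

/-- The bounded continuous functions which are invariant under the group. -/
def XR {ι G : Type} [Fintype ι] [DecidableEq ι] [Group G] (pr : ι → G →* Matrix.SpecialLinearGroup (Fin 2) ℝ) : Submodule ℝ (HRt ι →ᵇ ℝ) where
  carrier := {φ | ∀ (γ : G) (b : HRt ι), φ ⟨mobr pr γ b, mobr_mem γ b.2⟩ = φ b}
  add_mem' := by
    intro φ ψ hφ hψ γ b
    rw [BoundedContinuousFunction.add_apply, BoundedContinuousFunction.add_apply, hφ γ b, hψ γ b]
  zero_mem' := fun γ b => rfl
  smul_mem' := by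
    intro c φ hφ γ b
    rw [BoundedContinuousFunction.smul_apply, BoundedContinuousFunction.smul_apply, hφ γ b]

private theorem Sp_eval (b : HRt ι) : Continuous fun φ : HRt ι →ᵇ ℝ => φ b := (BoundedContinuousFunction.evalCLM ℝ b).continuous

theorem isClosed_XR : IsClosed (XR pr : Set (HRt ι →ᵇ ℝ)) := by
  have h1 : (XR pr : Set (HRt ι →ᵇ ℝ)) = ⋂ γ : G, ⋂ b : HRt ι, {φ : HRt ι →ᵇ ℝ | φ ⟨mobr pr γ b, mobr_mem γ b.2⟩ = φ b} := by
    ext φ
    simp only [Set.mem_iInter]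
    rfl
  rw [h1]
  refine isClosed_iInter fun γ => isClosed_iInter fun b => ?_
  exact isClosed_eq (Sp_eval _) (Sp_eval _)

/-- The Banach space of the bounded continuous functions which are invariant under the group (a type with its own instances). -/
def YR {ι G : Type} [Fintype ι] [DecidableEq ι] [Group G] (pr : ι → G →* Matrix.SpecialLinearGroup (Fin 2) ℝ) : Type := XR pr

noncomputable instance : NormedAddCommGroup (YR pr) := inferInstanceAs (NormedAddCommGroup (XR pr))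

noncomputable instance : NormedSpace ℝ (YR pr) := inferInstanceAs (NormedSpace ℝ (XR pr))

instance : CompleteSpace (YR pr) := (isClosed_XR (pr := pr)).completeSpace_coe

/-- The underlying bounded continuous function. -/
def YR.val (φ : YR pr) : HRt ι →ᵇ ℝ := Subtype.val φ

theorem YR.mem (φ : YR pr) : φ.val ∈ XR pr := Subtype.prop φ

/-- The element given by an invariant function. -/
def YR.mk (φ : HRt ι →ᵇ ℝ) (h : φ ∈ XR pr) : YR pr := ⟨φ, h⟩

theorem YR.val_mk (φ : HRt ι →ᵇ ℝ) (h : φ ∈ XR pr) : (YR.mk φ h).val = φ := rfl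

theorem YR.ext {φ ψ : YR pr} (h : ∀ b, φ.val b = ψ.val b) : φ = ψ := Subtype.ext (BoundedContinuousFunction.ext h)

theorem YR.norm_val (φ : YR pr) : ‖φ.val‖ = ‖φ‖ := rfl

theorem YR.dist_val (φ ψ : YR pr) : dist φ.val ψ.val = dist φ ψ := rfl

theorem YR.val_add (φ ψ : YR pr) : (φ + ψ).val = φ.val + ψ.val := rfl

theorem YR.val_sub (φ ψ : YR pr) : (φ - ψ).val = φ.val - ψ.val := rfl

theorem YR.val_smul (c : ℝ) (φ : YR pr) : (c • φ).val = c • φ.val := rfl

/-- The averaging operator on the bounded continuous functions. -/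
noncomputable def ALb (h : KW.KPair ν κ R C Λ) (l : List ι) (φ : HRt ι →ᵇ ℝ) : HRt ι →ᵇ ℝ :=
  BoundedContinuousFunction.ofNormedAddCommGroup (fun b : HRt ι => avl κ l (exr φ) b)
    (continuousOn_iff_continuous_domRestrict.1 (avl_contOn h l (exr_contOn φ))) ‖φ‖
    (fun b => avl_abs_le h l (exr_contOn φ) (exr_abs_le φ) b.2)

theorem ALb_apply (h : KW.KPair ν κ R C Λ) (l : List ι) (φ : HRt ι →ᵇ ℝ) (b : HRt ι) : ALb h l φ b = avl κ l (exr φ) b := rfl

/-- The averaging operator as a continuous linear map. -/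
noncomputable def ALl (h : KW.KPair ν κ R C Λ) (l : List ι) : (HRt ι →ᵇ ℝ) →L[ℝ] (HRt ι →ᵇ ℝ) :=
  LinearMap.mkContinuous
    { toFun := ALb h l
      map_add' := by
        intro φ ψ
        ext b
        rw [BoundedContinuousFunction.add_apply, ALb_apply, ALb_apply, ALb_apply, ← avl_add h l (exr_contOn φ) (exr_contOn ψ) b.2]
        refine avl_congr h l (fun y hy => ?_) b.2
        rw [exr_of_mem _ hy, exr_of_mem _ hy, exr_of_mem _ hy]
        rfl
      map_smul' := by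
        intro c φ
        ext b
        rw [RingHom.id_apply, BoundedContinuousFunction.smul_apply, ALb_apply, ALb_apply, smul_eq_mul, ← avl_smul h l c b.2]
        refine avl_congr h l (fun y hy => ?_) b.2
        rw [exr_of_mem _ hy, exr_of_mem _ hy]
        rfl } 1
    (fun φ => by
      rw [one_mul]
      exact (BoundedContinuousFunction.norm_le (norm_nonneg _)).2 fun b => avl_abs_le h l (exr_contOn φ) (exr_abs_le φ) b.2)

theorem ALl_apply (h : KW.KPair ν κ R C Λ) (l : List ι) (φ : HRt ι →ᵇ ℝ) (b : HRt ι) : ALl h l φ b = avl κ l (exr φ) b := rfl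

theorem exr_inv {φ : HRt ι →ᵇ ℝ} (hφ : φ ∈ XR pr) : InvG pr (exr φ) := by
  intro γ b hb
  rw [exr_of_mem _ hb, exr_of_mem _ (mobr_mem γ hb)]
  exact hφ γ ⟨b, hb⟩

theorem ALl_mem (h : KW.KPair ν κ R C Λ) (l : List ι) {φ : HRt ι →ᵇ ℝ} (hφ : φ ∈ XR pr) : ALl h l φ ∈ XR pr := by
  intro γ b
  rw [ALl_apply, ALl_apply]
  exact avl_inv h l (exr_inv hφ) γ b.1 b.2

/-- The constant function `1` is invariant. -/
theorem one_mem_XR : (1 : HRt ι →ᵇ ℝ) ∈ XR pr := fun _ _ => rfl

/-- The operator `φ ↦ A φ - φ(p)` on the invariant functions, as a linear map. -/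
noncomputable def AYl (h : KW.KPair ν κ R C Λ) (l : List ι) (pr : ι → G →* Matrix.SpecialLinearGroup (Fin 2) ℝ) (p : HRt ι) : YR pr →ₗ[ℝ] YR pr where
  toFun φ := YR.mk (ALl h l φ.val - φ.val p • (1 : HRt ι →ᵇ ℝ)) ((XR pr).sub_mem (ALl_mem h l φ.mem) ((XR pr).smul_mem _ one_mem_XR))
  map_add' := by
    intro φ ψ
    refine YR.ext fun z => ?_
    show (ALl h l (φ.val + ψ.val) - (φ.val + ψ.val) p • (1 : HRt ι →ᵇ ℝ)) z =
      ((ALl h l φ.val - φ.val p • (1 : HRt ι →ᵇ ℝ)) + (ALl h l ψ.val - ψ.val p • (1 : HRt ι →ᵇ ℝ))) z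
    rw [map_add]
    simp only [BoundedContinuousFunction.coe_sub, BoundedContinuousFunction.coe_add, BoundedContinuousFunction.coe_smul, Pi.sub_apply,
      Pi.add_apply, BoundedContinuousFunction.coe_one, Pi.one_apply, smul_eq_mul, mul_one]
    ring
  map_smul' := by
    intro c φ
    refine YR.ext fun z => ?_
    show (ALl h l (c • φ.val) - (c • φ.val) p • (1 : HRt ι →ᵇ ℝ)) z = (c • (ALl h l φ.val - φ.val p • (1 : HRt ι →ᵇ ℝ))) z
    rw [map_smul]
    simp only [BoundedContinuousFunction.coe_sub, BoundedContinuousFunction.coe_smul, Pi.sub_apply,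
      BoundedContinuousFunction.coe_one, Pi.one_apply, smul_eq_mul, mul_one]
    ring

/-- The operator `φ ↦ A φ - φ(p)` on the invariant functions. -/
noncomputable def AY (h : KW.KPair ν κ R C Λ) (l : List ι) (pr : ι → G →* Matrix.SpecialLinearGroup (Fin 2) ℝ) (p : HRt ι) : YR pr →L[ℝ] YR pr :=
  LinearMap.mkContinuous (AYl h l pr p) 2
    (fun φ => by
      have h1 : ‖ALl h l φ.val‖ ≤ ‖φ.val‖ :=
        (BoundedContinuousFunction.norm_le (norm_nonneg _)).2 fun b => avl_abs_le h l (exr_contOn φ.val) (exr_abs_le φ.val) b.2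
      have h2 : ‖φ.val p • (1 : HRt ι →ᵇ ℝ)‖ ≤ ‖φ.val‖ := by
        refine (BoundedContinuousFunction.norm_le (norm_nonneg _)).2 fun z => ?_
        have h3 : (φ.val p • (1 : HRt ι →ᵇ ℝ)) z = φ.val p := mul_one _
        rw [h3]
        exact φ.val.norm_coe_le_norm p
      calc ‖ALl h l φ.val - φ.val p • (1 : HRt ι →ᵇ ℝ)‖ ≤ ‖ALl h l φ.val‖ + ‖φ.val p • (1 : HRt ι →ᵇ ℝ)‖ := norm_sub_le _ _
        _ ≤ ‖φ.val‖ + ‖φ.val‖ := add_le_add h1 h2
        _ = 2 * ‖φ‖ := by
          rw [two_mul, YR.norm_val])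

theorem AY_apply (h : KW.KPair ν κ R C Λ) (l : List ι) (p : HRt ι) (φ : YR pr) (z : HRt ι) :
    (AY h l pr p φ).val z = avl κ l (exr φ.val) z - φ.val p := by
  have h1 : (AY h l pr p φ).val z = ALl h l φ.val z - φ.val p * (1 : HRt ι →ᵇ ℝ) z := rfl
  rw [h1, ALl_apply]
  have h2 : (1 : HRt ι →ᵇ ℝ) z = 1 := rfl
  rw [h2, mul_one]

end TRed
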